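import Mathlib
import Pool.Agent.H49.L.Mom

/-!
Characteristic functions of random fixed-size subset sums: adjacent levels, binomial mixture.
-/

open Finset
open scoped BigOperators

namespace Pool.Agent.H49.MK

open Pool.Agent.H49.L

variable {α : Type} [DecidableEq α]

/-- adding one element to a `k`-subset -/
theorem up_sum {R : Type} [CommRing R] (M : Finset α) (k : ℕ) (g : Finset α → R) :
    ((k + 1 : ℕ) : R) * ∑ K ∈ M.powersetCard (k + 1), g K =
      ∑ K ∈ M.powersetCard k, ∑ a ∈ M \ K, g (insert a K) := by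
  have h1 : ((k + 1 : ℕ) : R) * ∑ K ∈ M.powersetCard (k + 1), g K =
      ∑ K ∈ M.powersetCard (k + 1), ∑ a ∈ K, g K := by
    rw [Finset.mul_sum]
    refine Finset.sum_congr rfl fun K hK => ?_
    rw [Finset.sum_const, (Finset.mem_powersetCard.1 hK).2, nsmul_eq_mul]
  rw [h1, Finset.sum_sigma', Finset.sum_sigma']
  refine Finset.sum_bij' (fun p _ => ⟨p.1.erase p.2, p.2⟩) (fun p _ => ⟨insert p.2 p.1, p.2⟩)
    ?_ ?_ ?_ ?_ ?_
  · rintro ⟨K, a⟩ h
    simp only [Finset.mem_sigma, Finset.mem_powersetCard] at h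
    simp only [Finset.mem_sigma, Finset.mem_powersetCard, Finset.mem_sdiff]
    refine ⟨⟨(Finset.erase_subset _ _).trans h.1.1, ?_⟩, h.1.1 h.2, Finset.notMem_erase _ _⟩
    rw [Finset.card_erase_of_mem h.2, h.1.2]; rfl
  · rintro ⟨K, a⟩ h
    simp only [Finset.mem_sigma, Finset.mem_powersetCard, Finset.mem_sdiff] at h
    simp only [Finset.mem_sigma, Finset.mem_powersetCard]
    refine ⟨⟨Finset.insert_subset h.2.1 h.1.1, ?_⟩, Finset.mem_insert_self _ _⟩
    rw [Finset.card_insert_of_notMem h.2.2, h.1.2]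
  · rintro ⟨K, a⟩ h
    simp only [Finset.mem_sigma, Finset.mem_powersetCard] at h
    simp only [Finset.insert_erase h.2]
  · rintro ⟨K, a⟩ h
    simp only [Finset.mem_sigma, Finset.mem_powersetCard, Finset.mem_sdiff] at h
    simp only [Finset.erase_insert h.2.2]
  · rintro ⟨K, a⟩ h
    simp only [Finset.mem_sigma, Finset.mem_powersetCard] at h
    simp only [Finset.insert_erase h.2]

/-- unnormalised characteristic function of the `k`-subset sum -/
noncomputable def ph (y : α → ℝ) (M : Finset α) (k : ℕ) (u : ℝ) : ℂ :=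
  ∑ K ∈ M.powersetCard k, Complex.exp (((u * ∑ a ∈ K, y a : ℝ) : ℂ) * Complex.I)

/-- normalised -/
noncomputable def phn (y : α → ℝ) (M : Finset α) (k : ℕ) (u : ℝ) : ℂ :=
  ph y M k u / ((M.card.choose k : ℝ) : ℂ)

omit [DecidableEq α] in
theorem norm_phn_le (y : α → ℝ) (M : Finset α) (k : ℕ) (hk : k ≤ M.card) (u : ℝ) :
    ‖phn y M k u‖ ≤ 1 := by
  have hC : (0 : ℝ) < (M.card.choose k : ℝ) := by exact_mod_cast Nat.choose_pos hk
  unfold phn ph
  rw [norm_div, div_le_one (by rw [Complex.norm_real, Real.norm_eq_abs, abs_of_pos hC]; exact hC)]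
  refine (norm_sum_le _ _).trans ?_
  rw [Finset.sum_congr rfl fun K _ => Complex.norm_exp_ofReal_mul_I _, Finset.sum_const,
    Finset.card_powersetCard, Complex.norm_real, Real.norm_eq_abs, abs_of_pos hC]
  simp

theorem exp_quad (θ : ℝ) :
    ‖Complex.exp ((θ : ℂ) * Complex.I) - 1 - (θ : ℂ) * Complex.I‖ ≤ 3 * θ ^ 2 := by
  have hn : ‖(θ : ℂ) * Complex.I‖ = |θ| := by simp
  by_cases h : |θ| ≤ 1
  · have := Complex.norm_exp_sub_one_sub_id_le (x := (θ : ℂ) * Complex.I) (by rw [hn]; exact h)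
    rw [hn, sq_abs] at this
    nlinarith [sq_nonneg θ]
  · push Not at h
    have h1 : ‖Complex.exp ((θ : ℂ) * Complex.I) - 1 - (θ : ℂ) * Complex.I‖ ≤
        ‖Complex.exp ((θ : ℂ) * Complex.I)‖ + ‖(1 : ℂ)‖ + ‖(θ : ℂ) * Complex.I‖ :=
      (norm_sub_le _ _).trans (add_le_add (norm_sub_le _ _) le_rfl)
    rw [Complex.norm_exp_ofReal_mul_I, norm_one, hn] at h1
    have h2 : |θ| ^ 2 = θ ^ 2 := sq_abs θ
    nlinarith

/-- second moment bound about an arbitrary point -/
theorem second_moment (y : α → ℝ) (M : Finset α) (k : ℕ) (hM : 2 ≤ M.card) (hk : k ≤ M.card) :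
    ∑ K ∈ M.powersetCard k, (∑ a ∈ K, y a - (k / M.card : ℝ) * PP y M 1) ^ 2 ≤
      (M.card.choose k : ℝ) * PP y M 2 := by
  have hN : (2 : ℝ) ≤ M.card := by exact_mod_cast hM
  set N : ℝ := (M.card : ℝ) with hNd
  set c : ℝ := PP y M 1 / N with hc
  have hN0 : (0 : ℝ) < N := by linarith
  have e1 : PP (fun a => y a - c) M 1 = 0 := by
    unfold PP
    have : ∑ a ∈ M, (y a - c) ^ 1 = PP y M 1 - N * c := by
      unfold PP
      simp only [pow_one]
      rw [Finset.sum_sub_distrib, Finset.sum_const, nsmul_eq_mul]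
    rw [this, hc]
    field_simp
    ring
  have e2 : PP (fun a => y a - c) M 2 ≤ PP y M 2 := by
    have : PP (fun a => y a - c) M 2 = PP y M 2 - N * c ^ 2 := by
      have h : PP (fun a => y a - c) M 2 = PP y M 2 - 2 * c * PP y M 1 + N * c ^ 2 := by
        unfold PP
        rw [show N * c ^ 2 = ∑ a ∈ M, c ^ 2 by rw [Finset.sum_const, nsmul_eq_mul],
          Finset.mul_sum, ← Finset.sum_sub_distrib, ← Finset.sum_add_distrib]
        exact Finset.sum_congr rfl fun a _ => by ring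
      have h' : PP y M 1 = N * c := by rw [hc]; field_simp
      rw [h, h']; ring
    rw [this]
    nlinarith [sq_nonneg c]
  have h2 := M2 (fun a => y a - c) M k hM e1
  have e3 : ∑ K ∈ M.powersetCard k, (∑ a ∈ K, y a - (k / M.card : ℝ) * PP y M 1) ^ 2 =
      FF (fun a => y a - c) M k 2 := by
    unfold FF
    refine Finset.sum_congr rfl fun K hK => ?_
    rw [Finset.sum_sub_distrib, Finset.sum_const, (Finset.mem_powersetCard.1 hK).2, nsmul_eq_mul,
      hc, ← hNd]
    congr 1
    ring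
  rw [e3, h2]
  refine mul_le_mul_of_nonneg_left ?_ (by positivity)
  have hkN : (k : ℝ) ≤ N := by rw [hNd]; exact_mod_cast hk
  have hk0 : (0 : ℝ) ≤ k := by positivity
  have hfa0 : 0 ≤ fa M.card k := by
    unfold fa
    apply div_nonneg (mul_nonneg hk0 (by linarith)) (mul_nonneg hN0.le (by linarith))
  have hfa1 : fa M.card k ≤ 1 := by
    unfold fa
    rw [div_le_one (mul_pos hN0 (by linarith))]
    nlinarith [sq_nonneg (N - 2 * k)]
  have hP0 : 0 ≤ PP (fun a => y a - c) M 2 := Finset.sum_nonneg fun a _ => sq_nonneg _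
  calc fa M.card k * PP (fun a => y a - c) M 2 ≤ 1 * PP (fun a => y a - c) M 2 :=
        mul_le_mul_of_nonneg_right hfa1 hP0
    _ ≤ _ := by rw [one_mul]; exact e2

/-- constant in the level difference -/
noncomputable def Bc (u T Q : ℝ) : ℝ := |u| * (1 / 2 + T ^ 2 + Q) + 3 * u ^ 2 * Q

theorem phn_diff (y : α → ℝ) (M : Finset α) (k : ℕ) (hM : 2 ≤ M.card) (hk : k + 1 ≤ M.card)
    (u : ℝ) :
    ‖phn y M (k + 1) u - phn y M k u‖ ≤ Bc u (PP y M 1) (PP y M 2) / (M.card - k) := by
  have hN : (2 : ℝ) ≤ M.card := by exact_mod_cast hM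
  have hkN : (k : ℝ) + 1 ≤ M.card := by exact_mod_cast hk
  have hk0 : (0 : ℝ) ≤ k := by positivity
  have hd : (0 : ℝ) < M.card - k := by linarith
  have hC : (0 : ℝ) < (M.card.choose k : ℝ) := by exact_mod_cast Nat.choose_pos (by omega)
  have hC1 : (0 : ℝ) < (M.card.choose (k + 1) : ℝ) := by exact_mod_cast Nat.choose_pos hk
  have hrel : (M.card.choose (k + 1) : ℝ) * (k + 1) = (M.card.choose k : ℝ) * (M.card - k) := by
    have := Nat.choose_succ_right_eq M.card k
    have h' : ((M.card.choose (k + 1) * (k + 1) : ℕ) : ℝ) = ((M.card.choose k * (M.card - k) : ℕ) : ℝ) := by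
      rw [this]
    rw [Nat.cast_mul, Nat.cast_mul, Nat.cast_sub (by omega)] at h'
    push_cast at h'
    exact h'
  set E : Finset α → ℂ := fun K => Complex.exp (((u * ∑ a ∈ K, y a : ℝ) : ℂ) * Complex.I) with hE
  have hup := up_sum M k E
  -- write the difference
  have hcard : ∀ K ∈ M.powersetCard k, ((M \ K).card : ℝ) = M.card - k := by
    intro K hK
    obtain ⟨h1, h2⟩ := Finset.mem_powersetCard.1 hK
    rw [Finset.card_sdiff_of_subset h1, h2, Nat.cast_sub (by omega)]
  have hkey : (((M.card.choose k : ℝ) * (M.card - k) : ℝ) : ℂ) * (phn y M (k + 1) u - phn y M k u) =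
      ∑ K ∈ M.powersetCard k, E K * ∑ a ∈ M \ K, (Complex.exp (((u * y a : ℝ) : ℂ) * Complex.I) - 1) := by
    have a1 : (((M.card.choose k : ℝ) * (M.card - k) : ℝ) : ℂ) * phn y M (k + 1) u =
        ∑ K ∈ M.powersetCard k, ∑ a ∈ M \ K, E (insert a K) := by
      rw [← hup, ← hrel]
      unfold phn ph
      have : ((M.card.choose (k + 1) : ℝ) : ℂ) ≠ 0 := by exact_mod_cast hC1.ne'
      rw [Complex.ofReal_mul, mul_comm (((M.card.choose (k + 1) : ℝ) : ℂ)), mul_assoc,
        mul_div_cancel₀ _ this]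
      congr 1
      push_cast
      rfl
    have a2 : (((M.card.choose k : ℝ) * (M.card - k) : ℝ) : ℂ) * phn y M k u =
        ∑ K ∈ M.powersetCard k, ∑ a ∈ M \ K, E K := by
      unfold phn ph
      have : ((M.card.choose k : ℝ) : ℂ) ≠ 0 := by exact_mod_cast hC.ne'
      rw [Complex.ofReal_mul, mul_comm (((M.card.choose k : ℝ) : ℂ)), mul_assoc,
        mul_div_cancel₀ _ this, Finset.mul_sum]
      refine Finset.sum_congr rfl fun K hK => ?_
      rw [Finset.sum_const, nsmul_eq_mul]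
      congr 1
      have := hcard K hK
      exact_mod_cast this.symm
    rw [mul_sub, a1, a2, ← Finset.sum_sub_distrib]
    refine Finset.sum_congr rfl fun K hK => ?_
    rw [← Finset.sum_sub_distrib, Finset.mul_sum]
    refine Finset.sum_congr rfl fun a ha => ?_
    have haK : a ∉ K := (Finset.mem_sdiff.1 ha).2
    rw [hE]
    simp only
    rw [Finset.sum_insert haK, mul_sub, mul_one, ← Complex.exp_add]
    congr 2
    push_cast
    ring
  have hterm : ∀ K ∈ M.powersetCard k,
      ‖E K * ∑ a ∈ M \ K, (Complex.exp (((u * y a : ℝ) : ℂ) * Complex.I) - 1)‖ ≤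
        |u| * (1 / 2 + PP y M 1 ^ 2 + (∑ a ∈ K, y a - (k / M.card : ℝ) * PP y M 1) ^ 2) +
          3 * u ^ 2 * PP y M 2 := by
    intro K hK
    obtain ⟨hK1, hK2⟩ := Finset.mem_powersetCard.1 hK
    rw [norm_mul, hE, Complex.norm_exp_ofReal_mul_I, one_mul]
    have b1 : ∑ a ∈ M \ K, (Complex.exp (((u * y a : ℝ) : ℂ) * Complex.I) - 1) =
        ∑ a ∈ M \ K, (Complex.exp (((u * y a : ℝ) : ℂ) * Complex.I) - 1 - ((u * y a : ℝ) : ℂ) * Complex.I)
          + ((u * ∑ a ∈ M \ K, y a : ℝ) : ℂ) * Complex.I := by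
      rw [Finset.sum_sub_distrib (g := fun a => ((u * y a : ℝ) : ℂ) * Complex.I), ← Finset.sum_mul,
        Finset.mul_sum, Complex.ofReal_sum]
      ring
    rw [b1]
    refine (norm_add_le _ _).trans ?_
    have b2 : ‖∑ a ∈ M \ K, (Complex.exp (((u * y a : ℝ) : ℂ) * Complex.I) - 1 -
        ((u * y a : ℝ) : ℂ) * Complex.I)‖ ≤ 3 * u ^ 2 * PP y M 2 := by
      refine (norm_sum_le _ _).trans ?_
      calc ∑ a ∈ M \ K, ‖Complex.exp (((u * y a : ℝ) : ℂ) * Complex.I) - 1 -
              ((u * y a : ℝ) : ℂ) * Complex.I‖ ≤ ∑ a ∈ M \ K, 3 * (u * y a) ^ 2 :=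
            Finset.sum_le_sum fun a _ => exp_quad _
        _ ≤ ∑ a ∈ M, 3 * (u * y a) ^ 2 :=
            Finset.sum_le_sum_of_subset_of_nonneg Finset.sdiff_subset fun a _ _ => by positivity
        _ = _ := by
            unfold PP
            rw [Finset.mul_sum]
            exact Finset.sum_congr rfl fun a _ => by ring
    have b3 : ‖((u * ∑ a ∈ M \ K, y a : ℝ) : ℂ) * Complex.I‖ ≤ |u| * (1 / 2 + PP y M 1 ^ 2 +
        (∑ a ∈ K, y a - (k / M.card : ℝ) * PP y M 1) ^ 2) := by
      rw [norm_mul, Complex.norm_I, mul_one, Complex.norm_real, Real.norm_eq_abs, abs_mul]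
      refine mul_le_mul_of_nonneg_left ?_ (abs_nonneg _)
      have c1 : ∑ a ∈ M \ K, y a = PP y M 1 - ∑ a ∈ K, y a := by
        unfold PP
        simp only [pow_one]
        rw [← Finset.sum_sdiff hK1]; ring
      rw [c1]
      set T := PP y M 1
      set s := ∑ a ∈ K, y a
      set κ : ℝ := (k / M.card : ℝ) with hκ
      have hκ0 : 0 ≤ κ := by positivity
      have hκ1 : κ ≤ 1 := by rw [hκ, div_le_one (by linarith)]; linarith
      have c2 : |T - s| ≤ |(1 - κ) * T| + |s - κ * T| := by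
        have : T - s = (1 - κ) * T - (s - κ * T) := by ring
        rw [this]; exact abs_sub _ _
      have c3 : |(1 - κ) * T| ≤ |T| := by
        rw [abs_mul, abs_of_nonneg (by linarith)]
        nlinarith [abs_nonneg T]
      have c4 : |T| ≤ 1 / 4 + T ^ 2 := by
        have := sq_abs T
        nlinarith [sq_nonneg (|T| - 1 / 2)]
      have c5 : |s - κ * T| ≤ 1 / 4 + (s - κ * T) ^ 2 := by
        have := sq_abs (s - κ * T)
        nlinarith [sq_nonneg (|s - κ * T| - 1 / 2)]
      linarith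
    linarith
  have hsum : ‖∑ K ∈ M.powersetCard k, E K * ∑ a ∈ M \ K,
      (Complex.exp (((u * y a : ℝ) : ℂ) * Complex.I) - 1)‖ ≤
      (M.card.choose k : ℝ) * Bc u (PP y M 1) (PP y M 2) := by
    refine (norm_sum_le _ _).trans ((Finset.sum_le_sum hterm).trans ?_)
    rw [Finset.sum_add_distrib, ← Finset.mul_sum, Finset.sum_add_distrib, Finset.sum_const,
      Finset.sum_const, Finset.card_powersetCard, nsmul_eq_mul, nsmul_eq_mul]
    have := second_moment y M k hM (by omega)
    have hu := abs_nonneg u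
    unfold Bc
    nlinarith [mul_le_mul_of_nonneg_left this hu]
  rw [le_div_iff₀ hd]
  have hfin : (M.card.choose k : ℝ) * (M.card - k) * ‖phn y M (k + 1) u - phn y M k u‖ ≤
      (M.card.choose k : ℝ) * Bc u (PP y M 1) (PP y M 2) := by
    have := congrArg norm hkey
    rw [norm_mul, Complex.norm_real, Real.norm_eq_abs,
      abs_of_pos (mul_pos hC hd)] at this
    rw [this]; exact hsum
  have : (M.card.choose k : ℝ) * ((M.card - k) * ‖phn y M (k + 1) u - phn y M k u‖) ≤
      (M.card.choose k : ℝ) * Bc u (PP y M 1) (PP y M 2) := by rw [← mul_assoc]; exact hfin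
  have := le_of_mul_le_mul_left this hC
  linarith

end Pool.Agent.H49.MK
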