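import Mathlib
import Pool.Agent.H49.MK.CharA

/-!
Product bound for the characteristic function of a random `m`-subset sum.
-/

open Finset
open scoped BigOperators

namespace Pool.Agent.H49.MK

open Pool.Agent.H49.L

variable {α : Type} [DecidableEq α]

theorem chain_le (f : ℕ → ℂ) (L : ℕ) (d : ℝ) (hf : ∀ k, k + 1 ≤ L → ‖f (k + 1) - f k‖ ≤ d)
    (i : ℕ) : ∀ t : ℕ, i + t ≤ L → ‖f (i + t) - f i‖ ≤ d * t := by
  intro t
  induction t with
  | zero => intro _; simp
  | succ t ih =>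
    intro h
    have h1 := ih (by omega)
    have h2 := hf (i + t) (by omega)
    have h3 : f (i + (t + 1)) - f i = (f (i + t + 1) - f (i + t)) + (f (i + t) - f i) := by
      rw [← add_assoc]; ring
    rw [h3]
    refine (norm_add_le _ _).trans ?_
    push_cast
    linarith

theorem Bc_nonneg (u T Q : ℝ) (hQ : 0 ≤ Q) : 0 ≤ Bc u T Q := by
  unfold Bc; positivity

theorem phn_lip (y : α → ℝ) (M : Finset α) (m : ℕ) (hM : 2 ≤ M.card) (hm : 4 * m ≤ M.card)
    (u : ℝ) (j : ℕ) (hj : j ≤ M.card) :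
    ‖phn y M j u - phn y M m u‖ ≤
      (8 + 2 * Bc u (PP y M 1) (PP y M 2)) / M.card * |(j : ℝ) - m| := by
  have hN : (2 : ℝ) ≤ M.card := by exact_mod_cast hM
  have hN0 : (0 : ℝ) < M.card := by linarith
  have hQ : 0 ≤ PP y M 2 := Finset.sum_nonneg fun a _ => sq_nonneg _
  have hB := Bc_nonneg u (PP y M 1) (PP y M 2) hQ
  set B := Bc u (PP y M 1) (PP y M 2) with hBd
  by_cases h2 : 2 * j ≤ M.card
  · have hstep : ∀ k, k + 1 ≤ M.card / 2 → ‖phn y M (k + 1) u - phn y M k u‖ ≤ 2 * B / M.card := by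
      intro k hk
      have hk' : 2 * (k + 1) ≤ M.card := by omega
      have h := phn_diff y M k hM (by omega) u
      refine h.trans ?_
      have hkR : 2 * ((k : ℝ) + 1) ≤ M.card := by exact_mod_cast hk'
      rw [div_le_div_iff₀ (by linarith) hN0]
      nlinarith
    have hmain : ‖phn y M j u - phn y M m u‖ ≤ 2 * B / M.card * |(j : ℝ) - m| := by
      rcases le_total m j with hmj | hmj
      · obtain ⟨t, rfl⟩ := Nat.exists_eq_add_of_le hmj
        have := chain_le (fun k => phn y M k u) (M.card / 2) _ hstep m t (by omega)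
        have e : |((m + t : ℕ) : ℝ) - m| = t := by
          push_cast; rw [add_sub_cancel_left]; exact abs_of_nonneg (by positivity)
        rw [e]; exact this
      · obtain ⟨t, rfl⟩ := Nat.exists_eq_add_of_le hmj
        have := chain_le (fun k => phn y M k u) (M.card / 2) _ hstep j t (by omega)
        have e : |(j : ℝ) - ((j + t : ℕ) : ℝ)| = t := by
          push_cast; rw [sub_add_cancel_left, abs_neg]; exact abs_of_nonneg (by positivity)
        rw [e, norm_sub_rev]; exact this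
    refine hmain.trans (mul_le_mul_of_nonneg_right ?_ (abs_nonneg _))
    exact div_le_div_of_nonneg_right (by linarith) hN0.le
  · have hj2 : (M.card : ℝ) < 2 * j := by
      push Not at h2
      exact_mod_cast h2
    have hm4 : (4 : ℝ) * m ≤ M.card := by exact_mod_cast hm
    have hn : ‖phn y M j u - phn y M m u‖ ≤ 2 := by
      refine (norm_sub_le _ _).trans ?_
      have h1 := norm_phn_le y M j hj u
      have h2 := norm_phn_le y M m (by omega) u
      linarith
    refine hn.trans ?_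
    have habs : (M.card : ℝ) / 4 ≤ |(j : ℝ) - m| := by
      refine le_trans ?_ (le_abs_self _)
      linarith
    calc (2 : ℝ) = 8 / M.card * (M.card / 4) := by field_simp; norm_num
      _ ≤ (8 + 2 * B) / M.card * |(j : ℝ) - m| := by
        refine mul_le_mul ?_ habs (by positivity) (by positivity)
        exact div_le_div_of_nonneg_right (by linarith) hN0.le

/-- binomial weights -/
noncomputable def bw (N : ℕ) (κ : ℝ) (j : ℕ) : ℝ := (N.choose j : ℝ) * κ ^ j * (1 - κ) ^ (N - j)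

theorem bw_nonneg (N : ℕ) (κ : ℝ) (h0 : 0 ≤ κ) (h1 : κ ≤ 1) (j : ℕ) : 0 ≤ bw N κ j := by
  unfold bw
  have : 0 ≤ 1 - κ := by linarith
  positivity

theorem bw_sum (N : ℕ) (κ : ℝ) : ∑ j ∈ range (N + 1), bw N κ j = 1 := by
  have h := add_pow κ (1 - κ) N
  rw [add_sub_cancel, one_pow] at h
  rw [h]
  exact Finset.sum_congr rfl fun j _ => by unfold bw; ring

theorem bw_var (N : ℕ) (κ : ℝ) :
    ∑ j ∈ range (N + 1), bw N κ j * ((j : ℝ) - N * κ) ^ 2 = N * κ * (1 - κ) := by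
  have h := congrArg (Polynomial.eval κ) (bernsteinPolynomial.variance ℝ N)
  rw [Polynomial.eval_finsetSum] at h
  simp only [bernsteinPolynomial, Polynomial.eval_mul, Polynomial.eval_pow, Polynomial.eval_sub,
    nsmul_eq_mul, Polynomial.eval_natCast, Polynomial.eval_X, Polynomial.eval_one] at h
  rw [← h]
  exact Finset.sum_congr rfl fun j _ => by unfold bw; ring

theorem mixture (y : α → ℝ) (M : Finset α) (κ u : ℝ) :
    ∏ a ∈ M, ((1 - κ : ℝ) + (κ : ℂ) * Complex.exp (((u * y a : ℝ) : ℂ) * Complex.I)) =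
      ∑ j ∈ range (M.card + 1), ((bw M.card κ j : ℝ) : ℂ) * phn y M j u := by
  have h1 : ∏ a ∈ M, (((1 - κ : ℝ) : ℂ) + (κ : ℂ) * Complex.exp (((u * y a : ℝ) : ℂ) * Complex.I)) =
      ∏ a ∈ M, ((κ : ℂ) * Complex.exp (((u * y a : ℝ) : ℂ) * Complex.I) + ((1 - κ : ℝ) : ℂ)) :=
    Finset.prod_congr rfl fun a _ => add_comm _ _
  rw [h1, Finset.prod_add, Finset.sum_powerset]
  refine Finset.sum_congr rfl fun j hj => ?_
  have hjN : j ≤ M.card := by have := Finset.mem_range.1 hj; omega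
  have hC : ((M.card.choose j : ℝ) : ℂ) ≠ 0 := by
    have := Nat.choose_pos hjN
    exact_mod_cast this.ne'
  have e : ((bw M.card κ j : ℝ) : ℂ) * phn y M j u =
      (κ : ℂ) ^ j * ((1 - κ : ℝ) : ℂ) ^ (M.card - j) * ph y M j u := by
    unfold bw phn
    push_cast
    push_cast at hC
    field_simp
  rw [e]
  unfold ph
  rw [Finset.mul_sum]
  refine Finset.sum_congr rfl fun K hK => ?_
  obtain ⟨hK1, hK2⟩ := Finset.mem_powersetCard.1 hK
  rw [Finset.prod_mul_distrib, Finset.prod_const, Finset.prod_const, hK2,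
    Finset.card_sdiff_of_subset hK1, hK2, ← Complex.exp_sum]
  have : ∑ a ∈ K, ((u * y a : ℝ) : ℂ) * Complex.I = ((u * ∑ a ∈ K, y a : ℝ) : ℂ) * Complex.I := by
    rw [← Finset.sum_mul, Finset.mul_sum, Complex.ofReal_sum]
  rw [this]
  ring

theorem abs_le_s (x s : ℝ) (hs : 0 < s) : |x| ≤ s / 2 + x ^ 2 * (1 / (2 * s)) := by
  have h3 := sq_abs x
  rw [← h3]
  have h4 : |x| * (2 * s) ≤ s ^ 2 + |x| ^ 2 := by
    nlinarith [sq_nonneg (|x| - s)]
  have h5 : s / 2 + |x| ^ 2 * (1 / (2 * s)) = (s ^ 2 + |x| ^ 2) / (2 * s) := by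
    field_simp
  rw [h5, le_div_iff₀ (by positivity)]
  exact h4

theorem close_calc (C N s w : ℝ) (hN : 0 < N) (hs : 0 < s) (hss : s ^ 2 = N) (hC : 0 ≤ C)
    (hw : w ≤ N / 4) : C / N * (1 * (s / 2) + w * (1 / (2 * s))) ≤ C / s := by
  have h1 : w * (1 / (2 * s)) ≤ s / 8 := by
    have : w * (1 / (2 * s)) ≤ (N / 4) * (1 / (2 * s)) :=
      mul_le_mul_of_nonneg_right hw (by positivity)
    have e : (N / 4) * (1 / (2 * s)) = s / 8 := by
      rw [← hss]; field_simp; norm_num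
    linarith
  have h2 : C / s = C / N * s := by
    rw [← hss]; field_simp
  rw [h2]
  exact mul_le_mul_of_nonneg_left (by linarith) (by positivity)

theorem prod_close (y : α → ℝ) (M : Finset α) (m : ℕ) (hM : 2 ≤ M.card) (hm : 4 * m ≤ M.card)
    (u : ℝ) :
    ‖phn y M m u‖ ≤ ‖∏ a ∈ M, ((1 - (m / M.card : ℝ) : ℝ) + ((m / M.card : ℝ) : ℂ) *
        Complex.exp (((u * y a : ℝ) : ℂ) * Complex.I))‖ +
      (8 + 2 * Bc u (PP y M 1) (PP y M 2)) / Real.sqrt M.card := by
  have hN : (2 : ℝ) ≤ M.card := by exact_mod_cast hM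
  have hN0 : (0 : ℝ) < M.card := by linarith
  have hm4 : (4 : ℝ) * m ≤ M.card := by exact_mod_cast hm
  have hQ : 0 ≤ PP y M 2 := Finset.sum_nonneg fun a _ => sq_nonneg _
  have hB := Bc_nonneg u (PP y M 1) (PP y M 2) hQ
  have hlip := phn_lip y M m hM hm u
  set B := Bc u (PP y M 1) (PP y M 2) with hBd
  have hs : 0 < Real.sqrt M.card := Real.sqrt_pos.2 hN0
  have hss : Real.sqrt M.card ^ 2 = M.card := Real.sq_sqrt hN0.le
  obtain ⟨κ, hκ⟩ : ∃ κ : ℝ, κ = (m / M.card : ℝ) := ⟨_, rfl⟩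
  obtain ⟨s, hsd⟩ : ∃ s : ℝ, s = Real.sqrt M.card := ⟨_, rfl⟩
  have hκ0 : 0 ≤ κ := by rw [hκ]; positivity
  have hκ1 : κ ≤ 1 := by rw [hκ, div_le_one hN0]; linarith
  have hκN : (M.card : ℝ) * κ = m := by rw [hκ]; field_simp
  rw [← hκ, mixture y M κ u]
  rw [← hsd] at hs hss ⊢
  have hsub : phn y M m u = (∑ j ∈ range (M.card + 1), ((bw M.card κ j : ℝ) : ℂ) * phn y M j u) -
      ∑ j ∈ range (M.card + 1), ((bw M.card κ j : ℝ) : ℂ) * (phn y M j u - phn y M m u) := by
    rw [← Finset.sum_sub_distrib]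
    have : ∀ j ∈ range (M.card + 1), ((bw M.card κ j : ℝ) : ℂ) * phn y M j u -
        ((bw M.card κ j : ℝ) : ℂ) * (phn y M j u - phn y M m u) =
        ((bw M.card κ j : ℝ) : ℂ) * phn y M m u := fun j _ => by ring
    rw [Finset.sum_congr rfl this, ← Finset.sum_mul, ← Complex.ofReal_sum, bw_sum]
    simp
  have hnorm : ‖∑ j ∈ range (M.card + 1), ((bw M.card κ j : ℝ) : ℂ) *
      (phn y M j u - phn y M m u)‖ ≤ (8 + 2 * B) / s := by
    refine (norm_sum_le _ _).trans ?_
    have hBN : 0 ≤ (8 + 2 * B) / (M.card : ℝ) := div_nonneg (by linarith) hN0.le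
    have ht : ∀ j ∈ range (M.card + 1), ‖((bw M.card κ j : ℝ) : ℂ) *
        (phn y M j u - phn y M m u)‖ ≤ (8 + 2 * B) / M.card *
          (bw M.card κ j * (s / 2) + bw M.card κ j * ((j : ℝ) - M.card * κ) ^ 2 *
            (1 / (2 * s))) := by
      intro j hj
      have hjN : j ≤ M.card := by have := Finset.mem_range.1 hj; omega
      have hb := bw_nonneg M.card κ hκ0 hκ1 j
      rw [norm_mul, Complex.norm_real, Real.norm_eq_abs, abs_of_nonneg hb]
      have h1 := hlip j hjN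
      have h2 := abs_le_s ((j : ℝ) - m) s hs
      rw [hκN]
      calc bw M.card κ j * ‖phn y M j u - phn y M m u‖ ≤
          bw M.card κ j * ((8 + 2 * B) / M.card * |(j : ℝ) - m|) := mul_le_mul_of_nonneg_left h1 hb
        _ ≤ bw M.card κ j * ((8 + 2 * B) / M.card * (s / 2 +
            ((j : ℝ) - m) ^ 2 * (1 / (2 * s)))) :=
            mul_le_mul_of_nonneg_left (mul_le_mul_of_nonneg_left h2 hBN) hb
        _ = _ := by ring
    refine (Finset.sum_le_sum ht).trans ?_
    rw [← Finset.mul_sum, Finset.sum_add_distrib, ← Finset.sum_mul, ← Finset.sum_mul, bw_sum, bw_var]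
    have hvar : (M.card : ℝ) * κ * (1 - κ) ≤ M.card / 4 := by
      nlinarith [sq_nonneg (κ - 1 / 2)]
    exact close_calc _ _ _ _ hN0 hs hss (by linarith) hvar
  calc ‖phn y M m u‖ = ‖(∑ j ∈ range (M.card + 1), ((bw M.card κ j : ℝ) : ℂ) * phn y M j u) -
      ∑ j ∈ range (M.card + 1), ((bw M.card κ j : ℝ) : ℂ) * (phn y M j u - phn y M m u)‖ := by
        rw [← hsub]
    _ ≤ _ := (norm_sub_le _ _).trans (add_le_add le_rfl hnorm)

/-- lower bound of the exponent -/
noncomputable def hh (q c : ℝ) : ℝ := q * c * (1 + q * c + 4 / 3 * (q * c) ^ 2)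

theorem one_sub_le_exp (t : ℝ) (h0 : 0 ≤ t) (h1 : t < 1) :
    1 - t ≤ Real.exp (-(t + t ^ 2 / 2 + t ^ 3 / 3)) := by
  have hs := Real.hasSum_pow_div_log_of_abs_lt_one (x := t) (by rw [abs_of_nonneg h0]; exact h1)
  have h3 := sum_le_hasSum (range 3) (fun i _ => by positivity) hs
  simp only [Finset.sum_range_succ, Finset.sum_range_zero] at h3
  norm_num at h3
  have h4 : t + t ^ 2 / 2 + t ^ 3 / 3 ≤ - Real.log (1 - t) := by linarith
  have h5 : Real.log (1 - t) ≤ -(t + t ^ 2 / 2 + t ^ 3 / 3) := by linarith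
  calc 1 - t = Real.exp (Real.log (1 - t)) := (Real.exp_log (by linarith)).symm
    _ ≤ _ := Real.exp_le_exp.2 h5

theorem factor_norm (κ θ : ℝ) (h0 : 0 ≤ κ) (h1 : κ ≤ 1 / 4) :
    ‖((1 - κ : ℝ) : ℂ) + (κ : ℂ) * Complex.exp (((θ : ℝ) : ℂ) * Complex.I)‖ ≤
      Real.exp (-(hh (κ * (1 - κ)) (1 - Real.cos θ))) := by
  have hc1 := Real.cos_le_one θ
  have hc2 := Real.neg_one_le_cos θ
  set q := κ * (1 - κ) with hq
  have hq0 : 0 ≤ q := mul_nonneg h0 (by linarith)
  have hq1 : q ≤ 3 / 16 := by rw [hq]; nlinarith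
  have hsq : ‖((1 - κ : ℝ) : ℂ) + (κ : ℂ) * Complex.exp (((θ : ℝ) : ℂ) * Complex.I)‖ ^ 2 =
      1 - 2 * q * (1 - Real.cos θ) := by
    rw [Complex.exp_mul_I, ← Complex.normSq_eq_norm_sq, Complex.normSq_apply]
    have hre : (((1 - κ : ℝ) : ℂ) + (κ : ℂ) * (Complex.cos θ + Complex.sin θ * Complex.I)).re =
        (1 - κ) + κ * Real.cos θ := by
      simp [← Complex.ofReal_cos, ← Complex.ofReal_sin]
    have him : (((1 - κ : ℝ) : ℂ) + (κ : ℂ) * (Complex.cos θ + Complex.sin θ * Complex.I)).im =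
        κ * Real.sin θ := by
      simp [← Complex.ofReal_cos, ← Complex.ofReal_sin]
    rw [hre, him, hq]
    have := Real.sin_sq_add_cos_sq θ
    nlinarith
  have hle := one_sub_le_exp (2 * q * (1 - Real.cos θ)) (by nlinarith [mul_nonneg hq0 (sub_nonneg.2 hc1)])
    (by nlinarith)
  rw [← hsq] at hle
  have he : Real.exp (-(hh q (1 - Real.cos θ))) ^ 2 =
      Real.exp (-(2 * q * (1 - Real.cos θ) + (2 * q * (1 - Real.cos θ)) ^ 2 / 2 +
        (2 * q * (1 - Real.cos θ)) ^ 3 / 3)) := by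
    rw [← Real.exp_nat_mul]
    congr 1
    unfold hh
    push_cast
    ring
  rw [← he] at hle
  exact le_of_sq_le_sq hle (Real.exp_pos _).le |>.trans le_rfl

end Pool.Agent.H49.MK
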