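import Mathlib
import Pool.Agent.H49.MK.CharB

/-!
Jensen bound for the characteristic function, and the lower bound for trigonometric averages.
-/

open Finset
open scoped BigOperators

namespace Pool.Agent.H49.MK

open Pool.Agent.H49.L

variable {α : Type} [DecidableEq α]

/-- effective exponent -/
noncomputable def ef (q u y : ℝ) : ℝ :=
  (1 - Real.cos (u * y)) * (1 + q * (1 - Real.cos (u * y)) +
    4 / 3 * (q * (1 - Real.cos (u * y))) ^ 2) / y ^ 2

theorem ef_nonneg (q u y : ℝ) (hq : 0 ≤ q) : 0 ≤ ef q u y := by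
  have := Real.cos_le_one (u * y)
  unfold ef
  have h : 0 ≤ 1 - Real.cos (u * y) := by linarith
  positivity

theorem ef_mono (q q' u y : ℝ) (hq : 0 ≤ q) (hqq : q ≤ q') : ef q u y ≤ ef q' u y := by
  have := Real.cos_le_one (u * y)
  unfold ef
  have h : 0 ≤ 1 - Real.cos (u * y) := by linarith
  refine div_le_div_of_nonneg_right (mul_le_mul_of_nonneg_left ?_ h) (sq_nonneg y)
  have h1 : q * (1 - Real.cos (u * y)) ≤ q' * (1 - Real.cos (u * y)) :=
    mul_le_mul_of_nonneg_right hqq h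
  have h2 : (q * (1 - Real.cos (u * y))) ^ 2 ≤ (q' * (1 - Real.cos (u * y))) ^ 2 :=
    pow_le_pow_left₀ (by positivity) h1 2
  linarith

omit [DecidableEq α] in
theorem prod_norm_le (y : α → ℝ) (M : Finset α) (κ u : ℝ) (h0 : 0 ≤ κ) (h1 : κ ≤ 1 / 4)
    (hQ : 0 < PP y M 2) :
    ‖∏ a ∈ M, (((1 - κ : ℝ) : ℂ) + (κ : ℂ) * Complex.exp (((u * y a : ℝ) : ℂ) * Complex.I))‖ ≤
      ∑ a ∈ M, (y a ^ 2 / PP y M 2) *
        Real.exp (-(κ * (1 - κ) * PP y M 2 * ef (κ * (1 - κ)) u (y a))) := by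
  rw [norm_prod]
  set Q := PP y M 2 with hQd
  set q := κ * (1 - κ) with hq
  have step1 : ∏ a ∈ M, ‖((1 - κ : ℝ) : ℂ) + (κ : ℂ) *
      Complex.exp (((u * y a : ℝ) : ℂ) * Complex.I)‖ ≤
      ∏ a ∈ M, Real.exp (-(hh q (1 - Real.cos (u * y a)))) :=
    Finset.prod_le_prod (fun a _ => norm_nonneg _) fun a _ => factor_norm κ (u * y a) h0 h1
  refine step1.trans ?_
  rw [← Real.exp_sum]
  have hterm : ∀ a ∈ M, -(hh q (1 - Real.cos (u * y a))) =
      (y a ^ 2 / Q) • (-(q * Q * ef q u (y a))) := by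
    intro a _
    rw [smul_eq_mul]
    by_cases hy : y a = 0
    · rw [hy]; unfold hh ef; simp
    · unfold hh ef
      field_simp
  rw [Finset.sum_congr rfl hterm]
  have hw : ∑ a ∈ M, y a ^ 2 / Q = 1 := by
    rw [← Finset.sum_div]
    exact div_self hQ.ne'
  have := convexOn_exp.map_sum_le (t := M) (w := fun a => y a ^ 2 / Q)
    (p := fun a => -(q * Q * ef q u (y a))) (fun a _ => by positivity) hw
    (fun a _ => Set.mem_univ _)
  simpa [smul_eq_mul] using this

/-- average over `m`-subsets -/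
noncomputable def AV (M : Finset α) (m : ℕ) (f : Finset α → ℝ) : ℝ :=
  (∑ K ∈ M.powersetCard m, f K) / (M.card.choose m : ℝ)

omit [DecidableEq α] in
theorem AV_add (M : Finset α) (m : ℕ) (f g : Finset α → ℝ) :
    AV M m (fun K => f K + g K) = AV M m f + AV M m g := by
  unfold AV; rw [Finset.sum_add_distrib, add_div]

omit [DecidableEq α] in
theorem AV_smul (M : Finset α) (m : ℕ) (c : ℝ) (f : Finset α → ℝ) :
    AV M m (fun K => c * f K) = c * AV M m f := by
  unfold AV; rw [← Finset.mul_sum, mul_div_assoc]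

omit [DecidableEq α] in
theorem AV_const (M : Finset α) (m : ℕ) (hm : m ≤ M.card) (c : ℝ) :
    AV M m (fun _ => c) = c := by
  have hC : (0 : ℝ) < (M.card.choose m : ℝ) := by exact_mod_cast Nat.choose_pos hm
  unfold AV
  rw [Finset.sum_const, Finset.card_powersetCard, nsmul_eq_mul, mul_comm, mul_div_assoc,
    div_self hC.ne', mul_one]

omit [DecidableEq α] in
theorem AV_mono (M : Finset α) (m : ℕ) (f g : Finset α → ℝ)
    (h : ∀ K ∈ M.powersetCard m, f K ≤ g K) : AV M m f ≤ AV M m g := by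
  unfold AV
  exact div_le_div_of_nonneg_right (Finset.sum_le_sum h) (by positivity)

omit [DecidableEq α] in
theorem AV_trig (y : α → ℝ) (M : Finset α) (m : ℕ) (u μ d e t : ℝ) (ht : 0 ≤ t)
    (hde : d ^ 2 + e ^ 2 ≤ t ^ 2) :
    -(t * ‖phn y M m u‖) ≤ AV M m (fun K => d * Real.cos (u * (∑ a ∈ K, y a - μ)) +
      e * Real.sin (u * (∑ a ∈ K, y a - μ))) := by
  set w : ℂ := (((d : ℝ) : ℂ) - ((e : ℝ) : ℂ) * Complex.I) *
    Complex.exp (((-(u * μ) : ℝ) : ℂ) * Complex.I) with hw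
  have hre : AV M m (fun K => d * Real.cos (u * (∑ a ∈ K, y a - μ)) +
      e * Real.sin (u * (∑ a ∈ K, y a - μ))) = (w * phn y M m u).re := by
    unfold AV phn ph
    rw [mul_div_assoc', Complex.div_ofReal_re, Finset.mul_sum, Complex.re_sum]
    congr 1
    refine Finset.sum_congr rfl fun K _ => ?_
    have : -(u * μ) + u * ∑ a ∈ K, y a = u * (∑ a ∈ K, y a - μ) := by ring
    rw [hw, mul_assoc, ← Complex.exp_add, ← add_mul, ← Complex.ofReal_add, this,
      Complex.exp_mul_I]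
    show d * Real.cos (u * (∑ a ∈ K, y a - μ)) + e * Real.sin (u * (∑ a ∈ K, y a - μ)) = _
    generalize u * (∑ a ∈ K, y a - μ) = θ
    rw [← Complex.ofReal_cos, ← Complex.ofReal_sin]
    generalize Real.cos θ = c
    generalize Real.sin θ = s
    simp
  rw [hre]
  have hwn : ‖w‖ ≤ t := by
    rw [hw, norm_mul, Complex.norm_exp_ofReal_mul_I, mul_one]
    have h2 : ‖((d : ℝ) : ℂ) - ((e : ℝ) : ℂ) * Complex.I‖ ^ 2 = d ^ 2 + e ^ 2 := by
      rw [← Complex.normSq_eq_norm_sq, Complex.normSq_apply]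
      simp
      ring
    exact abs_le_of_sq_le_sq' (by rw [h2]; exact hde) ht |>.2
  have h1 : |(w * phn y M m u).re| ≤ ‖w * phn y M m u‖ := Complex.abs_re_le_norm _
  rw [norm_mul] at h1
  have h2 := neg_abs_le (w * phn y M m u).re
  have h3 : ‖w‖ * ‖phn y M m u‖ ≤ t * ‖phn y M m u‖ :=
    mul_le_mul_of_nonneg_right hwn (norm_nonneg _)
  linarith

/-- final characteristic function bound -/
theorem phn_bound (y : α → ℝ) (M : Finset α) (m : ℕ) (hM : 2 ≤ M.card) (hm : 4 * m ≤ M.card)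
    (u : ℝ) (hQ : 0 < PP y M 2) (κ : ℝ) (hκ : κ = (m / M.card : ℝ)) :
    ‖phn y M m u‖ ≤ ∑ a ∈ M, (y a ^ 2 / PP y M 2) *
        Real.exp (-(κ * (1 - κ) * PP y M 2 * ef (κ * (1 - κ)) u (y a))) +
      (8 + 2 * Bc u (PP y M 1) (PP y M 2)) / Real.sqrt M.card := by
  have hN : (2 : ℝ) ≤ M.card := by exact_mod_cast hM
  have hm4 : (4 : ℝ) * m ≤ M.card := by exact_mod_cast hm
  have h := prod_close y M m hM hm u
  rw [← hκ] at h
  have hκ0 : 0 ≤ κ := by rw [hκ]; positivity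
  have hκ1 : κ ≤ 1 / 4 := by rw [hκ, div_le_iff₀ (by linarith)]; linarith
  exact h.trans (add_le_add (prod_norm_le y M κ u hκ0 hκ1 hQ) le_rfl)

end Pool.Agent.H49.MK
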