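import Mathlib
import Pool.Agent.H49.MK.CharC

/-!
Certificates for the distribution of a random subset sum: definitions and interface.
-/

open Finset
open scoped BigOperators

namespace Pool.Agent.H49.MK

/-- quartic plus trigonometric polynomial; `tr` is a list of `(u, d, e, t)`:
the term `d cos (u z) + e sin (u z)` with amplitude bound `t` -/
structure Cert where
  c0 : ℝ
  c1 : ℝ
  c2 : ℝ
  c3 : ℝ
  c4 : ℝ
  tr : List (ℝ × ℝ × ℝ × ℝ)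

/-- value of the certificate -/
noncomputable def Cert.eval (p : Cert) (z : ℝ) : ℝ :=
  p.c0 + p.c1 * z + p.c2 * z ^ 2 + p.c3 * z ^ 3 + p.c4 * z ^ 4 +
    (p.tr.map fun r => r.2.1 * Real.cos (r.1 * z) + r.2.2.1 * Real.sin (r.1 * z)).sum

/-- the local weight function; `κ` density, `v = κ (1 - κ) Q` the variance -/
noncomputable def Cert.W (p : Cert) (κ v y : ℝ) : ℝ :=
  p.c0 + p.c2 * v + p.c3 * ((1 - 2 * κ) * v * y) +
    p.c4 * (3 * v ^ 2 + (1 - 6 * (κ * (1 - κ))) * v * y ^ 2) -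
    (p.tr.map fun r => r.2.2.2 * Real.exp (-(v * ef (κ * (1 - κ)) r.1 y))).sum

/-- admissible certificates (uniform bounds on all the coefficients) -/
def Cert.ok (p : Cert) : Prop :=
  |p.c2| ≤ 10 ^ 6 ∧ |p.c3| ≤ 10 ^ 6 ∧ |p.c4| ≤ 10 ^ 6 ∧ p.tr.length ≤ 8 ∧
    ∀ r ∈ p.tr, |r.1| ≤ 100 ∧ 0 ≤ r.2.2.2 ∧ r.2.2.2 ≤ 10 ^ 6 ∧
      r.2.1 ^ 2 + r.2.2.1 ^ 2 ≤ r.2.2.2 ^ 2

/-- the payoff: `a` = maximum, `-b` = minimum, the rest has total `b - a`, random subset of density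
`κ`, `z` = centred sum, `z - κ (a - b)` = sum -/
noncomputable def payoff (a b κ ε z : ℝ) : ℝ :=
  (if ε < z - κ * (a - b) then 3 else 0) + (if b < z - κ * (a - b) then 1 else 0) -
    (if z - κ * (a - b) ≤ -a then 1 else 0) - (if z - κ * (a - b) ≤ b - a + ε then 1 / 3 else 0)

/-- existence of a certificate for the cell parameters -/
def CellOK (a b κ v : ℝ) : Prop :=
  ∃ p : Cert, p.ok ∧ (∀ z : ℝ, p.eval z ≤ payoff a b κ (1 / 10 ^ 5) z) ∧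
    ∀ y : ℝ, y ≠ 0 → -b ≤ y → y ≤ a → κ * (1 - κ) * y ^ 2 ≤ v → 1 / 10 ^ 5 ≤ p.W κ v y

/-- lower end of `Q` in region A (below it: double counting) -/
noncomputable def QA (b : ℝ) : ℝ :=
  if b ≤ 3 / 10 then 36 / 100 else if b ≤ 4 / 10 then 38 / 100 else if b ≤ 5 / 10 then 39 / 100
  else if b ≤ 55 / 100 then 375 / 1000 else if b ≤ 6 / 10 then 35 / 100
  else if b ≤ 7 / 10 then 32 / 100 else 28 / 100

/-- region A -/
def CellsA : Prop := ∀ κ b v : ℝ, 1999 / 10000 ≤ κ → κ ≤ 1 / 4 → 0 ≤ b → b ≤ 1 →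
  κ * (1 - κ) * QA b ≤ v → v ≤ 85 / 100 → CellOK 1 b κ v

/-- region B -/
def CellsB : Prop := ∀ κ a v : ℝ, 1999 / 10000 ≤ κ → κ ≤ 1 / 4 → 0 ≤ a → a ≤ 1 →
  4 / 100 ≤ v → v ≤ 85 / 100 → CellOK a 1 κ v

/-- region D -/
def CellD : Prop := ∀ κ : ℝ, 1999 / 10000 ≤ κ → κ ≤ 1 / 4 →
  ∃ p : Cert, p.ok ∧ (∀ z : ℝ, p.eval z ≤ if 0 < z then 1 else 0) ∧
    ∀ y : ℝ, y ≠ 0 → -1 ≤ y → y ≤ 1 → κ + 1 / 10 ^ 5 ≤ p.W κ 1 y

end Pool.Agent.H49.MK
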