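import Mathlib
import Pool.Agent.H49.MK.CharC

/-!
Asymptotic form of the first four moments of a random `m`-subset sum.
-/

open Finset
open scoped BigOperators

namespace Pool.Agent.H49.MK

open Pool.Agent.H49.L

variable {α : Type} [DecidableEq α]

theorem fa_close (N κ : ℝ) (hN : 8 ≤ N) (h0 : 0 ≤ κ) (h1 : κ ≤ 1) :
    |fa N (κ * N) - κ * (1 - κ)| ≤ 1 / N := by
  have hN1 : 0 < N - 1 := by linarith
  have hN0 : 0 < N := by linarith
  have hq0 : 0 ≤ κ * (1 - κ) := mul_nonneg h0 (by linarith)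
  have hq1 : κ * (1 - κ) ≤ 1 / 4 := by nlinarith [sq_nonneg (κ - 1 / 2)]
  have e : fa N (κ * N) - κ * (1 - κ) = κ * (1 - κ) / (N - 1) := by
    unfold fa; field_simp; ring
  rw [e, abs_of_nonneg (div_nonneg hq0 hN1.le), div_le_div_iff₀ hN1 hN0]
  nlinarith

theorem fc_close (N κ : ℝ) (hN : 8 ≤ N) (h0 : 0 ≤ κ) (h1 : κ ≤ 1 / 2) :
    |fc N (κ * N) - κ * (1 - κ) * (1 - 2 * κ)| ≤ 5 / N := by
  have hN1 : 0 < N - 1 := by linarith
  have hN2 : 0 < N - 2 := by linarith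
  have hN0 : 0 < N := by linarith
  have hq0 : 0 ≤ κ * (1 - κ) * (1 - 2 * κ) := mul_nonneg (mul_nonneg h0 (by linarith)) (by linarith)
  have hq1 : κ * (1 - κ) * (1 - 2 * κ) ≤ 1 := by
    have : κ * (1 - κ) ≤ 1 := by nlinarith [sq_nonneg (κ - 1 / 2)]
    have h2 : 0 ≤ κ * (1 - κ) := mul_nonneg h0 (by linarith)
    nlinarith
  have e : fc N (κ * N) - κ * (1 - κ) * (1 - 2 * κ) =
      κ * (1 - κ) * (1 - 2 * κ) * ((3 * N - 2) / ((N - 1) * (N - 2))) := by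
    unfold fc; field_simp; ring
  have h3 : (3 * N - 2) / ((N - 1) * (N - 2)) ≤ 5 / N := by
    rw [div_le_div_iff₀ (mul_pos hN1 hN2) hN0]; nlinarith
  have h4 : 0 ≤ (3 * N - 2) / ((N - 1) * (N - 2)) :=
    div_nonneg (by linarith) (mul_pos hN1 hN2).le
  rw [e, abs_of_nonneg (mul_nonneg hq0 h4)]
  calc _ ≤ 1 * ((3 * N - 2) / ((N - 1) * (N - 2))) := mul_le_mul_of_nonneg_right hq1 h4
    _ ≤ _ := by rw [one_mul]; exact h3

theorem fb_close (N κ : ℝ) (hN : 8 ≤ N) (h0 : 0 ≤ κ) (h1 : κ ≤ 1) :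
    |fb N (κ * N) - (κ * (1 - κ)) ^ 2| ≤ 2 / N := by
  have hN1 : 0 < N - 1 := by linarith
  have hN2 : 0 < N - 2 := by linarith
  have hN3 : 0 < N - 3 := by linarith
  have hN0 : 0 < N := by linarith
  have hq0 : 0 ≤ κ * (1 - κ) := mul_nonneg h0 (by linarith)
  have hq1 : κ * (1 - κ) ≤ 1 / 4 := by nlinarith [sq_nonneg (κ - 1 / 2)]
  have e : fb N (κ * N) - (κ * (1 - κ)) ^ 2 =
      κ * (1 - κ) * (κ * (1 - κ) * (6 * N ^ 2 - 11 * N + 6) - N * (N - 1)) /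
        ((N - 1) * (N - 2) * (N - 3)) := by
    unfold fb; field_simp; ring
  generalize κ * (1 - κ) = q at *
  have hD : 0 < (N - 1) * (N - 2) * (N - 3) := mul_pos (mul_pos hN1 hN2) hN3
  rw [e, abs_div, abs_of_pos hD, div_le_div_iff₀ hD hN0, abs_mul, abs_of_nonneg hq0]
  have hB : |q * (6 * N ^ 2 - 11 * N + 6) - N * (N - 1)| ≤ 3 * N ^ 2 := by
    have hpos : 0 ≤ 6 * N ^ 2 - 11 * N + 6 := by nlinarith
    rw [abs_le]
    constructor
    · nlinarith [mul_nonneg hq0 hpos]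
    · nlinarith [mul_le_mul_of_nonneg_right hq1 hpos]
  have h3 : q * |q * (6 * N ^ 2 - 11 * N + 6) - N * (N - 1)| ≤ 1 / 4 * (3 * N ^ 2) :=
    mul_le_mul hq1 hB (abs_nonneg _) (by norm_num)
  have h4 : 1 / 4 * (3 * N ^ 2) * N ≤ 2 * ((N - 1) * (N - 2) * (N - 3)) := by
    nlinarith [mul_nonneg (sub_nonneg.2 hN) (sub_nonneg.2 hN), mul_nonneg (mul_nonneg (sub_nonneg.2 hN) (sub_nonneg.2 hN)) hN0.le]
  nlinarith

omit [DecidableEq α] in
/-- power sums of the centred entries -/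
theorem PP_cent (y : α → ℝ) (M : Finset α) (N c : ℝ) (hN : (M.card : ℝ) = N)
    (hc : N * c = PP y M 1) :
    PP (fun a => y a - c) M 1 = 0 ∧
    PP (fun a => y a - c) M 2 = PP y M 2 - N * c ^ 2 ∧
    PP (fun a => y a - c) M 3 = PP y M 3 - 3 * c * PP y M 2 + 2 * N * c ^ 3 ∧
    PP (fun a => y a - c) M 4 = PP y M 4 - 4 * c * PP y M 3 + 6 * c ^ 2 * PP y M 2 -
      3 * N * c ^ 4 := by
  have hconst : ∀ x : ℝ, ∑ _a ∈ M, x = N * x := by
    intro x; rw [Finset.sum_const, nsmul_eq_mul, hN]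
  refine ⟨?_, ?_, ?_, ?_⟩
  · have : PP (fun a => y a - c) M 1 = PP y M 1 - N * c := by
      unfold PP
      rw [← hconst c, ← Finset.sum_sub_distrib]
      exact Finset.sum_congr rfl fun a _ => by ring
    rw [this, hc]; ring
  · have : PP (fun a => y a - c) M 2 = PP y M 2 - 2 * c * PP y M 1 + N * c ^ 2 := by
      unfold PP
      rw [← hconst (c ^ 2), Finset.mul_sum, ← Finset.sum_sub_distrib, ← Finset.sum_add_distrib]
      exact Finset.sum_congr rfl fun a _ => by ring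
    rw [this, ← hc]; ring
  · have : PP (fun a => y a - c) M 3 = PP y M 3 - 3 * c * PP y M 2 + 3 * c ^ 2 * PP y M 1 -
        N * c ^ 3 := by
      unfold PP
      rw [← hconst (c ^ 3), Finset.mul_sum, Finset.mul_sum, ← Finset.sum_sub_distrib,
        ← Finset.sum_add_distrib, ← Finset.sum_sub_distrib]
      exact Finset.sum_congr rfl fun a _ => by ring
    rw [this, ← hc]; ring
  · have : PP (fun a => y a - c) M 4 = PP y M 4 - 4 * c * PP y M 3 + 6 * c ^ 2 * PP y M 2 -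
        4 * c ^ 3 * PP y M 1 + N * c ^ 4 := by
      unfold PP
      rw [← hconst (c ^ 4), Finset.mul_sum, Finset.mul_sum, Finset.mul_sum,
        ← Finset.sum_sub_distrib, ← Finset.sum_add_distrib, ← Finset.sum_sub_distrib,
        ← Finset.sum_add_distrib]
      exact Finset.sum_congr rfl fun a _ => by ring
    rw [this, ← hc]; ring

omit [DecidableEq α] in
theorem AV_pow (y : α → ℝ) (M : Finset α) (m i : ℕ) (c : ℝ) :
    AV M m (fun K => (∑ a ∈ K, y a - m * c) ^ i) =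
      FF (fun a => y a - c) M m i / (M.card.choose m : ℝ) := by
  unfold AV FF
  congr 1
  refine Finset.sum_congr rfl fun K hK => ?_
  rw [Finset.sum_sub_distrib, Finset.sum_const, (Finset.mem_powersetCard.1 hK).2, nsmul_eq_mul]

omit [DecidableEq α] in
/-- bounds for higher power sums -/
theorem PP_bd (y : α → ℝ) (M : Finset α) (hy : ∀ a ∈ M, |y a| ≤ 1) :
    |PP y M 3| ≤ PP y M 2 ∧ 0 ≤ PP y M 4 ∧ PP y M 4 ≤ PP y M 2 ∧ 0 ≤ PP y M 2 := by
  refine ⟨?_, ?_, ?_, ?_⟩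
  · unfold PP
    refine (Finset.abs_sum_le_sum_abs _ _).trans (Finset.sum_le_sum fun a ha => ?_)
    have h1 := hy a ha
    have e : |y a ^ 3| = |y a| * y a ^ 2 := by
      rw [pow_succ' (y a) 2, abs_mul, abs_of_nonneg (sq_nonneg (y a))]
    rw [e]
    nlinarith [sq_nonneg (y a)]
  · exact Finset.sum_nonneg fun a _ => by positivity
  · unfold PP
    refine Finset.sum_le_sum fun a ha => ?_
    have h1 := hy a ha
    have h2 : y a ^ 2 ≤ 1 := by
      rw [← sq_abs]; nlinarith [abs_nonneg (y a)]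
    nlinarith [sq_nonneg (y a)]
  · exact Finset.sum_nonneg fun a _ => sq_nonneg _

theorem mul_close (a a' b b' ea eb A B : ℝ) (h1 : |a - a'| ≤ ea) (h2 : |b - b'| ≤ eb)
    (hA : |a'| ≤ A) (hB : |b| ≤ B) : |a * b - a' * b'| ≤ ea * B + A * eb := by
  have e : a * b - a' * b' = (a - a') * b + a' * (b - b') := by ring
  have hea : 0 ≤ ea := (abs_nonneg _).trans h1
  have hA0 : 0 ≤ A := (abs_nonneg _).trans hA
  rw [e]
  refine (abs_add_le _ _).trans (add_le_add ?_ ?_)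
  · rw [abs_mul]; exact mul_le_mul h1 hB (abs_nonneg _) hea
  · rw [abs_mul]; exact mul_le_mul hA h2 (abs_nonneg _) hA0

theorem q_bds (q : ℝ) (h0 : 0 ≤ q) (h1 : q ≤ 1 / 4) : |q * (1 - 6 * q)| ≤ 1 ∧ |3 * q ^ 2| ≤ 1 := by
  constructor
  · rw [abs_le]; constructor <;> nlinarith
  · rw [abs_of_nonneg (by positivity)]; nlinarith

theorem s_bds (κ : ℝ) (h0 : 0 ≤ κ) (h1 : κ ≤ 1 / 4) :
    0 ≤ κ * (1 - κ) * (1 - 2 * κ) ∧ κ * (1 - κ) * (1 - 2 * κ) ≤ 1 / 4 := by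
  have hq0 : 0 ≤ κ * (1 - κ) := mul_nonneg h0 (by linarith)
  have hq1 : κ * (1 - κ) ≤ 1 / 4 := by nlinarith [sq_nonneg (κ - 1 / 2)]
  constructor
  · exact mul_nonneg hq0 (by linarith)
  · nlinarith

theorem moments_close (y : α → ℝ) (M : Finset α) (m : ℕ) (hM : 8 ≤ M.card) (hm : 4 * m ≤ M.card)
    (hy : ∀ a ∈ M, |y a| ≤ 1) (hT : |PP y M 1| ≤ 2) (hQ : PP y M 2 ≤ 7) (κ : ℝ)
    (hκ : κ = (m / M.card : ℝ)) :
    AV M m (fun K => (∑ a ∈ K, y a - κ * PP y M 1)) = 0 ∧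
    |AV M m (fun K => (∑ a ∈ K, y a - κ * PP y M 1) ^ 2) - κ * (1 - κ) * PP y M 2| ≤
      (1000 : ℝ) / M.card ∧
    |AV M m (fun K => (∑ a ∈ K, y a - κ * PP y M 1) ^ 3) -
      κ * (1 - κ) * (1 - 2 * κ) * PP y M 3| ≤ (1000 : ℝ) / M.card ∧
    |AV M m (fun K => (∑ a ∈ K, y a - κ * PP y M 1) ^ 4) -
      (κ * (1 - κ) * (1 - 6 * (κ * (1 - κ))) * PP y M 4 +
        3 * (κ * (1 - κ)) ^ 2 * PP y M 2 ^ 2)| ≤ (1000 : ℝ) / M.card := by
  have hNN : (8 : ℝ) ≤ M.card := by exact_mod_cast hM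
  have hmR : (4 : ℝ) * m ≤ M.card := by exact_mod_cast hm
  obtain ⟨N, hN⟩ : ∃ N : ℝ, (M.card : ℝ) = N := ⟨_, rfl⟩
  have hC : (0 : ℝ) < (M.card.choose m : ℝ) := by exact_mod_cast Nat.choose_pos (by omega)
  have hN0 : 0 < N := by rw [← hN]; linarith
  have hκ0 : 0 ≤ κ := by rw [hκ]; positivity
  have hκ1 : κ ≤ 1 / 4 := by rw [hκ, div_le_iff₀ (by linarith)]; linarith
  have hmκ : (m : ℝ) = κ * N := by rw [hκ, hN]; field_simp
  obtain ⟨c, hc⟩ : ∃ c : ℝ, N * c = PP y M 1 := ⟨PP y M 1 / N, by field_simp⟩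
  have hμ : ∀ K : Finset α, ∑ a ∈ K, y a - κ * PP y M 1 = ∑ a ∈ K, y a - m * c := by
    intro K; rw [← hc, hmκ]; ring
  obtain ⟨p1, p2, p3, p4⟩ := PP_cent y M N c hN hc
  obtain ⟨b3, b4, b4', b2⟩ := PP_bd y M hy
  have hav : ∀ i : ℕ, AV M m (fun K => (∑ a ∈ K, y a - κ * PP y M 1) ^ i) =
      FF (fun a => y a - c) M m i / (M.card.choose m : ℝ) := by
    intro i
    rw [← AV_pow y M m i c]
    unfold AV
    congr 1
    exact Finset.sum_congr rfl fun K _ => by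
      show (∑ a ∈ K, y a - κ * PP y M 1) ^ i = (∑ a ∈ K, y a - m * c) ^ i
      rw [hμ K]
  have m1 := M1 (fun a => y a - c) M m p1
  have m2 := M2 (fun a => y a - c) M m (by omega) p1
  have m3 := M3 (fun a => y a - c) M m (by omega) p1
  have m4 := M4 (fun a => y a - c) M m (by omega) p1
  have a1 : AV M m (fun K => (∑ a ∈ K, y a - κ * PP y M 1)) = 0 := by
    have := hav 1
    simp only [pow_one] at this
    rw [this, m1, zero_div]
  have a2 := hav 2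
  have a3 := hav 3
  have a4 := hav 4
  rw [m2, mul_comm ((M.card.choose m : ℝ)), mul_div_assoc, div_self hC.ne', mul_one] at a2
  rw [m3, mul_comm ((M.card.choose m : ℝ)), mul_div_assoc, div_self hC.ne', mul_one] at a3
  rw [m4, mul_comm ((M.card.choose m : ℝ)), mul_div_assoc, div_self hC.ne', mul_one] at a4
  rw [p2] at a2 a4
  rw [p3] at a3
  rw [p4] at a4
  rw [hN] at hNN ⊢
  rw [hN, hmκ] at a2 a3 a4
  have hc1 : |c| ≤ 2 / N := by
    have : c = PP y M 1 / N := by rw [← hc]; field_simp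
    rw [this, abs_div, abs_of_pos hN0]
    exact div_le_div_of_nonneg_right hT hN0.le
  have fa1 := fa_close N κ hNN hκ0 (by linarith)
  have fb1 := fb_close N κ hNN hκ0 (by linarith)
  have fc1 := fc_close N κ hNN hκ0 (by linarith)
  generalize fa N (κ * N) = A at *
  generalize fb N (κ * N) = B at *
  generalize fc N (κ * N) = Cc at *
  generalize PP y M 2 = Q at *
  generalize PP y M 3 = C3 at *
  generalize PP y M 4 = F at *
  have hq0 : 0 ≤ κ * (1 - κ) := mul_nonneg hκ0 (by linarith)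
  have hq1 : κ * (1 - κ) ≤ 1 / 4 := by nlinarith [sq_nonneg (κ - 1 / 2)]
  have hs := s_bds κ hκ0 hκ1
  generalize κ * (1 - κ) * (1 - 2 * κ) = s at *
  generalize κ * (1 - κ) = q at *
  -- small quantities
  obtain ⟨δ, hδ⟩ : ∃ δ : ℝ, δ = 1 / N := ⟨_, rfl⟩
  have hδ0 : 0 < δ := by rw [hδ]; positivity
  have hδ8 : δ ≤ 1 / 8 := by
    rw [hδ]; exact div_le_div_of_nonneg_left (by norm_num) (by norm_num) hNN
  have hNδ : N * δ = 1 := by rw [hδ]; field_simp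
  have e1 : (1000 : ℝ) / N = 1000 * δ := by rw [hδ]; ring
  have e2 : (2 : ℝ) / N = 2 * δ := by rw [hδ]; ring
  have e5 : (5 : ℝ) / N = 5 * δ := by rw [hδ]; ring
  rw [e2] at hc1 fb1
  rw [e5] at fc1
  rw [← hδ] at fa1
  rw [e1]
  have hc2 : c ^ 2 ≤ 4 * δ ^ 2 := by
    rw [← sq_abs]
    calc |c| ^ 2 ≤ (2 * δ) ^ 2 := pow_le_pow_left₀ (abs_nonneg c) hc1 2
      _ = 4 * δ ^ 2 := by ring
  have hNc2 : N * c ^ 2 ≤ 4 * δ := by
    calc N * c ^ 2 ≤ N * (4 * δ ^ 2) := mul_le_mul_of_nonneg_left hc2 hN0.le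
      _ = 4 * δ * (N * δ) := by ring
      _ = 4 * δ := by rw [hNδ, mul_one]
  have hNc0 : 0 ≤ N * c ^ 2 := by positivity
  obtain ⟨w, hw⟩ : ∃ w : ℝ, w = N * c ^ 2 := ⟨_, rfl⟩
  have hw1 : 0 ≤ w := by rw [hw]; exact hNc0
  have hw2 : w ≤ 1 / 2 := by rw [hw]; linarith
  have hw3 : N * c ^ 3 = w * c := by rw [hw]; ring
  have hw4 : N * c ^ 4 = w * c ^ 2 := by rw [hw]; ring
  have q3 : |(C3 - 3 * c * Q + 2 * N * c ^ 3) - C3| ≤ 44 * δ := by
    have e : (C3 - 3 * c * Q + 2 * N * c ^ 3) - C3 = c * (2 * w - 3 * Q) := by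
      rw [mul_assoc 2 N, hw3]; ring
    rw [e, abs_mul]
    have : |2 * w - 3 * Q| ≤ 22 := by
      rw [abs_le]; constructor <;> linarith
    calc |c| * |2 * w - 3 * Q| ≤ 2 * δ * 22 := mul_le_mul hc1 this (abs_nonneg _) (by positivity)
      _ = 44 * δ := by ring
  have q4 : |(F - 4 * c * C3 + 6 * c ^ 2 * Q - 3 * N * c ^ 4) - F| ≤ 80 * δ := by
    have e : (F - 4 * c * C3 + 6 * c ^ 2 * Q - 3 * N * c ^ 4) - F =
        - (4 * c * C3) + c ^ 2 * (6 * Q - 3 * w) := by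
      rw [mul_assoc 3 N, hw4]; ring
    rw [e]
    have h1 : |-(4 * c * C3)| ≤ 56 * δ := by
      rw [abs_neg, abs_mul, abs_mul, abs_of_nonneg (show (0 : ℝ) ≤ 4 by norm_num)]
      have : |C3| ≤ 7 := by linarith
      have := mul_le_mul hc1 this (abs_nonneg _) (by positivity)
      linarith
    have h2 : |c ^ 2 * (6 * Q - 3 * w)| ≤ 24 * δ := by
      rw [abs_mul, abs_of_nonneg (sq_nonneg c)]
      have : |6 * Q - 3 * w| ≤ 44 := by
        rw [abs_le]; constructor <;> linarith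
      have h3 := mul_le_mul hc2 this (abs_nonneg _) (by positivity)
      have h4 : 4 * δ ^ 2 * 44 ≤ 24 * δ := by
        have : δ ^ 2 ≤ 1 / 8 * δ := by
          rw [pow_two]; exact mul_le_mul_of_nonneg_right hδ8 hδ0.le
        linarith
      linarith
    exact (abs_add_le _ _).trans (by linarith)
  have q2 : |(Q - N * c ^ 2) - Q| ≤ 4 * δ := by
    rw [abs_le]; constructor <;> linarith
  refine ⟨a1, ?_, ?_, ?_⟩
  · rw [a2]
    have h := mul_close A q (Q - N * c ^ 2) Q δ (4 * δ) (1 / 4) 7 fa1 q2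
      (by rw [abs_of_nonneg hq0]; exact hq1)
      (by rw [abs_le]; constructor <;> linarith)
    linarith
  · rw [a3]
    have h := mul_close Cc s (C3 - 3 * c * Q + 2 * N * c ^ 3) C3 (5 * δ) (44 * δ) (1 / 4) 13 fc1 q3
      (by rw [abs_of_nonneg hs.1]; exact hs.2)
      (by
        have h1 : |C3| ≤ 7 := by linarith
        have h2 := abs_sub_abs_le_abs_sub (C3 - 3 * c * Q + 2 * N * c ^ 3) C3
        linarith)
    linarith
  · rw [a4]
    have hF : |F| ≤ 7 := by rw [abs_of_nonneg b4]; linarith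
    have h6 : |(A - 6 * B) - q * (1 - 6 * q)| ≤ 13 * δ := by
      have e : (A - 6 * B) - q * (1 - 6 * q) = (A - q) - 6 * (B - q ^ 2) := by ring
      rw [e]
      refine (abs_sub _ _).trans ?_
      rw [abs_mul, abs_of_nonneg (show (0 : ℝ) ≤ 6 by norm_num)]
      linarith
    have hq6 : |q * (1 - 6 * q)| ≤ 1 := (q_bds q hq0 hq1).1
    have g1 := mul_close (A - 6 * B) (q * (1 - 6 * q)) (F - 4 * c * C3 + 6 * c ^ 2 * Q -
      3 * N * c ^ 4) F (13 * δ) (80 * δ) 1 17 h6 q4 hq6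
      (by
        have h2 := abs_sub_abs_le_abs_sub (F - 4 * c * C3 + 6 * c ^ 2 * Q - 3 * N * c ^ 4) F
        linarith)
    have hsq : |(Q - N * c ^ 2) ^ 2 - Q ^ 2| ≤ 56 * δ := by
      have e : (Q - N * c ^ 2) ^ 2 - Q ^ 2 = ((Q - N * c ^ 2) - Q) * ((Q - N * c ^ 2) + Q) := by ring
      rw [e, abs_mul]
      have : |(Q - N * c ^ 2) + Q| ≤ 14 := by
        rw [abs_le]; constructor <;> linarith
      have := mul_le_mul q2 this (abs_nonneg _) (by positivity)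
      linarith
    have hqq : |3 * q ^ 2| ≤ 1 := (q_bds q hq0 hq1).2
    have h3B : |3 * B - 3 * q ^ 2| ≤ 6 * δ := by
      rw [← mul_sub, abs_mul, abs_of_nonneg (show (0 : ℝ) ≤ 3 by norm_num)]; linarith
    have g2 := mul_close (3 * B) (3 * q ^ 2) ((Q - N * c ^ 2) ^ 2) (Q ^ 2) (6 * δ) (56 * δ) 1 49
      h3B hsq hqq (by
        rw [abs_of_nonneg (sq_nonneg _)]
        have h7 : -7 ≤ Q - N * c ^ 2 := by linarith
        have h8 : Q - N * c ^ 2 ≤ 7 := by linarith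
        have h9 := sq_le_sq' h7 h8
        linarith)
    have e : (A - 6 * B) * (F - 4 * c * C3 + 6 * c ^ 2 * Q - 3 * N * c ^ 4) +
        3 * B * (Q - N * c ^ 2) ^ 2 - (q * (1 - 6 * q) * F + 3 * q ^ 2 * Q ^ 2) =
        ((A - 6 * B) * (F - 4 * c * C3 + 6 * c ^ 2 * Q - 3 * N * c ^ 4) - q * (1 - 6 * q) * F) +
        (3 * B * (Q - N * c ^ 2) ^ 2 - 3 * q ^ 2 * Q ^ 2) := by ring
    rw [e]
    refine (abs_add_le _ _).trans ?_
    linarith

end Pool.Agent.H49.MK
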