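import Mathlib
import Pool.Agent.H49.MK.Defs
import Pool.Agent.H49.MK.MomB

/-!
Soundness: the average of a certificate over random `m`-subsets is at least the minimum of its
local weight function, up to `10^13 / sqrt N`.
-/

open Finset
open scoped BigOperators

namespace Pool.Agent.H49.MK

open Pool.Agent.H49.L

variable {α : Type} [DecidableEq α]

theorem Bc_le (u T Q : ℝ) (hu : |u| ≤ 100) (hT : |T| ≤ 2) (hQ0 : 0 ≤ Q) (hQ : Q ≤ 7) :
    8 + 2 * Bc u T Q ≤ 10 ^ 6 := by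
  unfold Bc
  have h1 : T ^ 2 ≤ 4 := by
    rw [← sq_abs]
    calc |T| ^ 2 ≤ 2 ^ 2 := pow_le_pow_left₀ (abs_nonneg _) hT 2
      _ = 4 := by norm_num
  have h2 : u ^ 2 ≤ 10000 := by
    rw [← sq_abs]
    calc |u| ^ 2 ≤ 100 ^ 2 := pow_le_pow_left₀ (abs_nonneg _) hu 2
      _ = 10000 := by norm_num
  have h3 : |u| * (1 / 2 + T ^ 2 + Q) ≤ 100 * (12) :=
    mul_le_mul hu (by linarith) (by positivity) (by norm_num)
  have h4 : u ^ 2 * Q ≤ 10000 * 7 := mul_le_mul h2 hQ hQ0 (by norm_num)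
  nlinarith

theorem tr_avg (y : α → ℝ) (M : Finset α) (m : ℕ) (hM : 8 ≤ M.card) (hm : 4 * m ≤ M.card)
    (hT : |PP y M 1| ≤ 2) (hQ : PP y M 2 ≤ 7) (hQ0 : 0 < PP y M 2) (κ v : ℝ)
    (hκ : κ = (m / M.card : ℝ)) (hv : v = κ * (1 - κ) * PP y M 2)
    (l : List (ℝ × ℝ × ℝ × ℝ))
    (hl : ∀ r ∈ l, |r.1| ≤ 100 ∧ 0 ≤ r.2.2.2 ∧ r.2.2.2 ≤ 10 ^ 6 ∧
      r.2.1 ^ 2 + r.2.2.1 ^ 2 ≤ r.2.2.2 ^ 2) :
    -(∑ a ∈ M, (y a ^ 2 / PP y M 2) *
        (l.map fun r => r.2.2.2 * Real.exp (-(v * ef (κ * (1 - κ)) r.1 (y a)))).sum) -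
      l.length * (10 ^ 12 / Real.sqrt M.card) ≤
    AV M m (fun K => (l.map fun r => r.2.1 * Real.cos (r.1 * (∑ a ∈ K, y a - κ * PP y M 1)) +
      r.2.2.1 * Real.sin (r.1 * (∑ a ∈ K, y a - κ * PP y M 1))).sum) := by
  have hNN : (8 : ℝ) ≤ M.card := by exact_mod_cast hM
  induction l with
  | nil =>
    simp only [List.map_nil, List.sum_nil, mul_zero, Finset.sum_const_zero, neg_zero,
      List.length_nil, Nat.cast_zero, zero_mul, sub_zero]
    rw [AV_const M m (by omega)]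
  | cons r l ih =>
    have ih' := ih fun s hs => hl s (List.mem_cons_of_mem _ hs)
    obtain ⟨hu, ht0, ht1, hde⟩ := hl r List.mem_cons_self
    simp only [List.map_cons, List.sum_cons, List.length_cons, mul_add, Finset.sum_add_distrib]
    rw [AV_add]
    have h1 := AV_trig y M m r.1 (κ * PP y M 1) r.2.1 r.2.2.1 r.2.2.2 ht0 hde
    have h2 := phn_bound y M m (by omega) hm r.1 hQ0 κ hκ
    have h3 : r.2.2.2 * ‖phn y M m r.1‖ ≤ r.2.2.2 * ∑ a ∈ M, (y a ^ 2 / PP y M 2) *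
        Real.exp (-(κ * (1 - κ) * PP y M 2 * ef (κ * (1 - κ)) r.1 (y a))) +
        10 ^ 12 / Real.sqrt M.card := by
      refine (mul_le_mul_of_nonneg_left h2 ht0).trans ?_
      rw [mul_add]
      refine add_le_add le_rfl ?_
      have hs : 0 < Real.sqrt M.card := Real.sqrt_pos.2 (by linarith)
      have hB := Bc_le r.1 (PP y M 1) (PP y M 2) hu hT hQ0.le hQ
      have hB0 := Bc_nonneg r.1 (PP y M 1) (PP y M 2) hQ0.le
      rw [mul_div_assoc', div_le_div_iff_of_pos_right hs]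
      calc r.2.2.2 * (8 + 2 * Bc r.1 (PP y M 1) (PP y M 2)) ≤ 10 ^ 6 * 10 ^ 6 :=
            mul_le_mul ht1 hB (by linarith) (by norm_num)
        _ = 10 ^ 12 := by norm_num
    rw [Finset.mul_sum] at h3
    have h4 : ∑ a ∈ M, r.2.2.2 * ((y a ^ 2 / PP y M 2) *
        Real.exp (-(κ * (1 - κ) * PP y M 2 * ef (κ * (1 - κ)) r.1 (y a)))) =
        ∑ a ∈ M, y a ^ 2 / PP y M 2 * (r.2.2.2 *
        Real.exp (-(v * ef (κ * (1 - κ)) r.1 (y a)))) := by
      refine Finset.sum_congr rfl fun a _ => ?_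
      rw [← hv]; ring
    rw [h4] at h3
    push_cast
    linarith

theorem cert_avg (p : Cert) (hp : p.ok) (y : α → ℝ) (M : Finset α) (m : ℕ) (hM : 8 ≤ M.card)
    (hm : 4 * m ≤ M.card) (hy : ∀ a ∈ M, |y a| ≤ 1) (hT : |PP y M 1| ≤ 2) (hQ : PP y M 2 ≤ 7)
    (hQ0 : 0 < PP y M 2) (κ v : ℝ) (hκ : κ = (m / M.card : ℝ))
    (hv : v = κ * (1 - κ) * PP y M 2) (w0 : ℝ)
    (hW : ∀ a ∈ M, y a ≠ 0 → w0 ≤ p.W κ v (y a)) :
    w0 - 10 ^ 13 / Real.sqrt M.card ≤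
      AV M m (fun K => p.eval (∑ a ∈ K, y a - κ * PP y M 1)) := by
  have hNN : (8 : ℝ) ≤ M.card := by exact_mod_cast hM
  obtain ⟨o2, o3, o4, ol, otr⟩ := hp
  obtain ⟨a1, a2, a3, a4⟩ := moments_close y M m hM hm hy hT hQ κ hκ
  have atr := tr_avg y M m hM hm hT hQ hQ0 κ v hκ hv p.tr otr
  have hs : 0 < Real.sqrt M.card := Real.sqrt_pos.2 (by linarith)
  have hN0 : (0 : ℝ) < M.card := by linarith
  have hs1 : (1000 : ℝ) / M.card ≤ 1000 / Real.sqrt M.card := by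
    refine div_le_div_of_nonneg_left (by norm_num) hs ?_
    rw [Real.sqrt_le_left (by linarith)]
    nlinarith
  -- split the average
  have hsplit : AV M m (fun K => p.eval (∑ a ∈ K, y a - κ * PP y M 1)) =
      p.c0 + p.c1 * AV M m (fun K => (∑ a ∈ K, y a - κ * PP y M 1)) +
      p.c2 * AV M m (fun K => (∑ a ∈ K, y a - κ * PP y M 1) ^ 2) +
      p.c3 * AV M m (fun K => (∑ a ∈ K, y a - κ * PP y M 1) ^ 3) +
      p.c4 * AV M m (fun K => (∑ a ∈ K, y a - κ * PP y M 1) ^ 4) +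
      AV M m (fun K => (p.tr.map fun r => r.2.1 * Real.cos (r.1 * (∑ a ∈ K, y a - κ * PP y M 1)) +
        r.2.2.1 * Real.sin (r.1 * (∑ a ∈ K, y a - κ * PP y M 1))).sum) := by
    rw [← AV_smul, ← AV_smul, ← AV_smul, ← AV_smul, ← AV_const M m (by omega) p.c0,
      ← AV_add, ← AV_add, ← AV_add, ← AV_add, ← AV_add]
    rfl
  -- the weighted sum of W
  have hν : ∑ a ∈ M, y a ^ 2 / PP y M 2 = 1 := by
    rw [← Finset.sum_div]; exact div_self hQ0.ne'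
  have hWsum : w0 ≤ ∑ a ∈ M, y a ^ 2 / PP y M 2 * p.W κ v (y a) := by
    calc w0 = ∑ a ∈ M, y a ^ 2 / PP y M 2 * w0 := by rw [← Finset.sum_mul, hν, one_mul]
      _ ≤ _ := by
        refine Finset.sum_le_sum fun a ha => ?_
        by_cases h0 : y a = 0
        · rw [h0]; simp
        · exact mul_le_mul_of_nonneg_left (hW a ha h0) (by positivity)
  have hWexp : ∑ a ∈ M, y a ^ 2 / PP y M 2 * p.W κ v (y a) =
      p.c0 + p.c2 * (κ * (1 - κ) * PP y M 2) + p.c3 * (κ * (1 - κ) * (1 - 2 * κ) * PP y M 3) +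
      p.c4 * (κ * (1 - κ) * (1 - 6 * (κ * (1 - κ))) * PP y M 4 +
        3 * (κ * (1 - κ)) ^ 2 * PP y M 2 ^ 2) -
      ∑ a ∈ M, (y a ^ 2 / PP y M 2) *
        (p.tr.map fun r => r.2.2.2 * Real.exp (-(v * ef (κ * (1 - κ)) r.1 (y a)))).sum := by
    have e1 : ∀ a ∈ M, y a ^ 2 / PP y M 2 * p.W κ v (y a) =
        (p.c0 + p.c2 * v + p.c4 * (3 * v ^ 2)) * (y a ^ 2 / PP y M 2) +
        (p.c3 * (1 - 2 * κ) * (κ * (1 - κ))) * y a ^ 3 +
        (p.c4 * (1 - 6 * (κ * (1 - κ))) * (κ * (1 - κ))) * y a ^ 4 -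
        (y a ^ 2 / PP y M 2) *
        (p.tr.map fun r => r.2.2.2 * Real.exp (-(v * ef (κ * (1 - κ)) r.1 (y a)))).sum := by
      intro a _
      unfold Cert.W
      have hQne : PP y M 2 ≠ 0 := hQ0.ne'
      rw [hv]
      field_simp
      ring
    rw [Finset.sum_congr rfl e1, Finset.sum_sub_distrib, Finset.sum_add_distrib,
      Finset.sum_add_distrib, ← Finset.mul_sum, ← Finset.mul_sum, ← Finset.mul_sum, hν]
    have e3 : ∑ a ∈ M, y a ^ 3 = PP y M 3 := rfl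
    have e4 : ∑ a ∈ M, y a ^ 4 = PP y M 4 := rfl
    rw [e3, e4, hv]
    ring
  -- errors
  have hb : ∀ c A B : ℝ, |c| ≤ 10 ^ 6 → |A - B| ≤ (1000 : ℝ) / M.card →
      c * B - 10 ^ 9 / Real.sqrt M.card ≤ c * A := by
    intro c A B hc hAB
    have h1 : |c * (A - B)| ≤ 10 ^ 6 * (1000 / Real.sqrt M.card) := by
      rw [abs_mul]
      exact mul_le_mul hc (hAB.trans hs1) (abs_nonneg _) (by norm_num)
    have h2 := neg_abs_le (c * (A - B))
    have h3 : (10 : ℝ) ^ 6 * (1000 / Real.sqrt M.card) = 10 ^ 9 / Real.sqrt M.card := by ring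
    rw [h3] at h1
    have h4 : c * (A - B) = c * A - c * B := by ring
    linarith
  have b2 := hb p.c2 _ _ o2 a2
  have b3 := hb p.c3 _ _ o3 a3
  have b4 := hb p.c4 _ _ o4 a4
  rw [hsplit, a1]
  rw [hWexp] at hWsum
  have hlen : (p.tr.length : ℝ) * (10 ^ 12 / Real.sqrt M.card) ≤ 8 * (10 ^ 12 / Real.sqrt M.card) := by
    refine mul_le_mul_of_nonneg_right ?_ (by positivity)
    exact_mod_cast ol
  have hfin : 8 * (10 ^ 12 / Real.sqrt M.card) + 3 * (10 ^ 9 / Real.sqrt M.card) ≤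
      10 ^ 13 / Real.sqrt M.card := by
    rw [← mul_div_assoc, ← mul_div_assoc, ← add_div, div_le_div_iff_of_pos_right hs]
    norm_num
  linarith

end Pool.Agent.H49.MK
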