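import Mathlib
import Pool.Agent.H49.MK.Sound

/-!
Splitting off two elements and coupling of adjacent levels.
-/

open Finset
open scoped BigOperators

namespace Pool.Agent.H49.MK

open Pool.Agent.H49.L

variable {α : Type} [DecidableEq α]

/-- sum of `g` over the `j`-subset sums -/
noncomputable def SS (y : α → ℝ) (M : Finset α) (j : ℕ) (g : ℝ → ℝ) : ℝ :=
  ∑ K ∈ M.powersetCard j, g (∑ a ∈ K, y a)

omit [DecidableEq α] in
theorem SS_mono (y : α → ℝ) (M : Finset α) (j : ℕ) (g h : ℝ → ℝ) (hgh : ∀ s, g s ≤ h s) :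
    SS y M j g ≤ SS y M j h := Finset.sum_le_sum fun _ _ => hgh _

omit [DecidableEq α] in
theorem SS_nonneg (y : α → ℝ) (M : Finset α) (j : ℕ) (g : ℝ → ℝ) (hg : ∀ s, 0 ≤ g s) :
    0 ≤ SS y M j g := Finset.sum_nonneg fun _ _ => hg _

omit [DecidableEq α] in
theorem SS_AV (y : α → ℝ) (M : Finset α) (j : ℕ) (hj : j ≤ M.card) (g : ℝ → ℝ) :
    SS y M j g = (M.card.choose j : ℝ) * AV M j (fun K => g (∑ a ∈ K, y a)) := by
  have hC : (0 : ℝ) < (M.card.choose j : ℝ) := by exact_mod_cast Nat.choose_pos hj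
  unfold SS AV
  field_simp

theorem SS_insert (y : α → ℝ) (M : Finset α) (j : ℕ) (g : ℝ → ℝ) (a : α) (ha : a ∉ M) :
    SS y (insert a M) (j + 1) g = SS y M (j + 1) g + SS y M j (fun s => g (y a + s)) := by
  unfold SS
  rw [sum_pcs M j a ha]
  congr 1
  refine Finset.sum_congr rfl fun K hK => ?_
  have haK : a ∉ K := fun h => ha ((Finset.mem_powersetCard.1 hK).1 h)
  rw [Finset.sum_insert haK]

/-- indicator of `0 ≤ s` -/
noncomputable def i0 (s : ℝ) : ℝ := if 0 ≤ s then 1 else 0

omit [DecidableEq α] in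
theorem SS_one (y : α → ℝ) (M : Finset α) (j : ℕ) :
    SS y M j (fun _ => 1) = (M.card.choose j : ℝ) := by
  unfold SS; simp

omit [DecidableEq α] in
theorem SS_add (y : α → ℝ) (M : Finset α) (j : ℕ) (g h : ℝ → ℝ) :
    SS y M j (fun s => g s + h s) = SS y M j g + SS y M j h := by
  unfold SS; rw [Finset.sum_add_distrib]

omit [DecidableEq α] in
theorem SS_smul (y : α → ℝ) (M : Finset α) (j : ℕ) (c : ℝ) (g : ℝ → ℝ) :
    SS y M j (fun s => c * g s) = c * SS y M j g := by
  unfold SS; rw [Finset.mul_sum]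

/-- the four-term criterion: `e`, `f` removed, `u e = a`, `u f = -b` -/
theorem pair_criterion (u : α → ℝ) (M : Finset α) (k : ℕ) (hk : 2 ≤ k) (e f : α)
    (he : e ∉ insert f M) (hf : f ∉ M) (a b : ℝ) (ha : u e = a) (hb : u f = -b)
    (h : SS u M (k - 1) (fun s => if s < -a then 1 else 0) +
      SS u M (k - 2) (fun s => if s < b - a then 1 else 0) ≤
      SS u M k i0 + SS u M (k - 1) (fun s => if b ≤ s then 1 else 0)) :
    (((M.card + 1).choose (k - 1) : ℕ) : ℝ) ≤ SS u (insert e (insert f M)) k i0 := by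
  obtain ⟨k, rfl⟩ : ∃ k', k = k' + 2 := ⟨k - 2, by omega⟩
  simp only [show k + 2 - 1 = k + 1 by omega, show k + 2 - 2 = k by omega] at h ⊢
  rw [SS_insert u (insert f M) (k + 1) i0 e he, SS_insert u M (k + 1) i0 f hf,
    SS_insert u M k (fun s => i0 (u e + s)) f hf]
  have h1 : SS u M (k + 1) (fun s => i0 (u f + s)) =
      SS u M (k + 1) (fun s => if b ≤ s then 1 else 0) := by
    unfold SS
    refine Finset.sum_congr rfl fun K _ => ?_
    unfold i0
    rw [hb]
    refine if_congr ?_ rfl rfl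
    constructor <;> intro h <;> linarith
  have h2 : SS u M (k + 1) (fun s => i0 (u e + s)) +
      SS u M (k + 1) (fun s => if s < -a then 1 else 0) = (M.card.choose (k + 1) : ℝ) := by
    rw [← SS_add, ← SS_one u M (k + 1)]
    unfold SS
    refine Finset.sum_congr rfl fun K _ => ?_
    unfold i0
    rw [ha]
    beta_reduce
    split_ifs with h3 h4 h4
    · linarith
    · norm_num
    · norm_num
    · exact absurd (not_le.1 h3) (by intro h5; exact h4 (by linarith))
  have h3 : SS u M k (fun s => i0 (u e + (u f + s))) +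
      SS u M k (fun s => if s < b - a then 1 else 0) = (M.card.choose k : ℝ) := by
    rw [← SS_add, ← SS_one u M k]
    unfold SS
    refine Finset.sum_congr rfl fun K _ => ?_
    unfold i0
    rw [ha, hb]
    beta_reduce
    split_ifs with h3 h4 h4
    · linarith
    · norm_num
    · norm_num
    · exact absurd (not_le.1 h3) (by intro h5; exact h4 (by linarith))
  have h4 : (((M.card + 1).choose (k + 1) : ℕ) : ℝ) =
      (M.card.choose k : ℝ) + (M.card.choose (k + 1) : ℝ) := by
    rw [Nat.choose_succ_succ]; push_cast; ring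
  rw [h4, h1]
  linarith

/-- from level `m` to level `m + 1` -/
theorem lvl_up (y : α → ℝ) (M : Finset α) (m : ℕ) (hm : 4 * m + 3 ≤ M.card) (ε : ℝ) (hε : 0 < ε) :
    3 * (SS y M m (fun s => if ε < s then 1 else 0) -
      (M.card.choose m : ℝ) * (PP y M 2 / (ε ^ 2 * (M.card - m)))) ≤ SS y M (m + 1) i0 := by
  have hmR : (4 : ℝ) * m + 3 ≤ M.card := by exact_mod_cast hm
  have hNm : (0 : ℝ) < M.card - m := by
    have : (0 : ℝ) ≤ m := by positivity
    linarith
  have h := up_sum M m (fun K => i0 (∑ a ∈ K, y a))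
  have hcard : ∀ K ∈ M.powersetCard m, ((M \ K).card : ℝ) = M.card - m := by
    intro K hK
    obtain ⟨h1, h2⟩ := Finset.mem_powersetCard.1 hK
    rw [Finset.card_sdiff_of_subset h1, h2, Nat.cast_sub (by omega)]
  have h1 : (M.card - m : ℝ) * SS y M m (fun s => if ε < s then 1 else 0) -
      (M.card.choose m : ℝ) * (PP y M 2 / ε ^ 2) ≤
      ∑ K ∈ M.powersetCard m, ∑ a ∈ M \ K, i0 (∑ x ∈ insert a K, y x) := by
    have : (M.card - m : ℝ) * SS y M m (fun s => if ε < s then 1 else 0) -
      (M.card.choose m : ℝ) * (PP y M 2 / ε ^ 2) = ∑ K ∈ M.powersetCard m,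
        ((M.card - m : ℝ) * (if ε < ∑ a ∈ K, y a then 1 else 0) - PP y M 2 / ε ^ 2) := by
      unfold SS
      rw [Finset.sum_sub_distrib, ← Finset.mul_sum, Finset.sum_const, Finset.card_powersetCard,
        nsmul_eq_mul]
    rw [this]
    refine Finset.sum_le_sum fun K hK => ?_
    have hKc := hcard K hK
    calc (M.card - m : ℝ) * (if ε < ∑ a ∈ K, y a then 1 else 0) - PP y M 2 / ε ^ 2 ≤
        ∑ a ∈ M \ K, ((if ε < ∑ a ∈ K, y a then (1 : ℝ) else 0) - y a ^ 2 / ε ^ 2) := by
          rw [Finset.sum_sub_distrib, Finset.sum_const, nsmul_eq_mul, hKc, ← Finset.sum_div]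
          have : ∑ a ∈ M \ K, y a ^ 2 ≤ PP y M 2 :=
            Finset.sum_le_sum_of_subset_of_nonneg Finset.sdiff_subset fun a _ _ => sq_nonneg _
          have := div_le_div_of_nonneg_right this (sq_nonneg ε)
          linarith
      _ ≤ _ := by
          refine Finset.sum_le_sum fun a ha => ?_
          have haK : a ∉ K := (Finset.mem_sdiff.1 ha).2
          rw [Finset.sum_insert haK]
          unfold i0
          have h0 : 0 ≤ y a ^ 2 / ε ^ 2 := by positivity
          split_ifs with h3 h4 h4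
          · linarith
          · have : 1 ≤ y a ^ 2 / ε ^ 2 := by
              rw [one_le_div (by positivity)]
              nlinarith
            linarith
          · linarith
          · linarith
  rw [← h] at h1
  push_cast at h1
  change _ ≤ ((m : ℝ) + 1) * SS y M (m + 1) i0 at h1
  have hS0 : 0 ≤ SS y M (m + 1) i0 := SS_nonneg _ _ _ _ fun s => by unfold i0; split_ifs <;> norm_num
  set X := SS y M m (fun s => if ε < s then 1 else 0) -
      (M.card.choose m : ℝ) * (PP y M 2 / (ε ^ 2 * (M.card - m))) with hX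
  have hX1 : (M.card - m : ℝ) * X ≤ ((m : ℝ) + 1) * SS y M (m + 1) i0 := by
    refine le_trans (le_of_eq ?_) h1
    rw [hX, mul_sub]
    congr 1
    field_simp
  rcases le_or_gt X 0 with h0 | h0
  · linarith
  · have hm0 : (0 : ℝ) < (m : ℝ) + 1 := by positivity
    have h3 : ((m : ℝ) + 1) * (3 * X) ≤ ((m : ℝ) + 1) * SS y M (m + 1) i0 := by
      refine le_trans ?_ hX1
      nlinarith
    exact le_of_mul_le_mul_left h3 hm0

/-- from level `m` to level `m - 1` -/
theorem lvl_down (y : α → ℝ) (M : Finset α) (m : ℕ) (hm1 : 1 ≤ m) (hm : 4 * m + 3 ≤ M.card)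
    (ε c : ℝ) (hε : 0 < ε) :
    SS y M (m - 1) (fun s => if s < c then 1 else 0) ≤
      1 / 3 * SS y M m (fun s => if s ≤ c + ε then 1 else 0) +
      (M.card.choose m : ℝ) * (PP y M 2 / (ε ^ 2 * (M.card - m))) := by
  obtain ⟨m, rfl⟩ : ∃ m', m = m' + 1 := ⟨m - 1, by omega⟩
  simp only [Nat.add_sub_cancel]
  have hmR : (4 : ℝ) * (m + 1) + 3 ≤ M.card := by exact_mod_cast hm
  have hm0 : (0 : ℝ) ≤ m := by positivity
  have hNm : (0 : ℝ) < M.card - m := by linarith
  have hNm1 : (0 : ℝ) < M.card - (m + 1) := by linarith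
  have h := up_sum M m (fun K => (if ∑ a ∈ K, y a ≤ c + ε then (1 : ℝ) else 0))
  have hcard : ∀ K ∈ M.powersetCard m, ((M \ K).card : ℝ) = M.card - m := by
    intro K hK
    obtain ⟨h1, h2⟩ := Finset.mem_powersetCard.1 hK
    rw [Finset.card_sdiff_of_subset h1, h2, Nat.cast_sub (by omega)]
  have h1 : (M.card - m : ℝ) * SS y M m (fun s => if s < c then 1 else 0) -
      (M.card.choose m : ℝ) * (PP y M 2 / ε ^ 2) ≤
      ∑ K ∈ M.powersetCard m, ∑ a ∈ M \ K, (if ∑ x ∈ insert a K, y x ≤ c + ε then (1 : ℝ) else 0) := by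
    have : (M.card - m : ℝ) * SS y M m (fun s => if s < c then 1 else 0) -
      (M.card.choose m : ℝ) * (PP y M 2 / ε ^ 2) = ∑ K ∈ M.powersetCard m,
        ((M.card - m : ℝ) * (if ∑ a ∈ K, y a < c then 1 else 0) - PP y M 2 / ε ^ 2) := by
      unfold SS
      rw [Finset.sum_sub_distrib, ← Finset.mul_sum, Finset.sum_const, Finset.card_powersetCard,
        nsmul_eq_mul]
    rw [this]
    refine Finset.sum_le_sum fun K hK => ?_
    have hKc := hcard K hK
    calc (M.card - m : ℝ) * (if ∑ a ∈ K, y a < c then 1 else 0) - PP y M 2 / ε ^ 2 ≤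
        ∑ a ∈ M \ K, ((if ∑ a ∈ K, y a < c then (1 : ℝ) else 0) - y a ^ 2 / ε ^ 2) := by
          rw [Finset.sum_sub_distrib, Finset.sum_const, nsmul_eq_mul, hKc, ← Finset.sum_div]
          have : ∑ a ∈ M \ K, y a ^ 2 ≤ PP y M 2 :=
            Finset.sum_le_sum_of_subset_of_nonneg Finset.sdiff_subset fun a _ _ => sq_nonneg _
          have := div_le_div_of_nonneg_right this (sq_nonneg ε)
          linarith
      _ ≤ _ := by
          refine Finset.sum_le_sum fun a ha => ?_
          have haK : a ∉ K := (Finset.mem_sdiff.1 ha).2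
          rw [Finset.sum_insert haK]
          have h0 : 0 ≤ y a ^ 2 / ε ^ 2 := by positivity
          split_ifs with h3 h4 h4
          · linarith
          · have : 1 ≤ y a ^ 2 / ε ^ 2 := by
              rw [one_le_div (by positivity)]
              nlinarith
            linarith
          · linarith
          · linarith
  rw [← h] at h1
  push_cast at h1
  change _ ≤ ((m : ℝ) + 1) * SS y M (m + 1) (fun s => if s ≤ c + ε then 1 else 0) at h1
  have hS0 : 0 ≤ SS y M (m + 1) (fun s => if s ≤ c + ε then 1 else 0) :=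
    SS_nonneg _ _ _ _ fun s => by split_ifs <;> norm_num
  have hrel : (M.card.choose (m + 1) : ℝ) * (m + 1) = (M.card.choose m : ℝ) * (M.card - m) := by
    have := Nat.choose_succ_right_eq M.card m
    have h' : ((M.card.choose (m + 1) * (m + 1) : ℕ) : ℝ) =
        ((M.card.choose m * (M.card - m) : ℕ) : ℝ) := by
      rw [this]
    rw [Nat.cast_mul, Nat.cast_mul, Nat.cast_sub (by omega)] at h'
    push_cast at h'
    exact h'
  have hC0 : (0 : ℝ) ≤ (M.card.choose m : ℝ) := by positivity
  have hC1 : (M.card.choose m : ℝ) ≤ (M.card.choose (m + 1) : ℝ) := by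
    have hC10 : (0 : ℝ) ≤ (M.card.choose (m + 1) : ℝ) := by positivity
    nlinarith
  have hQ0 : 0 ≤ PP y M 2 := Finset.sum_nonneg fun a _ => sq_nonneg _
  set X := SS y M m (fun s => if s < c then 1 else 0) with hX
  set Y := SS y M (m + 1) (fun s => if s ≤ c + ε then 1 else 0) with hY
  have h5 : X ≤ ((m : ℝ) + 1) / (M.card - m) * Y + (M.card.choose m : ℝ) *
      (PP y M 2 / (ε ^ 2 * (M.card - m))) := by
    have e : ((m : ℝ) + 1) / (M.card - m) * Y + (M.card.choose m : ℝ) *
      (PP y M 2 / (ε ^ 2 * (M.card - m))) = (((m : ℝ) + 1) * Y + (M.card.choose m : ℝ) *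
      (PP y M 2 / ε ^ 2)) / (M.card - m) := by
      field_simp
    rw [e, le_div_iff₀ hNm]
    linarith
  have h6 : ((m : ℝ) + 1) / (M.card - m) ≤ 1 / 3 := by
    rw [div_le_div_iff₀ hNm (by norm_num)]
    linarith
  have h7 : (M.card.choose m : ℝ) * (PP y M 2 / (ε ^ 2 * (M.card - m))) ≤
      (M.card.choose (m + 1) : ℝ) * (PP y M 2 / (ε ^ 2 * (M.card - ((m + 1 : ℕ) : ℝ)))) := by
    refine mul_le_mul hC1 ?_ (by positivity) (by positivity)
    refine div_le_div_of_nonneg_left hQ0 ?_ ?_
    · push_cast; positivity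
    · push_cast
      refine mul_le_mul_of_nonneg_left (by linarith) (by positivity)
  have h8 := mul_le_mul_of_nonneg_right h6 hS0
  linarith

/-- if the average payoff at level `m = k - 1` is positive enough, the pair criterion holds -/
theorem payoff_criterion (y : α → ℝ) (M : Finset α) (k : ℕ) (hk : 2 ≤ k)
    (hm : 4 * (k - 1) + 3 ≤ M.card) (a b κ ε : ℝ) (hε : 0 < ε)
    (hT : PP y M 1 = b - a)
    (h : 4 * (PP y M 2 / (ε ^ 2 * (M.card - ((k - 1 : ℕ) : ℝ)))) ≤
      AV M (k - 1) (fun K => payoff a b κ ε (∑ x ∈ K, y x - κ * PP y M 1))) :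
    SS y M (k - 1) (fun s => if s < -a then 1 else 0) +
      SS y M (k - 2) (fun s => if s < b - a then 1 else 0) ≤
      SS y M k i0 + SS y M (k - 1) (fun s => if b ≤ s then 1 else 0) := by
  have h1 := lvl_up y M (k - 1) hm ε hε
  have h2 := lvl_down y M (k - 1) (by omega) hm ε (b - a) hε
  rw [show k - 1 + 1 = k by omega] at h1
  rw [show k - 1 - 1 = k - 2 by omega] at h2
  have hC : (0 : ℝ) < (M.card.choose (k - 1) : ℝ) := by
    exact_mod_cast Nat.choose_pos (by omega)
  have h3 : (M.card.choose (k - 1) : ℝ) *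
      AV M (k - 1) (fun K => payoff a b κ ε (∑ x ∈ K, y x - κ * PP y M 1)) =
      3 * SS y M (k - 1) (fun s => if ε < s then 1 else 0) +
      SS y M (k - 1) (fun s => if b < s then 1 else 0) -
      SS y M (k - 1) (fun s => if s ≤ -a then 1 else 0) -
      1 / 3 * SS y M (k - 1) (fun s => if s ≤ b - a + ε then 1 else 0) := by
    rw [← SS_AV y M (k - 1) (by omega) (fun s => payoff a b κ ε (s - κ * PP y M 1)),
      ← SS_smul, ← SS_smul]
    unfold SS
    rw [← Finset.sum_add_distrib, ← Finset.sum_sub_distrib, ← Finset.sum_sub_distrib]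
    refine Finset.sum_congr rfl fun K _ => ?_
    unfold payoff
    rw [hT]
    beta_reduce
    have : ∑ x ∈ K, y x - κ * (b - a) - κ * (a - b) = ∑ x ∈ K, y x := by ring
    rw [this]
    split_ifs <;> norm_num
  have h4 : SS y M (k - 1) (fun s => if b < s then 1 else 0) ≤
      SS y M (k - 1) (fun s => if b ≤ s then 1 else 0) := by
    refine SS_mono _ _ _ _ _ fun s => ?_
    split_ifs with h5 h6 h6
    · exact le_rfl
    · exact absurd h5.le h6
    · norm_num
    · exact le_rfl
  have h5 : SS y M (k - 1) (fun s => if s < -a then 1 else 0) ≤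
      SS y M (k - 1) (fun s => if s ≤ -a then 1 else 0) := by
    refine SS_mono _ _ _ _ _ fun s => ?_
    split_ifs with h5 h6 h6
    · exact le_rfl
    · exact absurd h5.le h6
    · norm_num
    · exact le_rfl
  have h6 := mul_le_mul_of_nonneg_left h hC.le
  rw [h3] at h6
  linarith

end Pool.Agent.H49.MK
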