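import Mathlib
import Pool.Agent.H49.MK.Lvl

/-!
Region D (no large element) and the cell criterion.
-/

open Finset
open scoped BigOperators

namespace Pool.Agent.H49.MK

open Pool.Agent.H49.L

variable {α : Type} [DecidableEq α]

theorem sqrt_big (N : ℝ) (hN : 10 ^ 37 ≤ N) : 10 ^ 13 / Real.sqrt N ≤ 5 / 10 ^ 6 := by
  have h : (2 * 10 ^ 18 : ℝ) ≤ Real.sqrt N := by
    rw [Real.le_sqrt (by norm_num) (by linarith)]
    refine le_trans ?_ hN
    norm_num
  have hs : 0 < Real.sqrt N := lt_of_lt_of_le (by norm_num) h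
  rw [div_le_div_iff₀ hs (by norm_num)]
  nlinarith

omit [DecidableEq α] in
theorem PP_scale (y : α → ℝ) (M : Finset α) (c : ℝ) (i : ℕ) :
    PP (fun a => c * y a) M i = c ^ i * PP y M i := by
  unfold PP
  rw [Finset.mul_sum]
  exact Finset.sum_congr rfl fun a _ => by rw [mul_pow]

omit [DecidableEq α] in
theorem SS_i0_scale (y : α → ℝ) (M : Finset α) (j : ℕ) (c : ℝ) (hc : 0 < c) :
    SS (fun a => c * y a) M j i0 = SS y M j i0 := by
  unfold SS
  refine Finset.sum_congr rfl fun K _ => ?_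
  rw [← Finset.mul_sum]
  unfold i0
  refine if_congr ?_ rfl rfl
  exact mul_nonneg_iff_of_pos_left hc

/-- region D -/
theorem regD (hD : CellD) (u : α → ℝ) (M : Finset α) (k : ℕ) (hk : 1 ≤ k)
    (hn : 4 * k ≤ M.card) (hbig : (10 : ℝ) ^ 37 ≤ M.card)
    (hκ0 : 1999 / 10000 ≤ (k / M.card : ℝ)) (hu : PP u M 1 = 0) (hQ0 : 0 < PP u M 2)
    (hmax : ∀ a ∈ M, u a ^ 2 ≤ (k / M.card : ℝ) * (1 - k / M.card) * PP u M 2) :
    ((M.card - 1).choose (k - 1) : ℝ) ≤ SS u M k i0 := by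
  have hN0 : (0 : ℝ) < M.card := lt_of_lt_of_le (by norm_num) hbig
  have hnR : (4 : ℝ) * k ≤ M.card := by exact_mod_cast hn
  obtain ⟨κ, hκ⟩ : ∃ κ : ℝ, κ = (k / M.card : ℝ) := ⟨_, rfl⟩
  rw [← hκ] at hκ0 hmax
  have hκ1 : κ ≤ 1 / 4 := by rw [hκ, div_le_iff₀ hN0]; linarith
  have hq : 0 < κ * (1 - κ) := mul_pos (by linarith) (by linarith)
  obtain ⟨p, hp, hpe, hpW⟩ := hD κ hκ0 hκ1
  set Q := PP u M 2 with hQ
  have hqQ : 0 < κ * (1 - κ) * Q := mul_pos hq hQ0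
  set σ := Real.sqrt (κ * (1 - κ) * Q) with hσ
  have hσ0 : 0 < σ := Real.sqrt_pos.2 hqQ
  have hσ2 : σ ^ 2 = κ * (1 - κ) * Q := Real.sq_sqrt hqQ.le
  set y : α → ℝ := fun a => σ⁻¹ * u a with hy
  have hy1 : PP y M 1 = 0 := by rw [hy, PP_scale, hu, mul_zero]
  have hy2 : PP y M 2 = 1 / (κ * (1 - κ)) := by
    rw [hy, PP_scale, ← hQ, inv_pow, hσ2]
    field_simp
  have hyb : ∀ a ∈ M, |y a| ≤ 1 := by
    intro a ha
    have h1 := hmax a ha
    rw [← hσ2] at h1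
    have h2 : |u a| ≤ σ := abs_le_of_sq_le_sq h1 hσ0.le
    rw [hy]
    simp only
    rw [abs_mul, abs_of_pos (inv_pos.2 hσ0)]
    rw [inv_mul_le_iff₀ hσ0]
    linarith
  have hq1 : 1599 / 10000 ≤ κ * (1 - κ) := by nlinarith
  have hQ7 : PP y M 2 ≤ 7 := by
    rw [hy2, div_le_iff₀ hq]
    linarith
  have hM8 : 8 ≤ M.card := by
    have : (8 : ℝ) ≤ M.card := le_trans (by norm_num) hbig
    exact_mod_cast this
  have hcert := cert_avg p hp y M k hM8 hn hyb (by rw [hy1]; norm_num) hQ7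
    (by rw [hy2]; positivity) κ 1 hκ (by rw [hy2, mul_one_div, div_self hq.ne']) (κ + 1 / 10 ^ 5)
    (fun a ha h0 => by
      have := abs_le.1 (hyb a ha)
      exact hpW (y a) h0 this.1 this.2)
  have hs := sqrt_big M.card hbig
  have h5 : (5 : ℝ) / 10 ^ 6 ≤ 1 / 10 ^ 5 := by norm_num
  have hav : κ ≤ AV M k (fun K => i0 (∑ a ∈ K, y a)) := by
    have hle : AV M k (fun K => p.eval (∑ a ∈ K, y a - κ * PP y M 1)) ≤
        AV M k (fun K => i0 (∑ a ∈ K, y a)) := by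
      refine AV_mono _ _ _ _ fun K _ => ?_
      rw [hy1, mul_zero, sub_zero]
      refine (hpe _).trans ?_
      unfold i0
      split_ifs with h1 h2 h2
      · exact le_rfl
      · exact absurd h1.le h2
      · norm_num
      · exact le_rfl
    linarith
  have hSS : SS u M k i0 = SS y M k i0 := (SS_i0_scale u M k σ⁻¹ (inv_pos.2 hσ0)).symm
  rw [hSS, SS_AV y M k (by omega) i0]
  have hch : ((M.card - 1).choose (k - 1) : ℝ) = (M.card.choose k : ℝ) * κ := by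
    have h := Nat.add_one_mul_choose_eq (M.card - 1) (k - 1)
    have e1 : M.card - 1 + 1 = M.card := by omega
    have e2 : k - 1 + 1 = k := by omega
    rw [e1, e2] at h
    have h' : ((M.card * (M.card - 1).choose (k - 1) : ℕ) : ℝ) =
      ((M.card.choose k * k : ℕ) : ℝ) := by rw [h]
    push_cast at h'
    rw [hκ]
    field_simp
    linarith
  rw [hch]
  exact mul_le_mul_of_nonneg_left hav (by positivity)

/-- the cell criterion -/
theorem cell_criterion (y : α → ℝ) (M : Finset α) (k : ℕ) (hk : 2 ≤ k)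
    (hm : 4 * (k - 1) + 3 ≤ M.card) (hbig : (10 : ℝ) ^ 37 ≤ M.card) (a b κ v : ℝ)
    (ha : a ≤ 1) (hb : b ≤ 1) (ha0 : 0 ≤ a) (hb0 : 0 ≤ b)
    (hκ : κ = (((k - 1 : ℕ) : ℝ) / M.card)) (hv : v = κ * (1 - κ) * PP y M 2)
    (hT : PP y M 1 = b - a) (hQ : PP y M 2 ≤ 7) (hQ0 : 0 < PP y M 2)
    (hya : ∀ x ∈ M, y x ≤ a) (hyb : ∀ x ∈ M, -b ≤ y x) (hcell : CellOK a b κ v) :
    SS y M (k - 1) (fun s => if s < -a then 1 else 0) +
      SS y M (k - 2) (fun s => if s < b - a then 1 else 0) ≤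
      SS y M k i0 + SS y M (k - 1) (fun s => if b ≤ s then 1 else 0) := by
  have hN0 : (0 : ℝ) < M.card := lt_of_lt_of_le (by norm_num) hbig
  have hmR : (4 : ℝ) * ((k - 1 : ℕ) : ℝ) + 3 ≤ M.card := by exact_mod_cast hm
  have hm0 : (0 : ℝ) ≤ ((k - 1 : ℕ) : ℝ) := by positivity
  have hκ0 : 0 ≤ κ := by rw [hκ]; positivity
  have hκ1 : κ ≤ 1 / 4 := by rw [hκ, div_le_iff₀ hN0]; linarith
  obtain ⟨p, hp, hpe, hpW⟩ := hcell
  refine payoff_criterion y M k hk hm a b κ (1 / 10 ^ 5) (by norm_num) hT ?_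
  have hyabs : ∀ x ∈ M, |y x| ≤ 1 := fun x hx => abs_le.2 ⟨by linarith [hyb x hx], by linarith [hya x hx]⟩
  have hM8 : 8 ≤ M.card := by
    have : (8 : ℝ) ≤ M.card := le_trans (by norm_num) hbig
    exact_mod_cast this
  have hcert := cert_avg p hp y M (k - 1) hM8 (by omega) hyabs
    (by rw [hT, abs_le]; constructor <;> linarith) hQ hQ0 κ v hκ hv (1 / 10 ^ 5)
    (fun x hx h0 => by
      refine hpW (y x) h0 (hyb x hx) (hya x hx) ?_
      rw [hv]
      refine mul_le_mul_of_nonneg_left ?_ (mul_nonneg hκ0 (by linarith))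
      unfold PP
      exact Finset.single_le_sum (f := fun x => y x ^ 2) (fun x _ => sq_nonneg _) hx)
  have hle : AV M (k - 1) (fun K => p.eval (∑ x ∈ K, y x - κ * PP y M 1)) ≤
      AV M (k - 1) (fun K => payoff a b κ (1 / 10 ^ 5) (∑ x ∈ K, y x - κ * PP y M 1)) :=
    AV_mono _ _ _ _ fun K _ => hpe _
  have hs := sqrt_big M.card hbig
  have hNm : 3 / 4 * (M.card : ℝ) ≤ M.card - ((k - 1 : ℕ) : ℝ) := by linarith
  have herr : 4 * (PP y M 2 / ((1 / 10 ^ 5) ^ 2 * (M.card - ((k - 1 : ℕ) : ℝ)))) ≤ 1 / 10 ^ 6 := by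
    rw [← mul_div_assoc, div_le_iff₀ (by
      refine mul_pos (by norm_num) (by linarith))]
    nlinarith
  linarith

end Pool.Agent.H49.MK
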