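import Mathlib
import Pool.Agent.H49.MK.Reg

/-!
Region B (the minimum is the element of largest modulus), small variance.
-/

open Finset
open scoped BigOperators

namespace Pool.Agent.H49.MK

open Pool.Agent.H49.L

variable {α : Type} [DecidableEq α]

omit [DecidableEq α] in
/-- Cantelli -/
theorem cant_av (M : Finset α) (m : ℕ) (hm : m ≤ M.card) (z : Finset α → ℝ)
    (h1 : AV M m z = 0) (V t : ℝ) (hV : 0 ≤ V) (h2 : AV M m (fun K => z K ^ 2) ≤ V) (ht : 0 < t) :
    AV M m (fun K => if z K ≤ -t then 1 else 0) ≤ V / (V + t ^ 2) := by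
  set c := V / t with hc
  have hc0 : 0 ≤ c := div_nonneg hV ht.le
  have hpos : 0 < (c + t) ^ 2 := by positivity
  have hVt : 0 < V + t ^ 2 := by positivity
  have h3 : AV M m (fun K => if z K ≤ -t then 1 else 0) ≤
      AV M m (fun K => (1 / (c + t) ^ 2) * (c ^ 2 + (-(2 * c)) * z K + z K ^ 2)) := by
    refine AV_mono _ _ _ _ fun K _ => ?_
    have e : (1 / (c + t) ^ 2) * (c ^ 2 + (-(2 * c)) * z K + z K ^ 2) =
        (c - z K) ^ 2 / (c + t) ^ 2 := by
      field_simp; ring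
    rw [e]
    split_ifs with h
    · rw [one_le_div hpos]
      exact pow_le_pow_left₀ (by positivity) (by linarith) 2
    · positivity
  rw [AV_smul, AV_add, AV_add, AV_const M m hm, AV_smul, h1] at h3
  refine h3.trans ?_
  have e2 : V / (V + t ^ 2) = (1 / (c + t) ^ 2) * (c ^ 2 + V) := by
    rw [hc]; field_simp
  rw [e2]
  refine mul_le_mul_of_nonneg_left (by linarith) (by positivity)

omit [DecidableEq α] in
/-- fourth moment bound -/
theorem four_av (M : Finset α) (m : ℕ) (z : Finset α → ℝ)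
    (h1 : AV M m z = 0) (lam : ℝ) :
    103 / 500 * (3 * lam ^ 2 * AV M m (fun K => z K ^ 2) - lam ^ 4 * AV M m (fun K => z K ^ 4)) ≤
      AV M m (fun K => if 0 ≤ lam * z K then 1 else 0) := by
  have h3 : AV M m (fun K => (103 / 250 * lam) * z K + ((309 / 500 * lam ^ 2) * z K ^ 2 +
      (-(103 / 500 * lam ^ 4)) * z K ^ 4)) ≤ AV M m (fun K => if 0 ≤ lam * z K then 1 else 0) := by
    refine AV_mono _ _ _ _ fun K _ => ?_
    have e : (103 / 250 * lam) * z K + ((309 / 500 * lam ^ 2) * z K ^ 2 +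
      (-(103 / 500 * lam ^ 4)) * z K ^ 4) = 103 / 500 * (2 * (lam * z K) + 3 * (lam * z K) ^ 2 -
        (lam * z K) ^ 4) := by ring
    rw [e]
    generalize lam * z K = t
    split_ifs with h
    · nlinarith [sq_nonneg (t ^ 2 - 1866 / 1000), sq_nonneg (t - 1366 / 1000)]
    · push Not at h
      have h5 : 2 * t + 3 * t ^ 2 - t ^ 4 = t * ((2 - t) * (1 + t) ^ 2) := by ring
      rw [h5]
      have : 0 ≤ (2 - t) * (1 + t) ^ 2 := mul_nonneg (by linarith) (sq_nonneg _)
      nlinarith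
  rw [AV_add, AV_add, AV_smul, AV_smul, AV_smul, h1] at h3
  linarith

/-- centred sums -/
theorem cent_facts (y : α → ℝ) (M : Finset α) (j : ℕ) (hM : 8 ≤ M.card) (hj : j ≤ M.card)
    (c : ℝ) (hc : (M.card : ℝ) * c = PP y M 1) :
    AV M j (fun K => ∑ a ∈ K, y a - j * c) = 0 ∧
    AV M j (fun K => (∑ a ∈ K, y a - j * c) ^ 2) =
      fa M.card j * PP (fun a => y a - c) M 2 ∧
    AV M j (fun K => (∑ a ∈ K, y a - j * c) ^ 4) =
      (fa M.card j - 6 * fb M.card j) * PP (fun a => y a - c) M 4 +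
        3 * fb M.card j * PP (fun a => y a - c) M 2 ^ 2 ∧
    PP (fun a => y a - c) M 2 ≤ PP y M 2 ∧
    PP (fun a => y a - c) M 4 ≤ PP (fun a => y a - c) M 2 ^ 2 ∧
    0 ≤ PP (fun a => y a - c) M 2 ∧ 0 ≤ PP (fun a => y a - c) M 4 := by
  have hNN : (8 : ℝ) ≤ M.card := by exact_mod_cast hM
  have hC : (0 : ℝ) < (M.card.choose j : ℝ) := by exact_mod_cast Nat.choose_pos (by omega)
  obtain ⟨p1, p2, -, -⟩ := PP_cent y M M.card c rfl hc
  have m1 := M1 (fun a => y a - c) M j p1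
  have m2 := M2 (fun a => y a - c) M j (by omega) p1
  have m4 := M4 (fun a => y a - c) M j (by omega) p1
  have hav : ∀ i : ℕ, AV M j (fun K => (∑ a ∈ K, y a - j * c) ^ i) =
      FF (fun a => y a - c) M j i / (M.card.choose j : ℝ) := fun i => AV_pow y M j i c
  have h0 : 0 ≤ PP (fun a => y a - c) M 2 := Finset.sum_nonneg fun a _ => sq_nonneg _
  refine ⟨?_, ?_, ?_, ?_, ?_, h0, Finset.sum_nonneg fun a _ => by positivity⟩
  · have := hav 1
    simp only [pow_one] at this
    rw [this, m1, zero_div]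
  · rw [hav 2, m2, mul_comm ((M.card.choose j : ℝ)), mul_div_assoc, div_self hC.ne', mul_one]
  · rw [hav 4, m4, mul_comm ((M.card.choose j : ℝ)), mul_div_assoc, div_self hC.ne', mul_one]
  · rw [p2]
    nlinarith [sq_nonneg c]
  · unfold PP
    rw [pow_two (∑ a ∈ M, (y a - c) ^ 2), Finset.sum_mul]
    refine Finset.sum_le_sum fun a ha => ?_
    have h1 : (y a - c) ^ 2 ≤ ∑ a ∈ M, (y a - c) ^ 2 :=
      Finset.single_le_sum (f := fun a => (y a - c) ^ 2) (fun a _ => sq_nonneg _) ha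
    have h2 : (y a - c) ^ 4 = (y a - c) ^ 2 * (y a - c) ^ 2 := by ring
    rw [h2]
    exact mul_le_mul_of_nonneg_left h1 (sq_nonneg _)

/-- at least 14 percent of the centred sums are nonnegative -/
theorem fourteen (y : α → ℝ) (M : Finset α) (j : ℕ) (hM : 8 ≤ M.card) (hj : 4 * j ≤ M.card + 4)
    (hbig : (10 : ℝ) ^ 10 ≤ M.card) (κ : ℝ) (hκ : κ = (j / M.card : ℝ)) (hκ0 : 1999 / 10000 ≤ κ)
    (c : ℝ) (hc : (M.card : ℝ) * c = PP y M 1) :
    1421 / 10000 ≤ AV M j (fun K => if 0 ≤ ∑ a ∈ K, y a - j * c then 1 else 0) := by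
  obtain ⟨c1, c2, c4, -, c44, c0, c40⟩ := cent_facts y M j hM (by omega) c hc
  have hNN : (8 : ℝ) ≤ M.card := by exact_mod_cast hM
  have hN0 : (0 : ℝ) < M.card := by linarith
  have hjR : (4 : ℝ) * j ≤ M.card + 4 := by exact_mod_cast hj
  have hκ1 : κ ≤ 2501 / 10000 := by
    rw [hκ, div_le_iff₀ hN0]
    have : (10000 : ℝ) * 4 ≤ M.card := le_trans (by norm_num) hbig
    linarith
  have hjκ : (j : ℝ) = κ * M.card := by rw [hκ]; field_simp
  have fa1 := fa_close M.card κ hNN (by linarith) (by linarith)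
  have fb1 := fb_close M.card κ hNN (by linarith) (by linarith)
  rw [← hjκ] at fa1 fb1
  have hsm : (1 : ℝ) / M.card ≤ 1 / 10 ^ 6 :=
    div_le_div_of_nonneg_left (by norm_num) (by norm_num) (le_trans (by norm_num) hbig)
  have hsm2 : (2 : ℝ) / M.card ≤ 2 / 10 ^ 6 :=
    div_le_div_of_nonneg_left (by norm_num) (by norm_num) (le_trans (by norm_num) hbig)
  have hq1 : 15993 / 100000 ≤ κ * (1 - κ) := by nlinarith
  have hq2 : κ * (1 - κ) ≤ 18756 / 100000 := by nlinarith
  generalize PP (fun a => y a - c) M 4 = F at *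
  generalize PP (fun a => y a - c) M 2 = Q at *
  generalize fa M.card j = A at *
  generalize fb M.card j = B at *
  have fa2 := abs_le.1 (fa1.trans hsm)
  have fb2 := abs_le.1 (fb1.trans hsm2)
  generalize κ * (1 - κ) = q at *
  have hA1 : 1599 / 10000 ≤ A := by linarith
  rcases eq_or_lt_of_le c0 with h0 | h0
  · -- all centred sums vanish
    have hz : AV M j (fun K => (∑ a ∈ K, y a - j * c) ^ 2) = 0 := by rw [c2, ← h0, mul_zero]
    have hC : (0 : ℝ) < (M.card.choose j : ℝ) := by exact_mod_cast Nat.choose_pos (by omega)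
    unfold AV at hz
    rw [div_eq_zero_iff, or_iff_left hC.ne',
      Finset.sum_eq_zero_iff_of_nonneg (fun K _ => sq_nonneg _)] at hz
    have : AV M j (fun K => if 0 ≤ ∑ a ∈ K, y a - j * c then (1 : ℝ) else 0) =
        AV M j (fun _ => (1 : ℝ)) := by
      unfold AV
      congr 1
      refine Finset.sum_congr rfl fun K hK => ?_
      have h2 := hz K hK
      have h3 : ∑ a ∈ K, y a - j * c = 0 := by simpa using h2
      beta_reduce
      rw [h3]; simp
    rw [this, AV_const M j (by omega)]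
    norm_num
  · -- main case
    set V2 := A * Q with hV2
    have hV0 : 0 < V2 := mul_pos (by linarith) h0
    have hF : (A - 6 * B) * F + 3 * B * Q ^ 2 ≤ 326 / 100 * V2 ^ 2 := by
      have hQ2 : 0 < Q ^ 2 := by positivity
      have e : 326 / 100 * V2 ^ 2 = 326 / 100 * A ^ 2 * Q ^ 2 := by rw [hV2]; ring
      rw [e]
      rcases le_or_gt 0 (A - 6 * B) with h6 | h6
      · have h7 : (A - 6 * B) * F ≤ (A - 6 * B) * Q ^ 2 := mul_le_mul_of_nonneg_left c44 h6
        have h8 : A - 3 * B ≤ 326 / 100 * A ^ 2 := by nlinarith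
        nlinarith
      · have hF0 : 0 ≤ (6 * B - A) * F := mul_nonneg (by linarith) c40
        have h8 : 3 * B ≤ 326 / 100 * A ^ 2 := by nlinarith
        nlinarith
    set lam := Real.sqrt (46 / 100 / V2) with hlam
    have hl0 : 0 < lam := Real.sqrt_pos.2 (by positivity)
    have hl2 : lam ^ 2 = 46 / 100 / V2 := Real.sq_sqrt (by positivity)
    have hl4 : lam ^ 4 = (46 / 100 / V2) ^ 2 := by rw [← hl2]; ring
    have h4 := four_av M j (fun K => ∑ a ∈ K, y a - j * c) c1 lam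
    rw [c2, c4] at h4
    have e1 : AV M j (fun K => if 0 ≤ lam * (∑ a ∈ K, y a - j * c) then (1 : ℝ) else 0) =
        AV M j (fun K => if 0 ≤ ∑ a ∈ K, y a - j * c then (1 : ℝ) else 0) := by
      unfold AV
      congr 1
      refine Finset.sum_congr rfl fun K _ => ?_
      refine if_congr ?_ rfl rfl
      exact mul_nonneg_iff_of_pos_left hl0
    rw [e1] at h4
    refine le_trans ?_ h4
    rw [hl2, hl4]
    have e2 : 3 * (46 / 100 / V2) * V2 = 138 / 100 := by field_simp; norm_num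
    have e3 : (46 / 100 / V2) ^ 2 * ((A - 6 * B) * F + 3 * B * Q ^ 2) ≤ 2116 / 10000 * (326 / 100) := by
      have : (46 / 100 / V2) ^ 2 * ((A - 6 * B) * F + 3 * B * Q ^ 2) ≤
          (46 / 100 / V2) ^ 2 * (326 / 100 * V2 ^ 2) := mul_le_mul_of_nonneg_left hF (sq_nonneg _)
      refine this.trans (le_of_eq ?_)
      field_simp
      norm_num
    rw [e2]
    linarith

theorem cant_num (V t t0 A : ℝ) (hV : 0 ≤ V) (hV1 : V ≤ 401 / 10000) (ht0 : 0 < t0) (ht : t0 ≤ t)
    (hA0 : 0 ≤ A) (hA1 : A ≤ 1) (hA : 401 / 10000 * (1 - A) ≤ A * t0 ^ 2) :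
    V / (V + t ^ 2) ≤ A := by
  have h1 : t0 ^ 2 ≤ t ^ 2 := pow_le_pow_left₀ ht0.le ht 2
  have htp : 0 < t := by linarith
  have h2 : 0 < V + t ^ 2 := by positivity
  rw [div_le_iff₀ h2]
  have h3 : V * (1 - A) ≤ 401 / 10000 * (1 - A) := mul_le_mul_of_nonneg_right hV1 (by linarith)
  have h4 : A * t0 ^ 2 ≤ A * t ^ 2 := mul_le_mul_of_nonneg_left h1 hA0
  linarith

/-- region B, small variance -/
theorem smallB (y : α → ℝ) (M : Finset α) (k : ℕ) (hk : 2 ≤ k)
    (hm : 4 * (k - 1) + 3 ≤ M.card) (hm5 : M.card ≤ 5 * k) (hbig : (10 : ℝ) ^ 30 ≤ M.card)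
    (a κ v : ℝ) (ha : a ≤ 1) (ha0 : 0 ≤ a)
    (hκ : κ = (((k - 1 : ℕ) : ℝ) / M.card)) (hv : v = κ * (1 - κ) * PP y M 2)
    (hκ0 : 1999 / 10000 ≤ κ)
    (hT : PP y M 1 = 1 - a) (hvs : v ≤ 4 / 100) :
    SS y M (k - 1) (fun s => if s < -a then 1 else 0) +
      SS y M (k - 2) (fun s => if s < 1 - a then 1 else 0) ≤
      SS y M k i0 + SS y M (k - 1) (fun s => if 1 ≤ s then 1 else 0) := by
  obtain ⟨m, rfl⟩ : ∃ m, k = m + 1 := ⟨k - 1, by omega⟩
  simp only [Nat.add_sub_cancel] at hm hκ ⊢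
  rw [show m + 1 - 2 = m - 1 by omega]
  have hN0 : (0 : ℝ) < M.card := lt_of_lt_of_le (by norm_num) hbig
  have hM8 : 8 ≤ M.card := by
    have : (8 : ℝ) ≤ M.card := le_trans (by norm_num) hbig
    exact_mod_cast this
  have hNN : (8 : ℝ) ≤ M.card := by exact_mod_cast hM8
  have hmR : (4 : ℝ) * m + 3 ≤ M.card := by exact_mod_cast hm
  have hm0 : (0 : ℝ) ≤ m := by positivity
  have hmκ : (m : ℝ) = κ * M.card := by rw [hκ, div_mul_cancel₀ _ hN0.ne']
  have hκ1 : κ ≤ 1 / 4 := by rw [hκ, div_le_iff₀ hN0]; linarith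
  obtain ⟨κ', hκ'⟩ : ∃ κ' : ℝ, κ' = (((m + 1 : ℕ) : ℝ) / M.card : ℝ) := ⟨_, rfl⟩
  have hm1κ : ((m + 1 : ℕ) : ℝ) = κ' * M.card := by rw [hκ', div_mul_cancel₀ _ hN0.ne']
  have hκκ : κ' = κ + 1 / M.card := by rw [hκ', hκ]; push_cast; rw [add_div]
  have hsm : (1 : ℝ) / M.card ≤ 1 / 10 ^ 30 :=
    div_le_div_of_nonneg_left (by norm_num) (by norm_num) hbig
  have hsm0 : (0 : ℝ) < 1 / M.card := one_div_pos.2 hN0
  obtain ⟨c, hc⟩ : ∃ c : ℝ, (M.card : ℝ) * c = PP y M 1 :=
    ⟨PP y M 1 / M.card, by rw [mul_comm, div_mul_cancel₀ _ hN0.ne']⟩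
  obtain ⟨c1, c2, -, c3, -, c0, -⟩ := cent_facts y M m hM8 (by omega) c hc
  obtain ⟨d1, d2, -, -, -, -, -⟩ := cent_facts y M (m + 1) hM8 (by omega) c hc
  have h14 := fourteen y M (m + 1) hM8 (by omega) (le_trans (by norm_num) hbig) κ' hκ'
    (by linarith) c hc
  have hQ0 : 0 ≤ PP y M 2 := Finset.sum_nonneg fun a _ => sq_nonneg _
  have fam := fa_close M.card κ hNN (by linarith) (by linarith)
  have fak := fa_close M.card κ' hNN (by linarith) (by
    have : (1 : ℝ) / 10 ^ 30 ≤ 1 / 2 := by norm_num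
    linarith)
  rw [← hmκ] at fam
  rw [← hm1κ] at fak
  have fam' := abs_le.1 (fam.trans hsm)
  have fak' := abs_le.1 (fak.trans hsm)
  have hq1 : 15993 / 100000 ≤ κ * (1 - κ) := by nlinarith
  have hQ1 : PP y M 2 ≤ 26 / 100 := by
    rw [hv] at hvs
    by_contra hcon
    push Not at hcon
    nlinarith
  have hqq : κ' * (1 - κ') ≤ κ * (1 - κ) + 1 / 10 ^ 30 := by
    rw [hκκ]
    nlinarith
  have hVm : fa M.card m * PP (fun a => y a - c) M 2 ≤ 401 / 10000 := by
    have h1 : fa M.card m ≤ κ * (1 - κ) + 1 / 10 ^ 30 := by linarith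
    have h2 : fa M.card m * PP (fun a => y a - c) M 2 ≤ (κ * (1 - κ) + 1 / 10 ^ 30) * PP y M 2 :=
      mul_le_mul h1 c3 c0 (by positivity)
    rw [add_mul, ← hv] at h2
    nlinarith
  have hVk : fa M.card ((m + 1 : ℕ) : ℝ) * PP (fun a => y a - c) M 2 ≤ 401 / 10000 := by
    have h1 : fa M.card ((m + 1 : ℕ) : ℝ) ≤ κ * (1 - κ) + 2 / 10 ^ 30 := by linarith
    have h2 : fa M.card ((m + 1 : ℕ) : ℝ) * PP (fun a => y a - c) M 2 ≤
        (κ * (1 - κ) + 2 / 10 ^ 30) * PP y M 2 :=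
      mul_le_mul h1 c3 c0 (by positivity)
    rw [add_mul, ← hv] at h2
    nlinarith
  have hfam0 : 0 ≤ fa M.card m * PP (fun a => y a - c) M 2 := by
    refine mul_nonneg ?_ c0
    have : (1 : ℝ) / 10 ^ 30 ≤ 1 / 10 := by norm_num
    linarith
  have hfak0 : 0 ≤ fa M.card ((m + 1 : ℕ) : ℝ) * PP (fun a => y a - c) M 2 := by
    refine mul_nonneg ?_ c0
    have hq1' : 1599 / 10000 ≤ κ' * (1 - κ') := by
      have : (1 : ℝ) / 10 ^ 30 ≤ 1 / 10 ^ 6 := by norm_num
      rw [hκκ]
      nlinarith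
    have : (1 : ℝ) / 10 ^ 30 ≤ 1 / 10 := by norm_num
    linarith
  -- shifts
  have hmc : (m : ℝ) * c = κ * (1 - a) := by rw [hmκ, mul_assoc, hc, hT]
  have hm1c : ((m + 1 : ℕ) : ℝ) * c = κ' * (1 - a) := by rw [hm1κ, mul_assoc, hc, hT]
  have ha1 : 0 ≤ 1 - a := by linarith
  -- the bad event at level m
  have hbad : ∀ t0 A : ℝ, 0 < t0 → t0 ≤ a + κ * (1 - a) → 0 ≤ A → A ≤ 1 →
      401 / 10000 * (1 - A) ≤ A * t0 ^ 2 →
      AV M m (fun K => if ∑ x ∈ K, y x < -a then 1 else 0) ≤ A := by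
    intro t0 A ht0 ht hA0 hA1 hA
    have h := cant_av M m (by omega) (fun K => ∑ a ∈ K, y a - m * c) c1
      (fa M.card m * PP (fun a => y a - c) M 2) (a + κ * (1 - a)) hfam0 c2.le (by linarith)
    refine le_trans ?_ (h.trans (cant_num _ _ t0 A hfam0 hVm ht0 ht hA0 hA1 hA))
    refine AV_mono _ _ _ _ fun K _ => ?_
    rw [hmc]
    split_ifs with h1 h2 h2
    · exact le_rfl
    · exact absurd (by linarith) h2
    · norm_num
    · exact le_rfl
  -- the good event at level m + 1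
  have hgood : ∀ t0 A : ℝ, 0 < t0 → t0 ≤ κ' * (1 - a) → 0 ≤ A → A ≤ 1 →
      401 / 10000 * (1 - A) ≤ A * t0 ^ 2 →
      1 - A ≤ AV M (m + 1) (fun K => i0 (∑ x ∈ K, y x)) := by
    intro t0 A ht0 ht hA0 hA1 hA
    have h := cant_av M (m + 1) (by omega) (fun K => ∑ a ∈ K, y a - ((m + 1 : ℕ) : ℝ) * c) d1
      (fa M.card ((m + 1 : ℕ) : ℝ) * PP (fun a => y a - c) M 2) (κ' * (1 - a)) hfak0 d2.le
      (by linarith)
    have h2 := h.trans (cant_num _ _ t0 A hfak0 hVk ht0 ht hA0 hA1 hA)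
    have h3 : AV M (m + 1) (fun K => i0 (∑ x ∈ K, y x) + (if ∑ a ∈ K, y a -
        ((m + 1 : ℕ) : ℝ) * c ≤ -(κ' * (1 - a)) then 1 else 0)) ≥ 1 := by
      rw [ge_iff_le]
      refine le_trans (AV_const M (m + 1) (by omega) 1).symm.le ?_
      refine AV_mono _ _ _ _ fun K _ => ?_
      rw [hm1c]
      unfold i0
      split_ifs with h1 h2 h2
      · norm_num
      · norm_num
      · norm_num
      · exfalso
        push Not at h1 h2
        have e : κ' * (1 - a) = κ' * (1 - a) := rfl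
        linarith
    rw [AV_add] at h3
    linarith
  have hgood2 : 1421 / 10000 ≤ AV M (m + 1) (fun K => i0 (∑ x ∈ K, y x)) := by
    refine h14.trans ?_
    refine AV_mono _ _ _ _ fun K _ => ?_
    rw [hm1c]
    unfold i0
    have : 0 ≤ κ' * (1 - a) := mul_nonneg (by linarith) ha1
    split_ifs with h1 h2 h2
    · exact le_rfl
    · exact absurd (by linarith) h2
    · norm_num
    · exact le_rfl
  -- main inequality
  have hmain : AV M m (fun K => if ∑ x ∈ K, y x < -a then 1 else 0) + 1 / 3 ≤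
      3 * AV M (m + 1) (fun K => i0 (∑ x ∈ K, y x)) := by
    have hk1 : κ' * (1 - a) ≥ 1999 / 10000 * (1 - a) := mul_le_mul_of_nonneg_right (by linarith) ha1
    have hk2 : κ * (1 - a) ≥ 1999 / 10000 * (1 - a) := mul_le_mul_of_nonneg_right (by linarith) ha1
    rcases le_or_gt a (1 / 4) with h1 | h1
    · have g1 := hgood (1499 / 10000) (6411 / 10000) (by norm_num) (by linarith) (by norm_num)
        (by norm_num) (by norm_num)
      have g2 := hbad (1499 / 10000) (6411 / 10000) (by norm_num) (by linarith) (by norm_num)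
        (by norm_num) (by norm_num)
      linarith
    · rcases le_or_gt a (45 / 100) with h2 | h2
      · have g1 := hgood (10994 / 100000) (7685 / 10000) (by norm_num) (by linarith) (by norm_num)
          (by norm_num) (by norm_num)
        have g2 := hbad (3999 / 10000) (2006 / 10000) (by norm_num) (by linarith) (by norm_num)
          (by norm_num) (by norm_num)
        linarith
      · rcases le_or_gt a (55 / 100) with h3 | h3
        · have g1 := hgood (8995 / 100000) (8322 / 10000) (by norm_num) (by linarith) (by norm_num)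
            (by norm_num) (by norm_num)
          have g2 := hbad (5599 / 10000) (1135 / 10000) (by norm_num) (by linarith) (by norm_num)
            (by norm_num) (by norm_num)
          linarith
        · have g2 := hbad (6399 / 10000) (893 / 10000) (by norm_num) (by linarith) (by norm_num)
            (by norm_num) (by norm_num)
          linarith
  -- binomial relations
  have hCm : (0 : ℝ) < (M.card.choose m : ℝ) := by exact_mod_cast Nat.choose_pos (by omega)
  have hrel : 3 * (M.card.choose m : ℝ) ≤ (M.card.choose (m + 1) : ℝ) := by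
    have := Nat.choose_succ_right_eq M.card m
    have h' : ((M.card.choose (m + 1) * (m + 1) : ℕ) : ℝ) =
        ((M.card.choose m * (M.card - m) : ℕ) : ℝ) := by rw [this]
    rw [Nat.cast_mul, Nat.cast_mul, Nat.cast_sub (by omega)] at h'
    push_cast at h'
    have hm1 : (0 : ℝ) < (m : ℝ) + 1 := by linarith
    have : (M.card.choose m : ℝ) * (3 * ((m : ℝ) + 1)) ≤ (M.card.choose (m + 1) : ℝ) * (m + 1) := by
      rw [h']
      exact mul_le_mul_of_nonneg_left (by linarith) hCm.le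
    nlinarith
  have hrel2 : SS y M (m - 1) (fun s => if s < 1 - a then 1 else 0) ≤
      1 / 3 * (M.card.choose m : ℝ) := by
    have h1 : SS y M (m - 1) (fun s => if s < 1 - a then 1 else 0) ≤ (M.card.choose (m - 1) : ℝ) := by
      rw [← SS_one y M (m - 1)]
      refine SS_mono _ _ _ _ _ fun s => ?_
      split_ifs <;> norm_num
    refine h1.trans ?_
    obtain ⟨m', rfl⟩ : ∃ m', m = m' + 1 := ⟨m - 1, by omega⟩
    simp only [Nat.add_sub_cancel]
    have := Nat.choose_succ_right_eq M.card m'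
    have h' : ((M.card.choose (m' + 1) * (m' + 1) : ℕ) : ℝ) =
        ((M.card.choose m' * (M.card - m') : ℕ) : ℝ) := by rw [this]
    rw [Nat.cast_mul, Nat.cast_mul, Nat.cast_sub (by omega)] at h'
    push_cast at h' hmR ⊢
    have hC' : (0 : ℝ) ≤ (M.card.choose m' : ℝ) := by positivity
    have hm1 : (0 : ℝ) < (m' : ℝ) + 1 := by positivity
    have : (M.card.choose m' : ℝ) * (3 * ((m' : ℝ) + 1)) ≤ (M.card.choose (m' + 1) : ℝ) * (m' + 1) := by
      rw [h']
      exact mul_le_mul_of_nonneg_left (by linarith) hC'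
    nlinarith
  rw [SS_AV y M m (by omega) (fun s => if s < -a then 1 else 0), SS_AV y M (m + 1) (by omega) i0]
  have hlast : 0 ≤ SS y M m (fun s => if 1 ≤ s then 1 else 0) :=
    SS_nonneg _ _ _ _ fun s => by split_ifs <;> norm_num
  have hP0 : 0 ≤ AV M (m + 1) (fun K => i0 (∑ x ∈ K, y x)) := by linarith
  have f1 := mul_le_mul_of_nonneg_right hrel hP0
  have f2 := mul_le_mul_of_nonneg_left hmain hCm.le
  linarith

end Pool.Agent.H49.MK
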