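import Mathlib
import Pool.Agent.H49.MK.SmallB
import Pool.Agent.H49.M4.FinB

/-!
Assembly: from the certificates and the double counting statement to the theorem.
-/

open Finset
open scoped BigOperators

namespace Pool.Agent.H49.MK

open Pool.Agent.H49.L
open Pool.Agent.H49.MMS (goodC goodC_pos)
open Pool.Agent.H49.M4 (LB steps base0 least)

/-- the double counting statement: region A, small second moment -/
def DCst (K0 : ℕ) : Prop :=
  ∀ (α : Type) [DecidableEq α] (y : α → ℝ) (M : Finset α) (k : ℕ), K0 ≤ k →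
    4 * (k - 1) + 3 ≤ M.card → M.card + 3 ≤ 5 * k → ∀ b : ℝ, 0 ≤ b → b ≤ 1 →
    (∀ x ∈ M, y x ≤ 1) → (∀ x ∈ M, -b ≤ y x) → PP y M 1 = b - 1 → PP y M 2 ≤ QA b →
    SS y M (k - 1) (fun s => if s < -1 then 1 else 0) +
      SS y M (k - 2) (fun s => if s < b - 1 then 1 else 0) ≤
      SS y M k i0 + SS y M (k - 1) (fun s => if b ≤ s then 1 else 0)

theorem QA_pos (b : ℝ) : 28 / 100 ≤ QA b := by
  unfold QA; split_ifs <;> norm_num

/-- the inequality for the normalised configuration -/
theorem pair_ineq (hA : CellsA) (hB : CellsB) (K0 : ℕ) (hDC : DCst K0) (α : Type) [DecidableEq α]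
    (y : α → ℝ) (M : Finset α) (k : ℕ) (hk0 : K0 ≤ k) (hk : 2 ≤ k) (hm : 4 * (k - 1) + 3 ≤ M.card)
    (hm5 : M.card + 3 ≤ 5 * k) (hbig : (10 : ℝ) ^ 37 ≤ M.card) (a b : ℝ) (ha0 : 0 ≤ a)
    (hb0 : 0 ≤ b) (ha1 : a ≤ 1) (hb1 : b ≤ 1) (hab : a = 1 ∨ b = 1)
    (hya : ∀ x ∈ M, y x ≤ a) (hyb : ∀ x ∈ M, -b ≤ y x) (hT : PP y M 1 = b - a)
    (hQ : PP y M 2 ≤ 525 / 100)
    (hv : (((k - 1 : ℕ) : ℝ) / M.card) * (1 - ((k - 1 : ℕ) : ℝ) / M.card) * PP y M 2 ≤ 85 / 100) :
    SS y M (k - 1) (fun s => if s < -a then 1 else 0) +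
      SS y M (k - 2) (fun s => if s < b - a then 1 else 0) ≤
      SS y M k i0 + SS y M (k - 1) (fun s => if b ≤ s then 1 else 0) := by
  have hN0 : (0 : ℝ) < M.card := lt_of_lt_of_le (by norm_num) hbig
  have hmR : (4 : ℝ) * ((k - 1 : ℕ) : ℝ) + 3 ≤ M.card := by exact_mod_cast hm
  have hm5R : (M.card : ℝ) + 3 ≤ 5 * (((k - 1 : ℕ) : ℝ) + 1) := by
    have : M.card + 3 ≤ 5 * ((k - 1) + 1) := by omega
    exact_mod_cast this
  obtain ⟨κ, hκ⟩ : ∃ κ : ℝ, κ = (((k - 1 : ℕ) : ℝ) / M.card) := ⟨_, rfl⟩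
  rw [← hκ] at hv
  have hκ0 : 1999 / 10000 ≤ κ := by
    rw [hκ, le_div_iff₀ hN0]
    have : (10 : ℝ) ^ 6 ≤ M.card := le_trans (by norm_num) hbig
    linarith
  have hκ1 : κ ≤ 1 / 4 := by rw [hκ, div_le_iff₀ hN0]; linarith
  obtain ⟨v, hvd⟩ : ∃ v : ℝ, v = κ * (1 - κ) * PP y M 2 := ⟨_, rfl⟩
  rw [← hvd] at hv
  rcases hab with rfl | rfl
  · -- region A
    rcases le_or_gt (PP y M 2) (QA b) with h1 | h1
    · exact hDC α y M k hk0 hm hm5 b hb0 hb1 hya hyb hT h1
    · have hqq : 0 ≤ κ * (1 - κ) := mul_nonneg (by linarith) (by linarith)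
      have hcell := hA κ b v hκ0 hκ1 hb0 hb1 (by
        rw [hvd]; exact mul_le_mul_of_nonneg_left h1.le hqq) hv
      have := QA_pos b
      exact cell_criterion y M k hk hm hbig 1 b κ v le_rfl hb1 ha0 hb0 hκ hvd hT (by linarith)
        (by linarith) hya hyb hcell
  · -- region B
    rcases le_or_gt v (4 / 100) with h1 | h1
    · exact smallB y M k hk hm (by omega) (le_trans (by norm_num) hbig) a κ v ha1 ha0 hκ hvd hκ0 hT h1
    · have hcell := hB κ a v hκ0 hκ1 ha0 ha1 h1.le hv
      have hQ0 : 0 < PP y M 2 := by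
        have h0 : 0 ≤ PP y M 2 := Finset.sum_nonneg fun a _ => sq_nonneg _
        rcases eq_or_lt_of_le h0 with h2 | h2
        · rw [← h2, mul_zero] at hvd; linarith
        · exact h2
      exact cell_criterion y M k hk hm hbig a 1 κ v ha1 le_rfl ha0 hb0 hκ hvd hT (by linarith)
        hQ0 hya hyb hcell

/-- closed form for centred entries -/
theorem closed_form (hA : CellsA) (hB : CellsB) (hD : CellD) (K0 : ℕ) (hDC : DCst K0) (α : Type)
    [Fintype α] [DecidableEq α] (u : α → ℝ) (k r : ℕ) (hk0 : K0 ≤ k) (hk1 : 10 ^ 37 ≤ k)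
    (hr1 : 1 ≤ r) (hrk : r < k) (hcard : Fintype.card α = 4 * k + r) (hu : ∑ a, u a = 0) :
    ((4 * k + r - 1).choose (k - 1) : ℝ) ≤ SS u univ k i0 := by
  have hk37 : (10 : ℝ) ^ 37 ≤ k := by exact_mod_cast hk1
  have hk2 : 2 ≤ k := le_trans (by norm_num) hk1
  have hn : (univ : Finset α).card = 4 * k + r := by rw [Finset.card_univ, hcard]
  have hnR : ((univ : Finset α).card : ℝ) = 4 * k + r := by rw [hn]; push_cast; ring
  have hr1R : (1 : ℝ) ≤ r := by exact_mod_cast hr1
  have hrkR : (r : ℝ) < k := by exact_mod_cast hrk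
  have hk0R : (0 : ℝ) < k := by linarith [show (0 : ℝ) < 10 ^ 37 by norm_num]
  have hPP1 : PP u univ 1 = 0 := by unfold PP; simpa using hu
  have hQ0 : 0 ≤ PP u univ 2 := Finset.sum_nonneg fun a _ => sq_nonneg _
  rcases eq_or_lt_of_le hQ0 with hQz | hQp
  · -- all entries vanish
    have hz : ∀ a, u a = 0 := by
      intro a
      have := (Finset.sum_eq_zero_iff_of_nonneg (fun a _ => sq_nonneg (u a))).1 hQz.symm a
        (Finset.mem_univ a)
      simpa using this
    have hSS : SS u univ k i0 = ((4 * k + r).choose k : ℝ) := by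
      rw [← hn, ← SS_one u univ k]
      unfold SS i0
      refine Finset.sum_congr rfl fun K _ => ?_
      rw [Finset.sum_eq_zero fun a _ => hz a]
      simp
    rw [hSS]
    have h1 : (4 * k + r - 1).choose (k - 1) ≤ (4 * k + r).choose k := by
      have h2 : 4 * k + r = (4 * k + r - 1) + 1 := by omega
      have h3 : k = (k - 1) + 1 := by omega
      calc (4 * k + r - 1).choose (k - 1) ≤
          (4 * k + r - 1).choose (k - 1) + (4 * k + r - 1).choose (k - 1 + 1) :=
            Nat.le_add_right _ _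
        _ = ((4 * k + r - 1) + 1).choose ((k - 1) + 1) := (Nat.choose_succ_succ _ _).symm
        _ = _ := by rw [← h2, ← h3]
    exact_mod_cast h1
  have hNpos : (0 : ℝ) < (univ : Finset α).card := by rw [hnR]; linarith
  obtain ⟨κ, hκ⟩ : ∃ κ : ℝ, κ = (k / (univ : Finset α).card : ℝ) := ⟨_, rfl⟩
  have hκ5 : 1 / 5 ≤ κ := by rw [hκ, hnR, div_le_div_iff₀ (by norm_num) (by linarith)]; linarith
  have hκ4 : κ ≤ 1 / 4 := by rw [hκ, hnR, div_le_div_iff₀ (by linarith) (by norm_num)]; linarith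
  have hq16 : 16 / 100 ≤ κ * (1 - κ) := by nlinarith
  by_cases hreg : ∀ a ∈ (univ : Finset α), u a ^ 2 ≤ κ * (1 - κ) * PP u univ 2
  · -- region D
    have := regD hD u univ k (by omega) (by rw [hn]; omega) (by rw [hnR]; linarith)
      (by rw [← hκ]; linarith) hPP1 hQp (by rw [← hκ]; exact hreg)
    rw [hn] at this
    exact this
  · push Not at hreg
    obtain ⟨a0, -, ha0⟩ := hreg
    -- maximum and minimum
    have hne : (univ : Finset α).Nonempty := ⟨a0, Finset.mem_univ _⟩
    obtain ⟨e, -, he⟩ := Finset.exists_max_image univ u hne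
    obtain ⟨f, -, hf⟩ := Finset.exists_min_image univ u hne
    have heM : ∀ a, u a ≤ u e := fun a => he a (Finset.mem_univ a)
    have hfM : ∀ a, u f ≤ u a := fun a => hf a (Finset.mem_univ a)
    have hnz : u a0 ≠ 0 := by
      intro h0
      rw [h0] at ha0
      have : 0 ≤ κ * (1 - κ) * PP u univ 2 := by positivity
      norm_num at ha0
      linarith
    have hepos : 0 < u e := by
      by_contra hneg
      push Not at hneg
      have h1 : ∀ a ∈ (univ : Finset α), u a ≤ 0 := fun a _ => (heM a).trans hneg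
      have h2 := (Finset.sum_eq_zero_iff_of_nonpos h1).1 hu a0 (Finset.mem_univ _)
      exact hnz h2
    have hfneg : u f < 0 := by
      by_contra hneg
      push Not at hneg
      have h1 : ∀ a ∈ (univ : Finset α), 0 ≤ u a := fun a _ => hneg.trans (hfM a)
      have h2 := (Finset.sum_eq_zero_iff_of_nonneg h1).1 hu a0 (Finset.mem_univ _)
      exact hnz h2
    have hef : e ≠ f := by
      intro h; rw [h] at hepos; linarith
    obtain ⟨s, hs⟩ : ∃ s : ℝ, s = max (u e) (-u f) := ⟨_, rfl⟩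
    have hse : u e ≤ s := by rw [hs]; exact le_max_left _ _
    have hsf : -u f ≤ s := by rw [hs]; exact le_max_right _ _
    have hs0 : 0 < s := lt_of_lt_of_le hepos hse
    have hs2 : κ * (1 - κ) * PP u univ 2 < s ^ 2 := by
      refine lt_of_lt_of_le ha0 ?_
      refine sq_le_sq' ?_ ?_
      · have := hfM a0; linarith
      · exact (heM a0).trans hse
    set y : α → ℝ := fun a => s⁻¹ * u a with hy
    have hsi : 0 < s⁻¹ := inv_pos.2 hs0
    set M : Finset α := (univ.erase e).erase f with hM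
    have hfM' : f ∉ M := Finset.notMem_erase _ _
    have hins1 : insert f M = univ.erase e :=
      Finset.insert_erase (Finset.mem_erase.2 ⟨hef.symm, Finset.mem_univ _⟩)
    have heI : e ∉ insert f M := by rw [hins1]; exact Finset.notMem_erase _ _
    have hins2 : insert e (insert f M) = univ := by
      rw [hins1]; exact Finset.insert_erase (Finset.mem_univ _)
    have hMc : M.card + 2 = 4 * k + r := by
      have h1 : (insert e (insert f M)).card = M.card + 1 + 1 := by
        rw [Finset.card_insert_of_notMem heI, Finset.card_insert_of_notMem hfM']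
      rw [hins2, hn] at h1
      omega
    have hMR : (M.card : ℝ) = 4 * k + r - 2 := by
      have : ((M.card + 2 : ℕ) : ℝ) = ((4 * k + r : ℕ) : ℝ) := by rw [hMc]
      push_cast at this
      linarith
    have hk1R : ((k - 1 : ℕ) : ℝ) = (k : ℝ) - 1 := by
      rw [Nat.cast_sub (by omega)]; push_cast; ring
    have hsum : ∀ i, PP y univ i = y e ^ i + (y f ^ i + PP y M i) := by
      intro i
      rw [← hins2]
      unfold PP
      rw [Finset.sum_insert heI, Finset.sum_insert hfM']
    have h1 := hsum 1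
    have h2 := hsum 2
    rw [hy, PP_scale, hPP1, mul_zero, ← hy] at h1
    rw [hy, PP_scale, ← hy] at h2
    obtain ⟨a, ha⟩ : ∃ a, a = y e := ⟨_, rfl⟩
    obtain ⟨b, hb⟩ : ∃ b, b = -y f := ⟨_, rfl⟩
    have hyf : y f = -b := by rw [hb]; ring
    rw [← ha, hyf] at h1 h2
    have hapos : 0 ≤ a := by rw [ha, hy]; positivity
    have hbpos : 0 ≤ b := by
      rw [hb, hy]
      have : 0 ≤ s⁻¹ * (-u f) := mul_nonneg hsi.le (by linarith)
      linarith
    have ha1 : a ≤ 1 := by
      rw [ha, hy]; show s⁻¹ * u e ≤ 1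
      rw [inv_mul_le_iff₀ hs0]; linarith
    have hb1 : b ≤ 1 := by
      rw [hb, hy]; show -(s⁻¹ * u f) ≤ 1
      have : s⁻¹ * (-u f) ≤ 1 := by rw [inv_mul_le_iff₀ hs0]; linarith
      linarith
    have hab : a = 1 ∨ b = 1 := by
      rcases le_total (u e) (-u f) with h | h
      · right
        rw [max_eq_right h] at hs
        rw [hb, hy]; show -(s⁻¹ * u f) = 1
        rw [hs]
        have : u f ≠ 0 := hfneg.ne
        field_simp
      · left
        rw [max_eq_left h] at hs
        rw [ha, hy]; show s⁻¹ * u e = 1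
        rw [hs]
        exact inv_mul_cancel₀ hepos.ne'
    have hya : ∀ x ∈ M, y x ≤ a := by
      intro x _
      rw [ha, hy]
      exact mul_le_mul_of_nonneg_left (heM x) hsi.le
    have hyb : ∀ x ∈ M, -b ≤ y x := by
      intro x _
      rw [← hyf, hy]
      exact mul_le_mul_of_nonneg_left (hfM x) hsi.le
    have hT : PP y M 1 = b - a := by linarith
    have hQs : κ * (1 - κ) * (s⁻¹ ^ 2 * PP u univ 2) < 1 := by
      have : κ * (1 - κ) * (s⁻¹ ^ 2 * PP u univ 2) = (κ * (1 - κ) * PP u univ 2) / s ^ 2 := by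
        field_simp
      rw [this, div_lt_one (by positivity)]
      exact hs2
    have hQM : κ * (1 - κ) * (PP y M 2 + 1) < 1 := by
      rw [h2] at hQs
      refine lt_of_le_of_lt ?_ hQs
      refine mul_le_mul_of_nonneg_left ?_ (by linarith)
      rcases hab with h | h
      · rw [h]; nlinarith [sq_nonneg b]
      · rw [h]; nlinarith [sq_nonneg a]
    have hQM0 : 0 ≤ PP y M 2 := Finset.sum_nonneg fun a _ => sq_nonneg _
    have hQ525 : PP y M 2 ≤ 525 / 100 := by
      by_contra hcon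
      push Not at hcon
      nlinarith
    have hκ' : (((k - 1 : ℕ) : ℝ) / M.card) ≤ κ := by
      rw [hκ, hk1R, hMR, hnR, div_le_div_iff₀ (by linarith) (by linarith)]
      nlinarith
    have hκ'0 : 0 ≤ (((k - 1 : ℕ) : ℝ) / M.card) := div_nonneg (Nat.cast_nonneg _) (Nat.cast_nonneg _)
    have hv : (((k - 1 : ℕ) : ℝ) / M.card) * (1 - ((k - 1 : ℕ) : ℝ) / M.card) * PP y M 2 ≤
        85 / 100 := by
      generalize (((k - 1 : ℕ) : ℝ) / M.card) = κ' at *
      have h3 : κ' * (1 - κ') ≤ κ * (1 - κ) := by nlinarith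
      have h4 := mul_le_mul_of_nonneg_right h3 hQM0
      linarith
    have hbigM : (10 : ℝ) ^ 37 ≤ M.card := by rw [hMR]; linarith
    have hineq := pair_ineq hA hB K0 hDC α y M k hk0 hk2 (by omega) (by omega) hbigM a b hapos
      hbpos ha1 hb1 hab hya hyb hT hQ525 hv
    have hpc := pair_criterion y M k hk2 e f heI hfM' a b ha.symm hyf hineq
    rw [hins2] at hpc
    have hch : M.card + 1 = 4 * k + r - 1 := by omega
    rw [hch, hy, SS_i0_scale u univ k s⁻¹ hsi] at hpc
    exact hpc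

/-- the base range `4k < n < 5k` -/
theorem base4k (hA : CellsA) (hB : CellsB) (hD : CellD) (K0 : ℕ) (hDC : DCst K0) (k r : ℕ)
    (hk0 : K0 ≤ k) (hk1 : 10 ^ 37 ≤ k) (hr1 : 1 ≤ r) (hrk : r < k) : LB (4 * k + r) k := by
  intro α _ _ x hcard hxs
  have hk2 : 2 ≤ k := le_trans (by norm_num) hk1
  have hkpos : (0 : ℝ) < k := by
    have : 0 < k := by omega
    exact_mod_cast this
  have hcR : (Fintype.card α : ℝ) = 4 * k + r := by rw [hcard]; push_cast; ring
  have hc0 : (0 : ℝ) < Fintype.card α := by rw [hcR]; positivity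
  set xb : ℝ := (∑ a, x a) / Fintype.card α with hxb
  have hxb0 : 0 < xb := div_pos hxs hc0
  set u : α → ℝ := fun a => x a - xb with hu
  have hsum : ∑ a, u a = 0 := by
    rw [hu, Finset.sum_sub_distrib, Finset.sum_const, Finset.card_univ, nsmul_eq_mul, hxb,
      mul_div_cancel₀ _ hc0.ne', sub_self]
  have h := closed_form hA hB hD K0 hDC α u k r hk0 hk1 hr1 hrk hcard hsum
  refine h.trans ?_
  unfold SS goodC
  refine Finset.sum_le_sum fun K hK => ?_
  have hKc := (Finset.mem_powersetCard.1 hK).2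
  have e : ∑ a ∈ K, x a = ∑ a ∈ K, u a + k * xb := by
    rw [hu, Finset.sum_sub_distrib, Finset.sum_const, hKc, nsmul_eq_mul]; ring
  unfold i0
  have hkx : 0 < (k : ℝ) * xb := mul_pos hkpos hxb0
  split_ifs with h1 h2 h2
  · exact le_rfl
  · exact absurd (by rw [e]; linarith) h2
  · norm_num
  · exact le_rfl

/-- the lower bound for all `n ≥ 4k` -/
theorem all4k (hA : CellsA) (hB : CellsB) (hD : CellD) (K0 : ℕ) (hDC : DCst K0) (n k : ℕ)
    (hk0 : K0 ≤ k) (hk1 : 10 ^ 37 ≤ k) (hn : 4 * k ≤ n) : LB n k := by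
  have hk2 : 2 ≤ k := le_trans (by norm_num) hk1
  have hdiv := Nat.div_add_mod n k
  have h4 : 4 ≤ n / k := (Nat.le_div_iff_mul_le (by omega)).2 hn
  obtain ⟨j, hj⟩ := Nat.exists_eq_add_of_le h4
  by_cases h0 : n % k = 0
  · have e : n = 4 * k + j * k := by
      rw [hj, h0] at hdiv
      nlinarith
    rw [e]
    exact steps _ k (by omega) (by omega) (base0 k (by omega)) j
  · have hrk : n % k < k := Nat.mod_lt _ (by omega)
    have e : n = 4 * k + n % k + j * k := by
      rw [hj] at hdiv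
      nlinarith
    rw [e]
    have e2 : (4 * k + n % k + j * k) % k = n % k := by rw [← e]
    exact steps _ k (by omega) (by omega)
      (base4k hA hB hD K0 hDC k (n % k) hk0 hk1 (by omega) hrk) j

end Pool.Agent.H49.MK
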