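import Mathlib
import Pool.Agent.H49.MK.Asm

/-!
Double counting for the small second moment case of region A.
-/

open Finset
open scoped BigOperators

namespace Pool.Agent.H49.MK

open Pool.Agent.H49.L
open Pool.Agent.H49.M4 (swap2)

variable {α : Type} [DecidableEq α]

/-- Cantelli for `j`-subsets of `Z` -/
theorem tailZ (y : α → ℝ) (Z : Finset α) (j : ℕ) (hZ : 8 ≤ Z.card) (hj : j ≤ Z.card) (s t : ℝ)
    (ht : 0 < t) (hfa : 0 ≤ fa Z.card j) (hV : fa Z.card j * PP y Z 2 ≤ s ^ 2) :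
    AV Z j (fun J => if ∑ a ∈ J, y a ≤ (j / Z.card : ℝ) * PP y Z 1 - t then 1 else 0) ≤
      s ^ 2 / (s ^ 2 + t ^ 2) := by
  have hNN : (8 : ℝ) ≤ Z.card := by exact_mod_cast hZ
  have hN0 : (0 : ℝ) < Z.card := by linarith
  obtain ⟨c, hc⟩ : ∃ c : ℝ, (Z.card : ℝ) * c = PP y Z 1 :=
    ⟨PP y Z 1 / Z.card, by rw [mul_comm, div_mul_cancel₀ _ hN0.ne']⟩
  obtain ⟨c1, c2, -, c3, -, c0, -⟩ := cent_facts y Z j hZ hj c hc
  have h := cant_av Z j hj (fun K => ∑ a ∈ K, y a - j * c) c1 (s ^ 2) t (sq_nonneg s)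
    (by
      rw [c2]
      exact (mul_le_mul_of_nonneg_left c3 hfa).trans hV) ht
  refine le_trans ?_ h
  refine AV_mono _ _ _ _ fun J _ => ?_
  have e : (j / Z.card : ℝ) * PP y Z 1 = j * c := by
    rw [← hc]; field_simp
  rw [e]
  split_ifs with h1 h2 h2
  · exact le_rfl
  · exact absurd (by linarith) h2
  · norm_num
  · exact le_rfl

/-- double counting, one type of bad sets -/
theorem dc_one (y : α → ℝ) (M : Finset α) (k j : ℕ) (hkj : k + j ≤ M.card) (θ X P A R : ℝ)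
    (hA : 0 ≤ A)
    (hlow : ∀ J ∈ M.powersetCard j, ∑ a ∈ J, y a < -θ → P ≤ AV (M \ J) k (fun K =>
      if 0 ≤ ∑ a ∈ K, y a ∧ ∑ a ∈ K, y a < X + 3 * (-θ - ∑ a ∈ J, y a) then 1 else 0))
    (hup : ∀ K ∈ M.powersetCard k, 0 ≤ ∑ a ∈ K, y a → AV (M \ K) j (fun J =>
      if ∑ a ∈ J, y a < -θ ∧ ∑ a ∈ K, y a < X + 3 * (-θ - ∑ a ∈ J, y a) then 1 else 0) ≤ A)
    (hR : ((M.card - k).choose j : ℝ) ≤ R * ((M.card - j).choose k : ℝ)) :
    P * SS y M j (fun s => if s < -θ then 1 else 0) ≤ R * A * SS y M k i0 := by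
  set w : Finset α → Finset α → ℝ := fun J K => if ∑ a ∈ J, y a < -θ ∧ (0 ≤ ∑ a ∈ K, y a ∧
    ∑ a ∈ K, y a < X + 3 * (-θ - ∑ a ∈ J, y a)) then 1 else 0 with hw
  have hC1 : (0 : ℝ) < ((M.card - j).choose k : ℝ) := by
    exact_mod_cast Nat.choose_pos (by omega)
  have hC2 : (0 : ℝ) < ((M.card - k).choose j : ℝ) := by
    exact_mod_cast Nat.choose_pos (by omega)
  have h1 : ((M.card - j).choose k : ℝ) * (P * SS y M j (fun s => if s < -θ then 1 else 0)) ≤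
      ∑ J ∈ M.powersetCard j, ∑ K ∈ (M \ J).powersetCard k, w J K := by
    unfold SS
    rw [Finset.mul_sum, Finset.mul_sum]
    refine Finset.sum_le_sum fun J hJ => ?_
    obtain ⟨hJs, hJc⟩ := Finset.mem_powersetCard.1 hJ
    have hcard : (M \ J).card = M.card - j := by
      rw [Finset.card_sdiff_of_subset hJs, hJc]
    beta_reduce
    by_cases hb : ∑ a ∈ J, y a < -θ
    · rw [if_pos hb, mul_one]
      have h2 := hlow J hJ hb
      have h3 : ∑ K ∈ (M \ J).powersetCard k, w J K = ((M.card - j).choose k : ℝ) *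
          AV (M \ J) k (fun K =>
      if 0 ≤ ∑ a ∈ K, y a ∧ ∑ a ∈ K, y a < X + 3 * (-θ - ∑ a ∈ J, y a) then 1 else 0) := by
        unfold AV
        rw [hcard, mul_div_cancel₀ _ hC1.ne']
        refine Finset.sum_congr rfl fun K _ => ?_
        rw [hw]
        simp only [hb, true_and]
      rw [h3]
      exact mul_le_mul_of_nonneg_left h2 hC1.le
    · rw [if_neg hb, mul_zero, mul_zero]
      refine Finset.sum_nonneg fun K _ => ?_
      rw [hw]
      show (0 : ℝ) ≤ if _ then _ else _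
      split_ifs <;> norm_num
  rw [swap2] at h1
  have h4 : ∑ K ∈ M.powersetCard k, ∑ J ∈ (M \ K).powersetCard j, w J K ≤
      ((M.card - k).choose j : ℝ) * (A * SS y M k i0) := by
    unfold SS
    rw [Finset.mul_sum, Finset.mul_sum]
    refine Finset.sum_le_sum fun K hK => ?_
    obtain ⟨hKs, hKc⟩ := Finset.mem_powersetCard.1 hK
    have hcard : (M \ K).card = M.card - k := by
      rw [Finset.card_sdiff_of_subset hKs, hKc]
    unfold i0
    by_cases hg : 0 ≤ ∑ a ∈ K, y a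
    · rw [if_pos hg, mul_one]
      have h2 := hup K hK hg
      have h3 : ∑ J ∈ (M \ K).powersetCard j, w J K = ((M.card - k).choose j : ℝ) *
          AV (M \ K) j (fun J =>
      if ∑ a ∈ J, y a < -θ ∧ ∑ a ∈ K, y a < X + 3 * (-θ - ∑ a ∈ J, y a) then 1 else 0) := by
        unfold AV
        rw [hcard, mul_div_cancel₀ _ hC2.ne']
        refine Finset.sum_congr rfl fun J _ => ?_
        rw [hw]
        simp only [hg, true_and]
      rw [h3]
      exact mul_le_mul_of_nonneg_left h2 hC2.le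
    · rw [if_neg hg, mul_zero, mul_zero]
      refine Finset.sum_nonpos fun J _ => ?_
      rw [hw]
      show (if _ then _ else _ : ℝ) ≤ 0
      rw [if_neg (fun h => hg h.2.1)]
  have hG0 : 0 ≤ SS y M k i0 := SS_nonneg _ _ _ _ fun s => by unfold i0; split_ifs <;> norm_num
  have h5 := h1.trans h4
  have h6 : ((M.card - k).choose j : ℝ) * (A * SS y M k i0) ≤
      R * ((M.card - j).choose k : ℝ) * (A * SS y M k i0) :=
    mul_le_mul_of_nonneg_right hR (mul_nonneg hA hG0)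
  have h7 : ((M.card - j).choose k : ℝ) * (P * SS y M j (fun s => if s < -θ then 1 else 0)) ≤
      ((M.card - j).choose k : ℝ) * (R * A * SS y M k i0) := by
    refine (h5.trans h6).trans (le_of_eq ?_)
    ring
  exact le_of_mul_le_mul_left h7 hC1

/-- given a good `K`, few bad sets `J` -/
theorem up_bound (y : α → ℝ) (M : Finset α) (k j : ℕ) (K : Finset α) (hK : K ∈ M.powersetCard k)
    (hZ : 8 ≤ M.card - k) (hj : j ≤ M.card - k) (b θ X s Ks : ℝ) (hb : b ≤ 1)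
    (hKs : Ks ≤ 1 / 3) (hκ : (j : ℝ) ≤ Ks * (M.card - k)) (hT : PP y M 1 = b - 1)
    (hx : 0 ≤ ∑ a ∈ K, y a) (ht : 0 < θ - Ks * (1 - b + X))
    (hfa : 0 ≤ fa (M.card - k) j) (hV : fa (M.card - k) j * PP y M 2 ≤ s ^ 2) :
    AV (M \ K) j (fun J => if ∑ a ∈ J, y a < -θ ∧
      ∑ a ∈ K, y a < X + 3 * (-θ - ∑ a ∈ J, y a) then 1 else 0) ≤
      s ^ 2 / (s ^ 2 + (θ - Ks * (1 - b + X)) ^ 2) := by
  obtain ⟨hKs', hKc⟩ := Finset.mem_powersetCard.1 hK
  have hkM : k ≤ M.card := by rw [← hKc]; exact Finset.card_le_card hKs'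
  have hcard : (M \ K).card = M.card - k := by
    rw [Finset.card_sdiff_of_subset hKs', hKc]
  have hcR : ((M \ K).card : ℝ) = M.card - k := by
    rw [hcard, Nat.cast_sub hkM]
  have hNpos : (0 : ℝ) < M.card - k := by
    have : (8 : ℝ) ≤ ((M.card - k : ℕ) : ℝ) := by exact_mod_cast hZ
    rw [Nat.cast_sub hkM] at this
    linarith
  have hP2 : PP y (M \ K) 2 ≤ PP y M 2 :=
    Finset.sum_le_sum_of_subset_of_nonneg Finset.sdiff_subset fun a _ _ => sq_nonneg _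
  have hP1 : PP y (M \ K) 1 = b - 1 - ∑ a ∈ K, y a := by
    have h := Finset.sum_sdiff (f := y) hKs'
    have h2 : ∑ a ∈ M, y a = b - 1 := by have := hT; unfold PP at this; simpa using this
    unfold PP
    simp only [pow_one]
    linarith
  have h := tailZ y (M \ K) j (by rw [hcard]; exact hZ) (by rw [hcard]; exact hj) s
    (θ - Ks * (1 - b + X)) ht (by rw [hcR]; exact hfa)
    (by rw [hcR]; exact (mul_le_mul_of_nonneg_left hP2 hfa).trans hV)
  refine le_trans ?_ h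
  refine AV_mono _ _ _ _ fun J _ => ?_
  rw [hcR, hP1]
  set κ : ℝ := (j : ℝ) / (M.card - k) with hκd
  have hκ1 : κ ≤ Ks := by rw [hκd, div_le_iff₀ hNpos]; exact hκ
  have hκ0 : 0 ≤ κ := div_nonneg (Nat.cast_nonneg _) hNpos.le
  set x := ∑ a ∈ K, y a with hxd
  by_cases hc : ∑ a ∈ J, y a < -θ ∧ x < X + 3 * (-θ - ∑ a ∈ J, y a)
  · rw [if_pos hc, if_pos]
    obtain ⟨h1, h2⟩ := hc
    have h3 : κ * (1 - b + x) ≤ Ks * (1 - b + x) := mul_le_mul_of_nonneg_right hκ1 (by linarith)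
    rcases le_or_gt x X with h4 | h4
    · have h5 : Ks * (1 - b + x) ≤ Ks * (1 - b + X) :=
        mul_le_mul_of_nonneg_left (by linarith) (by linarith)
      nlinarith
    · have h5 : Ks * (x - X) ≤ 1 / 3 * (x - X) := mul_le_mul_of_nonneg_right hKs (by linarith)
      nlinarith
  · rw [if_neg hc]
    split_ifs <;> norm_num

omit [DecidableEq α] in
theorem AV_le_one (M : Finset α) (m : ℕ) (hm : m ≤ M.card) (f : Finset α → ℝ) (hf : ∀ K, f K ≤ 1) :
    AV M m f ≤ 1 := by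
  refine (AV_mono M m f (fun _ => 1) fun K _ => hf K).trans ?_
  rw [AV_const M m hm]

theorem ratio1 (N k : ℕ) (hk : 1 ≤ k) (hkN : k ≤ N) :
    ((N - k + 1 : ℕ) : ℝ) * ((N - k).choose (k - 1) : ℝ) = k * ((N - (k - 1)).choose k : ℝ) := by
  have h := Nat.add_one_mul_choose_eq (N - k) (k - 1)
  have e1 : N - (k - 1) = N - k + 1 := by omega
  have e2 : k - 1 + 1 = k := by omega
  rw [e2] at h
  rw [e1]
  have h' : (((N - k + 1) * (N - k).choose (k - 1) : ℕ) : ℝ) =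
    (((N - k + 1).choose k * k : ℕ) : ℝ) := by rw [h]
  rw [Nat.cast_mul, Nat.cast_mul] at h'
  rw [h']; ring

theorem ratio2 (N k : ℕ) (hk : 2 ≤ k) (hkN : k ≤ N) :
    ((N - k + 2 : ℕ) : ℝ) * ((N - k + 1 : ℕ) : ℝ) * ((N - k).choose (k - 2) : ℝ) =
      k * ((k - 1 : ℕ) : ℝ) * ((N - (k - 2)).choose k : ℝ) := by
  have h := Nat.add_one_mul_choose_eq (N - k) (k - 2)
  have h2 := Nat.add_one_mul_choose_eq (N - k + 1) (k - 1)
  have e1 : N - (k - 2) = N - k + 1 + 1 := by omega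
  have e2 : k - 2 + 1 = k - 1 := by omega
  have e3 : k - 1 + 1 = k := by omega
  have e4 : N - k + 2 = N - k + 1 + 1 := by omega
  rw [e2] at h
  rw [e3] at h2
  rw [e1, e4]
  have h' : (((N - k + 1) * (N - k).choose (k - 2) : ℕ) : ℝ) =
    (((N - k + 1).choose (k - 1) * (k - 1) : ℕ) : ℝ) := by rw [h]
  have h2' : (((N - k + 1 + 1) * (N - k + 1).choose (k - 1) : ℕ) : ℝ) =
    (((N - k + 1 + 1).choose k * k : ℕ) : ℝ) := by rw [h2]
  rw [Nat.cast_mul, Nat.cast_mul] at h' h2'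
  rw [mul_assoc, h', ← mul_assoc, h2']; ring

/-- the double counting bound with abstract parameters -/
theorem DC_param (y : α → ℝ) (M : Finset α) (k : ℕ) (hk : 3 ≤ k) (hm : 4 * (k - 1) + 3 ≤ M.card)
    (hbig : (10 : ℝ) ^ 31 ≤ M.card) (b Ks Q0 s X1 X2 P1 P2 E1 E2 : ℝ)
    (hb1 : b ≤ 1) (hT : PP y M 1 = b - 1) (hQ : PP y M 2 ≤ Q0) (hQ01 : Q0 ≤ 1)
    (hKs0 : 0 ≤ Ks) (hKs : Ks ≤ 1 / 3) (hkK : (k : ℝ) ≤ Ks * (M.card - k + 1))
    (hs : 0 < s) (hs2 : Ks * (1 - Ks) * Q0 + 1 / 10 ^ 9 ≤ s ^ 2) 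
    (hP1 : 0 < P1) (hP2 : 0 < P2)
    (hlow1 : ∀ J ∈ M.powersetCard (k - 1), ∑ a ∈ J, y a < -1 → P1 ≤ AV (M \ J) k (fun K =>
      if 0 ≤ ∑ a ∈ K, y a ∧ ∑ a ∈ K, y a < X1 + 3 * (-1 - ∑ a ∈ J, y a) then 1 else 0))
    (hlow2 : ∀ J ∈ M.powersetCard (k - 2), ∑ a ∈ J, y a < -(1 - b) → P2 ≤ AV (M \ J) k (fun K =>
      if 0 ≤ ∑ a ∈ K, y a ∧ ∑ a ∈ K, y a < X2 + 3 * (-(1 - b) - ∑ a ∈ J, y a) then 1 else 0))
    (ht1 : 0 < 1 - Ks * (1 - b + X1))
    (hE1 : Ks * (s ^ 2 / (s ^ 2 + (1 - Ks * (1 - b + X1)) ^ 2)) ≤ E1)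
    (hE2 : Ks ^ 2 ≤ E2 ∨ (0 < (1 - b) - Ks * (1 - b + X2) ∧
      Ks ^ 2 * (s ^ 2 / (s ^ 2 + ((1 - b) - Ks * (1 - b + X2)) ^ 2)) ≤ E2))
    (hsum : E1 / P1 + E2 / P2 ≤ 1) :
    SS y M (k - 1) (fun s => if s < -1 then 1 else 0) +
      SS y M (k - 2) (fun s => if s < b - 1 then 1 else 0) ≤
      SS y M k i0 + SS y M (k - 1) (fun s => if b ≤ s then 1 else 0) := by
  have hN0 : (0 : ℝ) < M.card := lt_of_lt_of_le (by norm_num) hbig
  have hkM : k ≤ M.card := by omega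
  have hmR : (4 : ℝ) * (k - 1) + 3 ≤ M.card := by
    have h1 : (((k - 1 : ℕ) : ℝ)) = (k : ℝ) - 1 := by rw [Nat.cast_sub (by omega)]; push_cast; ring
    have h2 : (4 : ℝ) * ((k - 1 : ℕ) : ℝ) + 3 ≤ M.card := by exact_mod_cast hm
    rw [h1] at h2; exact h2
  have hkR : (3 : ℝ) ≤ k := by exact_mod_cast hk
  have hNk : (10 : ℝ) ^ 30 ≤ (M.card : ℝ) - k := by
    have : (10 : ℝ) ^ 30 ≤ 1 / 2 * 10 ^ 31 := by norm_num
    linarith
  have hNk0 : (0 : ℝ) < (M.card : ℝ) - k := lt_of_lt_of_le (by norm_num) hNk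
  have hNk8 : 8 ≤ M.card - k := by
    have h1 : (8 : ℝ) ≤ ((M.card - k : ℕ) : ℝ) := by
      rw [Nat.cast_sub hkM]; exact le_trans (by norm_num) hNk
    exact_mod_cast h1
  have hQn : 0 ≤ PP y M 2 := Finset.sum_nonneg fun a _ => sq_nonneg _
  have hG0 : 0 ≤ SS y M k i0 := SS_nonneg _ _ _ _ fun s => by unfold i0; split_ifs <;> norm_num
  -- variance bounds
  have hvar : ∀ j : ℕ, j + 1 ≤ k → (j : ℝ) ≤ Ks * (M.card - k) ∧ 0 ≤ fa (M.card - k) j ∧
      fa (M.card - k) j * PP y M 2 ≤ s ^ 2 := by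
    intro j hj
    have hjR : (j : ℝ) + 1 ≤ k := by exact_mod_cast hj
    have hj0 : (0 : ℝ) ≤ j := Nat.cast_nonneg _
    have h1 : (j : ℝ) ≤ Ks * (M.card - k) := by nlinarith
    obtain ⟨κ, hκ⟩ : ∃ κ : ℝ, κ = (j : ℝ) / (M.card - k) := ⟨_, rfl⟩
    have hjκ : (j : ℝ) = κ * (M.card - k) := by rw [hκ, div_mul_cancel₀ _ hNk0.ne']
    have hκ0 : 0 ≤ κ := by rw [hκ]; exact div_nonneg hj0 hNk0.le
    have hκ1 : κ ≤ Ks := by rw [hκ, div_le_iff₀ hNk0]; exact h1
    have hfac := fa_close ((M.card : ℝ) - k) κ (le_trans (by norm_num) hNk) hκ0 (by linarith)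
    rw [← hjκ] at hfac
    have hsm : (1 : ℝ) / ((M.card : ℝ) - k) ≤ 1 / 10 ^ 30 :=
      div_le_div_of_nonneg_left (by norm_num) (by norm_num) hNk
    have h3 := abs_le.1 (hfac.trans hsm)
    have h4 : 0 ≤ fa ((M.card : ℝ) - k) j := by
      unfold fa
      refine div_nonneg (mul_nonneg hj0 ?_) (mul_nonneg hNk0.le ?_)
      · nlinarith
      · have : (1 : ℝ) ≤ 10 ^ 30 := by norm_num
        linarith
    have h5 : κ * (1 - κ) ≤ Ks * (1 - Ks) := by nlinarith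
    refine ⟨h1, h4, ?_⟩
    have h6 : fa ((M.card : ℝ) - k) j ≤ Ks * (1 - Ks) + 1 / 10 ^ 30 := by linarith
    have h7 : 0 ≤ Q0 := hQn.trans hQ
    have h8 : fa ((M.card : ℝ) - k) j * PP y M 2 ≤ (Ks * (1 - Ks) + 1 / 10 ^ 30) * Q0 :=
      mul_le_mul h6 hQ hQn (by nlinarith)
    refine h8.trans (le_trans ?_ hs2)
    have : (1 : ℝ) / 10 ^ 30 * Q0 ≤ 1 / 10 ^ 9 := by
      have h9 : (1 : ℝ) / 10 ^ 30 * Q0 ≤ 1 / 10 ^ 30 * 1 :=
        mul_le_mul_of_nonneg_left hQ01 (by norm_num)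
      exact h9.trans (by norm_num)
    linarith
  -- type 1
  obtain ⟨v1, v2, v3⟩ := hvar (k - 1) (by omega)
  have t1 := dc_one y M k (k - 1) (by omega) 1 X1 P1 (s ^ 2 / (s ^ 2 + (1 - Ks * (1 - b + X1)) ^ 2))
    Ks (by positivity) hlow1
    (fun K hK hx => up_bound y M k (k - 1) K hK hNk8 (by omega) b 1 X1 s Ks hb1 hKs v1 hT hx
      ht1 v2 v3) (by
      have h := ratio1 M.card k (by omega) hkM
      have hC : (0 : ℝ) ≤ ((M.card - (k - 1)).choose k : ℝ) := Nat.cast_nonneg _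
      have e : ((M.card - k + 1 : ℕ) : ℝ) = M.card - k + 1 := by
        rw [Nat.cast_add, Nat.cast_sub hkM]; push_cast; ring
      rw [e] at h
      have h2 : (0 : ℝ) < (M.card : ℝ) - k + 1 := by linarith
      refine le_of_mul_le_mul_left ?_ h2
      rw [h]
      calc (k : ℝ) * ((M.card - (k - 1)).choose k : ℝ) ≤
          (Ks * (M.card - k + 1)) * ((M.card - (k - 1)).choose k : ℝ) :=
            mul_le_mul_of_nonneg_right hkK hC
        _ = _ := by ring)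
  have t1' : SS y M (k - 1) (fun s => if s < -1 then 1 else 0) ≤ E1 / P1 * SS y M k i0 := by
    rw [div_mul_eq_mul_div, le_div_iff₀ hP1, mul_comm]
    exact t1.trans (mul_le_mul_of_nonneg_right hE1 hG0)
  -- type 2
  obtain ⟨w1, w2, w3⟩ := hvar (k - 2) (by omega)
  have hR2 : ((M.card - k).choose (k - 2) : ℝ) ≤ Ks ^ 2 * ((M.card - (k - 2)).choose k : ℝ) := by
    have h := ratio2 M.card k (by omega) hkM
    have hC : (0 : ℝ) ≤ ((M.card - (k - 2)).choose k : ℝ) := Nat.cast_nonneg _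
    have e : ((M.card - k + 1 : ℕ) : ℝ) = M.card - k + 1 := by
      rw [Nat.cast_add, Nat.cast_sub hkM]; push_cast; ring
    have e2 : ((M.card - k + 2 : ℕ) : ℝ) = M.card - k + 2 := by
      rw [Nat.cast_add, Nat.cast_sub hkM]; push_cast; ring
    have e3 : ((k - 1 : ℕ) : ℝ) = (k : ℝ) - 1 := by rw [Nat.cast_sub (by omega)]; push_cast; ring
    rw [e, e2, e3] at h
    have h2 : (0 : ℝ) < ((M.card : ℝ) - k + 2) * (M.card - k + 1) :=
      mul_pos (by linarith) (by linarith)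
    refine le_of_mul_le_mul_left ?_ h2
    rw [h]
    have h3 : (k : ℝ) * (k - 1) ≤ Ks ^ 2 * (((M.card : ℝ) - k + 2) * (M.card - k + 1)) := by
      have h4 : (k : ℝ) - 1 ≤ Ks * (M.card - k + 2) := by nlinarith
      calc (k : ℝ) * (k - 1) ≤ (Ks * (M.card - k + 1)) * (Ks * (M.card - k + 2)) :=
            mul_le_mul hkK h4 (by linarith) (mul_nonneg hKs0 (by linarith))
        _ = _ := by ring
    calc (k : ℝ) * (k - 1) * ((M.card - (k - 2)).choose k : ℝ) ≤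
        (Ks ^ 2 * (((M.card : ℝ) - k + 2) * (M.card - k + 1))) * ((M.card - (k - 2)).choose k : ℝ) :=
          mul_le_mul_of_nonneg_right h3 hC
      _ = _ := by ring
  have t2' : SS y M (k - 2) (fun s => if s < b - 1 then 1 else 0) ≤ E2 / P2 * SS y M k i0 := by
    rw [div_mul_eq_mul_div, le_div_iff₀ hP2, mul_comm]
    have e : (fun s : ℝ => if s < b - 1 then (1 : ℝ) else 0) =
        (fun s : ℝ => if s < -(1 - b) then (1 : ℝ) else 0) := by
      funext s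
      rw [show b - 1 = -(1 - b) by ring]
    rw [e]
    rcases hE2 with hE | ⟨ht2, hE⟩
    · have t2 := dc_one y M k (k - 2) (by omega) (1 - b) X2 P2 1 (Ks ^ 2) (by norm_num) hlow2
        (fun K hK hx => by
          have hcard : (M \ K).card = M.card - k := by
            obtain ⟨h1, h2⟩ := Finset.mem_powersetCard.1 hK
            rw [Finset.card_sdiff_of_subset h1, h2]
          refine AV_le_one _ _ (by rw [hcard]; omega) _ fun J => ?_
          split_ifs <;> norm_num) hR2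
      rw [mul_one] at t2
      exact t2.trans (mul_le_mul_of_nonneg_right hE hG0)
    · have t2 := dc_one y M k (k - 2) (by omega) (1 - b) X2 P2
        (s ^ 2 / (s ^ 2 + ((1 - b) - Ks * (1 - b + X2)) ^ 2)) (Ks ^ 2) (by positivity) hlow2
        (fun K hK hx => up_bound y M k (k - 2) K hK hNk8 (by omega) b (1 - b) X2 s Ks hb1 hKs w1
          hT hx ht2 w2 w3) hR2
      exact t2.trans (mul_le_mul_of_nonneg_right hE hG0)
  have hlast : 0 ≤ SS y M (k - 1) (fun s => if b ≤ s then 1 else 0) :=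
    SS_nonneg _ _ _ _ fun s => by split_ifs <;> norm_num
  have hfin := mul_le_mul_of_nonneg_right hsum hG0
  linarith

end Pool.Agent.H49.MK
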