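import Mathlib
import Pool.Agent.H49.MK.DCa

/-!
Double counting: the two regimes of the density, with numerical hypotheses.
-/

open Finset
open scoped BigOperators

namespace Pool.Agent.H49.MK

open Pool.Agent.H49.L

/-- window lemma, type 2 -/
def Win2 : Prop := ∀ (α : Type) [DecidableEq α] (x : α → ℝ) (Z : Finset α) (k : ℕ),
    (10 : ℝ) ^ 30 ≤ Z.card → 3 * k ≤ Z.card → Z.card ≤ 4 * k → ∀ τ s X : ℝ, PP x Z 1 = τ →
    0 ≤ τ → 0 < s → fa Z.card k * PP x Z 2 ≤ s ^ 2 → 286 / 100 * s ≤ X →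
    1544 / 10000 ≤ AV Z k (fun K => if 0 ≤ ∑ a ∈ K, x a ∧ ∑ a ∈ K, x a < X + 3 * τ then 1 else 0)

/-- window lemma, type 1, regime I -/
def Win1a : Prop := ∀ (α : Type) [DecidableEq α] (x : α → ℝ) (Z : Finset α) (k : ℕ),
    (10 : ℝ) ^ 30 ≤ Z.card → (k : ℝ) ≤ 3001 / 10000 * Z.card → Z.card ≤ 4 * k →
    ∀ b ρ s X : ℝ, 0 ≤ b → 0 ≤ ρ → PP x Z 1 = b + ρ → 0 < s →
    fa Z.card k * PP x Z 2 ≤ s ^ 2 → 330 / 100 * s ≤ X → 2 * b ≤ 3 * X →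
    1544 / 10000 ≤ AV Z k (fun K => if 0 ≤ ∑ a ∈ K, x a ∧ ∑ a ∈ K, x a < X + 3 * ρ then 1 else 0)

/-- window lemma, type 1, regime II -/
def Win1b : Prop := ∀ (α : Type) [DecidableEq α] (x : α → ℝ) (Z : Finset α) (k : ℕ),
    (10 : ℝ) ^ 30 ≤ Z.card → 3 * k ≤ Z.card → 2999 / 10000 * (Z.card : ℝ) ≤ k →
    ∀ b ρ s X m0 p1 : ℝ, 0 ≤ b → 0 ≤ ρ → PP x Z 1 = b + ρ → 0 < s →
    fa Z.card k * PP x Z 2 ≤ s ^ 2 → 286 / 100 * s ≤ X → 0 ≤ m0 → m0 ≤ 1 →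
    m0 * s ≤ 2999 / 10000 * b →
    p1 ≤ 2062 / 10000 * (7496 / 10000 + 1399 / 1000 * m0 - 572 / 1000 * m0 ^ 2 -
      241 / 1000 * m0 ^ 4) → p1 ≤ 275 / 1000 → b < 3 * X →
    p1 + s ^ 2 / (s ^ 2 + (X - b / 3) ^ 2) ≤ 1 / 2 →
    p1 ≤ AV Z k (fun K => if 0 ≤ ∑ a ∈ K, x a ∧ ∑ a ∈ K, x a < X + 3 * ρ then 1 else 0)

variable {α : Type} [DecidableEq α]

omit [DecidableEq α] in
theorem var_le (y : α → ℝ) (Z : Finset α) (k : ℕ) (hbig : (10 : ℝ) ^ 30 ≤ Z.card) (Ks Q0 s : ℝ)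
    (hKs : Ks ≤ 1 / 3) (hk : (k : ℝ) ≤ Ks * Z.card) (hQ : PP y Z 2 ≤ Q0) (hQ01 : Q0 ≤ 1)
    (hs2 : Ks * (1 - Ks) * Q0 + 1 / 10 ^ 9 ≤ s ^ 2) : fa Z.card k * PP y Z 2 ≤ s ^ 2 := by
  have hN0 : (0 : ℝ) < Z.card := lt_of_lt_of_le (by norm_num) hbig
  have hj0 : (0 : ℝ) ≤ k := Nat.cast_nonneg _
  have hQn : 0 ≤ PP y Z 2 := Finset.sum_nonneg fun a _ => sq_nonneg _
  obtain ⟨κ, hκ⟩ : ∃ κ : ℝ, κ = (k : ℝ) / Z.card := ⟨_, rfl⟩
  have hjκ : (k : ℝ) = κ * Z.card := by rw [hκ, div_mul_cancel₀ _ hN0.ne']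
  have hκ0 : 0 ≤ κ := by rw [hκ]; exact div_nonneg hj0 hN0.le
  have hκ1 : κ ≤ Ks := by rw [hκ, div_le_iff₀ hN0]; exact hk
  have hfac := fa_close (Z.card : ℝ) κ (le_trans (by norm_num) hbig) hκ0 (by linarith)
  rw [← hjκ] at hfac
  have hsm : (1 : ℝ) / (Z.card : ℝ) ≤ 1 / 10 ^ 30 :=
    div_le_div_of_nonneg_left (by norm_num) (by norm_num) hbig
  have h3 := abs_le.1 (hfac.trans hsm)
  have h5 : κ * (1 - κ) ≤ Ks * (1 - Ks) := by nlinarith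
  have h6 : fa (Z.card : ℝ) k ≤ Ks * (1 - Ks) + 1 / 10 ^ 30 := by linarith
  have h7 : 0 ≤ Q0 := hQn.trans hQ
  have h8 : fa (Z.card : ℝ) k * PP y Z 2 ≤ (Ks * (1 - Ks) + 1 / 10 ^ 30) * Q0 :=
    mul_le_mul h6 hQ hQn (by nlinarith)
  refine h8.trans (le_trans ?_ hs2)
  have : (1 : ℝ) / 10 ^ 30 * Q0 ≤ 1 / 10 ^ 9 := by
    have h9 : (1 : ℝ) / 10 ^ 30 * Q0 ≤ 1 / 10 ^ 30 * 1 :=
      mul_le_mul_of_nonneg_left hQ01 (by norm_num)
    exact h9.trans (by norm_num)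
  linarith

/-- facts about the complement of a bad set -/
theorem compl_facts (y : α → ℝ) (M J : Finset α) (j : ℕ) (hJ : J ∈ M.powersetCard j) (b Q0 : ℝ)
    (hT : PP y M 1 = b - 1) (hQ : PP y M 2 ≤ Q0) :
    (M \ J).card = M.card - j ∧ PP y (M \ J) 1 = b - 1 - ∑ a ∈ J, y a ∧
      PP y (M \ J) 2 ≤ Q0 := by
  obtain ⟨h1, h2⟩ := Finset.mem_powersetCard.1 hJ
  refine ⟨by rw [Finset.card_sdiff_of_subset h1, h2], ?_, ?_⟩
  · have h := Finset.sum_sdiff (f := y) h1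
    have h3 : ∑ a ∈ M, y a = b - 1 := by have := hT; unfold PP at this; simpa using this
    unfold PP
    simp only [pow_one]
    linarith
  · refine le_trans ?_ hQ
    exact Finset.sum_le_sum_of_subset_of_nonneg Finset.sdiff_subset fun a _ _ => sq_nonneg _

theorem cant_anti (s t t0 : ℝ) (hs : 0 < s) (h0 : 0 < t0) (h : t0 ≤ t) :
    s ^ 2 / (s ^ 2 + t ^ 2) ≤ s ^ 2 / (s ^ 2 + t0 ^ 2) := by
  refine div_le_div_of_nonneg_left (by positivity) (by positivity) ?_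
  have := pow_le_pow_left₀ h0.le h 2
  linarith

/-- regime II -/
theorem DC_II (hW2 : Win2) (hW1 : Win1b) (y : α → ℝ) (M : Finset α) (k : ℕ) (hk : 3 ≤ k)
    (hm : 4 * (k - 1) + 3 ≤ M.card) (hm5 : M.card + 3 ≤ 5 * k)
    (hbig : (10 : ℝ) ^ 31 ≤ M.card) (b : ℝ)
    (hT : PP y M 1 = b - 1)
    (hreg : 2999 / 10000 * ((M.card : ℝ) - k + 1) ≤ k)
    (b0 b1 Q0 s m0 P1 E1 E2 : ℝ) (hbb0 : b0 ≤ b) (hbb1 : b ≤ b1) (hb00 : 0 ≤ b0) (hb11 : b1 ≤ 1)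
    (hQ : PP y M 2 ≤ Q0) (hQ01 : Q0 ≤ 1) (hs : 0 < s)
    (hs2 : (1 / 3) * (1 - 1 / 3) * Q0 + 1 / 10 ^ 9 ≤ s ^ 2)
    (hm0 : 0 ≤ m0) (hm1 : m0 ≤ 1) (hm0s : m0 * s ≤ 2999 / 10000 * b0) (hP0 : 0 < P1)
    (hp1 : P1 ≤ 2062 / 10000 * (7496 / 10000 + 1399 / 1000 * m0 - 572 / 1000 * m0 ^ 2 -
      241 / 1000 * m0 ^ 4)) (hp2 : P1 ≤ 275 / 1000) (hbX : b1 < 3 * (286 / 100 * s))
    (hp3 : P1 + s ^ 2 / (s ^ 2 + (286 / 100 * s - b1 / 3) ^ 2) ≤ 1 / 2)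
    (ht1 : 0 < 1 - 1 / 3 * (1 - b0 + 286 / 100 * s))
    (hE1 : 1 / 3 * (s ^ 2 / (s ^ 2 + (1 - 1 / 3 * (1 - b0 + 286 / 100 * s)) ^ 2)) ≤ E1)
    (hE2 : (1 / 3 : ℝ) ^ 2 ≤ E2 ∨ (0 < (1 - b1) - 1 / 3 * (1 - b1 + 286 / 100 * s) ∧
      (1 / 3) ^ 2 * (s ^ 2 / (s ^ 2 + ((1 - b1) - 1 / 3 * (1 - b1 + 286 / 100 * s)) ^ 2)) ≤ E2))
    (hsum : E1 / P1 + E2 / (1544 / 10000) ≤ 1) :
    SS y M (k - 1) (fun s => if s < -1 then 1 else 0) +
      SS y M (k - 2) (fun s => if s < b - 1 then 1 else 0) ≤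
      SS y M k i0 + SS y M (k - 1) (fun s => if b ≤ s then 1 else 0) := by
  have hN0 : (0 : ℝ) < M.card := lt_of_lt_of_le (by norm_num) hbig
  have hkM : k ≤ M.card := by omega
  have hmR : (4 : ℝ) * (k - 1) + 3 ≤ M.card := by
    have h1 : (((k - 1 : ℕ) : ℝ)) = (k : ℝ) - 1 := by rw [Nat.cast_sub (by omega)]; push_cast; ring
    have h2 : (4 : ℝ) * ((k - 1 : ℕ) : ℝ) + 3 ≤ M.card := by exact_mod_cast hm
    rw [h1] at h2; exact h2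
  have hkR : (3 : ℝ) ≤ k := by exact_mod_cast hk
  have hcast : ∀ j : ℕ, j ≤ k → ((M.card - j : ℕ) : ℝ) = M.card - j := by
    intro j hj; rw [Nat.cast_sub (by omega)]
  have hbigj : ∀ j : ℕ, j ≤ k → (10 : ℝ) ^ 30 ≤ ((M.card - j : ℕ) : ℝ) := by
    intro j hj
    rw [hcast j hj]
    have h1 : (j : ℝ) ≤ k := by exact_mod_cast hj
    have : (10 : ℝ) ^ 30 ≤ 1 / 2 * 10 ^ 31 := by norm_num
    linarith
  have h1k : (((k - 1 : ℕ) : ℝ)) = (k : ℝ) - 1 := by rw [Nat.cast_sub (by omega)]; push_cast; ring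
  have h2k : (((k - 2 : ℕ) : ℝ)) = (k : ℝ) - 2 := by rw [Nat.cast_sub (by omega)]; push_cast; ring
  refine DC_param y M k hk hm hbig b (1 / 3) Q0 s (286 / 100 * s) (286 / 100 * s) P1 (1544 / 10000)
    E1 E2 (by linarith) hT hQ hQ01 (by norm_num) le_rfl (by linarith) hs hs2 hP0
    (by norm_num) ?_ ?_ (by linarith) ?_ ?_ hsum
  · intro J hJ hbad
    obtain ⟨c1, c2, c3⟩ := compl_facts y M J (k - 1) hJ b Q0 hT hQ
    have hZ := hbigj (k - 1) (by omega)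
    have hZR : ((M \ J).card : ℝ) = M.card - k + 1 := by
      rw [c1, hcast _ (by omega), h1k]; ring
    exact hW1 α y (M \ J) k (by rw [c1]; exact hZ) (by rw [c1]; omega) (by rw [hZR]; exact hreg)
      b (-1 - ∑ a ∈ J, y a) s (286 / 100 * s) m0 P1 (by linarith) (by linarith)
      (by rw [c2]; ring) hs
      (var_le y (M \ J) k (by rw [c1]; exact hZ) (1 / 3) Q0 s le_rfl (by rw [hZR]; linarith) c3
        hQ01 hs2)
      le_rfl hm0 hm1 (by linarith) hp1 hp2 (by linarith)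
      (by
        refine le_trans ?_ hp3
        have := cant_anti s (286 / 100 * s - b / 3) (286 / 100 * s - b1 / 3) hs (by linarith)
          (by linarith)
        linarith)
  · intro J hJ hbad
    obtain ⟨c1, c2, c3⟩ := compl_facts y M J (k - 2) hJ b Q0 hT hQ
    have hZ := hbigj (k - 2) (by omega)
    have hZR : ((M \ J).card : ℝ) = M.card - k + 2 := by
      rw [c1, hcast _ (by omega), h2k]; ring
    exact hW2 α y (M \ J) k (by rw [c1]; exact hZ) (by rw [c1]; omega) (by rw [c1]; omega)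
      (-(1 - b) - ∑ a ∈ J, y a) s (286 / 100 * s) (by rw [c2]; ring) (by linarith) hs
      (var_le y (M \ J) k (by rw [c1]; exact hZ) (1 / 3) Q0 s le_rfl (by rw [hZR]; linarith) c3
        hQ01 hs2) le_rfl
  · refine le_trans ?_ hE1
    refine mul_le_mul_of_nonneg_left ?_ (by norm_num)
    exact cant_anti s _ _ hs ht1 (by linarith)
  · rcases hE2 with h | ⟨h1, h2⟩
    · left; exact h
    · right
      refine ⟨by linarith, le_trans ?_ h2⟩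
      refine mul_le_mul_of_nonneg_left ?_ (by norm_num)
      exact cant_anti s _ _ hs h1 (by linarith)

/-- regime I -/
theorem DC_I (hW2 : Win2) (hW1 : Win1a) (y : α → ℝ) (M : Finset α) (k : ℕ) (hk : 3 ≤ k)
    (hm : 4 * (k - 1) + 3 ≤ M.card) (hm5 : M.card + 3 ≤ 5 * k)
    (hbig : (10 : ℝ) ^ 31 ≤ M.card) (b : ℝ)
    (hT : PP y M 1 = b - 1)
    (hreg : (k : ℝ) ≤ 3001 / 10000 * ((M.card : ℝ) - k + 1))
    (b0 b1 Q0 s E1 E2 : ℝ) (hbb0 : b0 ≤ b) (hbb1 : b ≤ b1) (hb00 : 0 ≤ b0) (hb11 : b1 ≤ 1)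
    (hQ : PP y M 2 ≤ Q0) (hQ01 : Q0 ≤ 1) (hs : 0 < s)
    (hs2 : (3001 / 10000) * (1 - 3001 / 10000) * Q0 + 1 / 10 ^ 9 ≤ s ^ 2)
    (hbX : 2 * b1 ≤ 3 * (330 / 100 * s))
    (ht1 : 0 < 1 - 3001 / 10000 * (1 - b0 + 330 / 100 * s))
    (hE1 : 3001 / 10000 * (s ^ 2 / (s ^ 2 + (1 - 3001 / 10000 * (1 - b0 + 330 / 100 * s)) ^ 2)) ≤ E1)
    (hE2 : (3001 / 10000 : ℝ) ^ 2 ≤ E2 ∨ (0 < (1 - b1) - 3001 / 10000 * (1 - b1 + 286 / 100 * s) ∧
      (3001 / 10000) ^ 2 * (s ^ 2 / (s ^ 2 + ((1 - b1) - 3001 / 10000 * (1 - b1 + 286 / 100 * s)) ^ 2)) ≤ E2))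
    (hsum : E1 / (1544 / 10000) + E2 / (1544 / 10000) ≤ 1) :
    SS y M (k - 1) (fun s => if s < -1 then 1 else 0) +
      SS y M (k - 2) (fun s => if s < b - 1 then 1 else 0) ≤
      SS y M k i0 + SS y M (k - 1) (fun s => if b ≤ s then 1 else 0) := by
  have hN0 : (0 : ℝ) < M.card := lt_of_lt_of_le (by norm_num) hbig
  have hkM : k ≤ M.card := by omega
  have hmR : (4 : ℝ) * (k - 1) + 3 ≤ M.card := by
    have h1 : (((k - 1 : ℕ) : ℝ)) = (k : ℝ) - 1 := by rw [Nat.cast_sub (by omega)]; push_cast; ring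
    have h2 : (4 : ℝ) * ((k - 1 : ℕ) : ℝ) + 3 ≤ M.card := by exact_mod_cast hm
    rw [h1] at h2; exact h2
  have hkR : (3 : ℝ) ≤ k := by exact_mod_cast hk
  have hcast : ∀ j : ℕ, j ≤ k → ((M.card - j : ℕ) : ℝ) = M.card - j := by
    intro j hj; rw [Nat.cast_sub (by omega)]
  have hbigj : ∀ j : ℕ, j ≤ k → (10 : ℝ) ^ 30 ≤ ((M.card - j : ℕ) : ℝ) := by
    intro j hj
    rw [hcast j hj]
    have h1 : (j : ℝ) ≤ k := by exact_mod_cast hj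
    have : (10 : ℝ) ^ 30 ≤ 1 / 2 * 10 ^ 31 := by norm_num
    linarith
  have h1k : (((k - 1 : ℕ) : ℝ)) = (k : ℝ) - 1 := by rw [Nat.cast_sub (by omega)]; push_cast; ring
  have h2k : (((k - 2 : ℕ) : ℝ)) = (k : ℝ) - 2 := by rw [Nat.cast_sub (by omega)]; push_cast; ring
  refine DC_param y M k hk hm hbig b (3001 / 10000) Q0 s (330 / 100 * s) (286 / 100 * s)
    (1544 / 10000) (1544 / 10000)
    E1 E2 (by linarith) hT hQ hQ01 (by norm_num) (by norm_num) hreg hs hs2 (by norm_num)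
    (by norm_num) ?_ ?_ (by linarith) ?_ ?_ hsum
  · intro J hJ hbad
    obtain ⟨c1, c2, c3⟩ := compl_facts y M J (k - 1) hJ b Q0 hT hQ
    have hZ := hbigj (k - 1) (by omega)
    have hZR : ((M \ J).card : ℝ) = M.card - k + 1 := by
      rw [c1, hcast _ (by omega), h1k]; ring
    exact hW1 α y (M \ J) k (by rw [c1]; exact hZ) (by rw [hZR]; exact hreg) (by rw [c1]; omega)
      b (-1 - ∑ a ∈ J, y a) s (330 / 100 * s) (by linarith) (by linarith)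
      (by rw [c2]; ring) hs
      (var_le y (M \ J) k (by rw [c1]; exact hZ) (3001 / 10000) Q0 s (by norm_num)
        (by rw [hZR]; exact hreg) c3 hQ01 hs2)
      le_rfl (by linarith)
  · intro J hJ hbad
    obtain ⟨c1, c2, c3⟩ := compl_facts y M J (k - 2) hJ b Q0 hT hQ
    have hZ := hbigj (k - 2) (by omega)
    have hZR : ((M \ J).card : ℝ) = M.card - k + 2 := by
      rw [c1, hcast _ (by omega), h2k]; ring
    exact hW2 α y (M \ J) k (by rw [c1]; exact hZ) (by rw [c1]; omega) (by rw [c1]; omega)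
      (-(1 - b) - ∑ a ∈ J, y a) s (286 / 100 * s) (by rw [c2]; ring) (by linarith) hs
      (var_le y (M \ J) k (by rw [c1]; exact hZ) (3001 / 10000) Q0 s (by norm_num)
        (by rw [hZR]; linarith) c3 hQ01 hs2) le_rfl
  · refine le_trans ?_ hE1
    refine mul_le_mul_of_nonneg_left ?_ (by norm_num)
    exact cant_anti s _ _ hs ht1 (by linarith)
  · rcases hE2 with h | ⟨h1, h2⟩
    · left; exact h
    · right
      refine ⟨by linarith, le_trans ?_ h2⟩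
      refine mul_le_mul_of_nonneg_left ?_ (by norm_num)
      exact cant_anti s _ _ hs h1 (by linarith)

end Pool.Agent.H49.MK
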