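import Mathlib
import Pool.Agent.H49.MK.DCb

/-!
Double counting: the numerical parameters for all `b`.
-/

open Finset
open scoped BigOperators

namespace Pool.Agent.H49.MK

open Pool.Agent.H49.L

theorem QA_eq1 (b : ℝ) (h : b ≤ 3 / 10) : QA b = 36 / 100 := by unfold QA; rw [if_pos h]
theorem QA_eq2 (b : ℝ) (h0 : 3 / 10 < b) (h : b ≤ 4 / 10) : QA b = 38 / 100 := by
  unfold QA; rw [if_neg (by linarith), if_pos h]
theorem QA_eq3 (b : ℝ) (h0 : 4 / 10 < b) (h : b ≤ 5 / 10) : QA b = 39 / 100 := by
  unfold QA; rw [if_neg (by linarith), if_neg (by linarith), if_pos h]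
theorem QA_eq4 (b : ℝ) (h0 : 5 / 10 < b) (h : b ≤ 55 / 100) : QA b = 375 / 1000 := by
  unfold QA; rw [if_neg (by linarith), if_neg (by linarith), if_neg (by linarith), if_pos h]
theorem QA_eq5 (b : ℝ) (h0 : 55 / 100 < b) (h : b ≤ 6 / 10) : QA b = 35 / 100 := by
  unfold QA
  rw [if_neg (by linarith), if_neg (by linarith), if_neg (by linarith), if_neg (by linarith),
    if_pos h]
theorem QA_eq6 (b : ℝ) (h0 : 6 / 10 < b) (h : b ≤ 7 / 10) : QA b = 32 / 100 := by
  unfold QA
  rw [if_neg (by linarith), if_neg (by linarith), if_neg (by linarith), if_neg (by linarith),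
    if_neg (by linarith), if_pos h]
theorem QA_eq7 (b : ℝ) (h0 : 7 / 10 < b) : QA b = 28 / 100 := by
  unfold QA
  rw [if_neg (by linarith), if_neg (by linarith), if_neg (by linarith), if_neg (by linarith),
    if_neg (by linarith), if_neg (by linarith)]

variable {α : Type} [DecidableEq α]

theorem DC_num_II (hW2 : Win2) (hW1b : Win1b) (y : α → ℝ) (M : Finset α) (k : ℕ) (hk : 3 ≤ k)
    (hm : 4 * (k - 1) + 3 ≤ M.card) (hm5 : M.card + 3 ≤ 5 * k)
    (hbig : (10 : ℝ) ^ 31 ≤ M.card) (b : ℝ) (hb0 : 0 ≤ b) (hb1 : b ≤ 1)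
    (hT : PP y M 1 = b - 1) (hQ : PP y M 2 ≤ QA b)
    (hreg : 2999 / 10000 * ((M.card : ℝ) - k + 1) ≤ k) :
    SS y M (k - 1) (fun s => if s < -1 then 1 else 0) +
      SS y M (k - 2) (fun s => if s < b - 1 then 1 else 0) ≤
      SS y M k i0 + SS y M (k - 1) (fun s => if b ≤ s then 1 else 0) := by
  rcases le_or_gt b (1 / 25) with h0 | h0
  · rw [QA_eq1 b (by linarith)] at hQ
    exact DC_II hW2 hW1b y M k hk hm hm5 hbig b hT hreg (0 / 1) (1 / 25) (9 / 25) (5657 / 20000) (0 / 1) (483 / 3125)
      (11223 / 100000) (2047 / 50000) (by linarith) (by linarith) (by norm_num) (by norm_num) (by linarith) (by norm_num) (by norm_num)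
      (by norm_num) (by norm_num) (by norm_num) (by norm_num) (by norm_num) (by norm_num) (by norm_num) (by norm_num)
      (by norm_num) (by norm_num) (by norm_num) (Or.inr ⟨by norm_num, by norm_num⟩) (by norm_num)
  rcases le_or_gt b (1 / 10) with h1 | h1
  · rw [QA_eq1 b (by linarith)] at hQ
    exact DC_II hW2 hW1b y M k hk hm hm5 hbig b hT hreg (1 / 25) (1 / 10) (9 / 25) (5657 / 20000) (53 / 1250) (8329 / 50000)
      (10737 / 100000) (4701 / 100000) (by linarith) (by linarith) (by norm_num) (by norm_num) (by linarith) (by norm_num) (by norm_num)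
      (by norm_num) (by norm_num) (by norm_num) (by norm_num) (by norm_num) (by norm_num) (by norm_num) (by norm_num)
      (by norm_num) (by norm_num) (by norm_num) (Or.inr ⟨by norm_num, by norm_num⟩) (by norm_num)
  rcases le_or_gt b (1 / 5) with h2 | h2
  · rw [QA_eq1 b (by linarith)] at hQ
    exact DC_II hW2 hW1b y M k hk hm hm5 hbig b hT hreg (1 / 10) (1 / 5) (9 / 25) (5657 / 20000) (53 / 500) (18381 / 100000)
      (1257 / 12500) (1189 / 20000) (by linarith) (by linarith) (by norm_num) (by norm_num) (by linarith) (by norm_num) (by norm_num)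
      (by norm_num) (by norm_num) (by norm_num) (by norm_num) (by norm_num) (by norm_num) (by norm_num) (by norm_num)
      (by norm_num) (by norm_num) (by norm_num) (Or.inr ⟨by norm_num, by norm_num⟩) (by norm_num)
  rcases le_or_gt b (3 / 10) with h3 | h3
  · rw [QA_eq1 b (by linarith)] at hQ
    exact DC_II hW2 hW1b y M k hk hm hm5 hbig b hT hreg (1 / 5) (3 / 10) (9 / 25) (5657 / 20000) (53 / 250) (2629 / 12500)
      (113 / 1250) (3741 / 50000) (by linarith) (by linarith) (by norm_num) (by norm_num) (by linarith) (by norm_num) (by norm_num)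
      (by norm_num) (by norm_num) (by norm_num) (by norm_num) (by norm_num) (by norm_num) (by norm_num) (by norm_num)
      (by norm_num) (by norm_num) (by norm_num) (Or.inr ⟨by norm_num, by norm_num⟩) (by norm_num)
  rcases le_or_gt b (9 / 25) with h4 | h4
  · rw [QA_eq2 b (by linarith) (by linarith)] at hQ
    exact DC_II hW2 hW1b y M k hk hm hm5 hbig b hT hreg (3 / 10) (9 / 25) (19 / 50) (1453 / 5000) (387 / 1250) (23211 / 100000)
      (2171 / 25000) (8783 / 100000) (by linarith) (by linarith) (by norm_num) (by norm_num) (by linarith) (by norm_num) (by norm_num)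
      (by norm_num) (by norm_num) (by norm_num) (by norm_num) (by norm_num) (by norm_num) (by norm_num) (by norm_num)
      (by norm_num) (by norm_num) (by norm_num) (Or.inr ⟨by norm_num, by norm_num⟩) (by norm_num)
  rcases le_or_gt b (2 / 5) with h5 | h5
  · rw [QA_eq2 b (by linarith) (by linarith)] at hQ
    exact DC_II hW2 hW1b y M k hk hm hm5 hbig b hT hreg (9 / 25) (2 / 5) (19 / 50) (1453 / 5000) (743 / 2000) (24451 / 100000)
      (8179 / 100000) (589 / 6250) (by linarith) (by linarith) (by norm_num) (by norm_num) (by linarith) (by norm_num) (by norm_num)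
      (by norm_num) (by norm_num) (by norm_num) (by norm_num) (by norm_num) (by norm_num) (by norm_num) (by norm_num)
      (by norm_num) (by norm_num) (by norm_num) (Or.inr ⟨by norm_num, by norm_num⟩) (by norm_num)
  rcases le_or_gt b (43 / 100) with h6 | h6
  · rw [QA_eq3 b (by linarith) (by linarith)] at hQ
    exact DC_II hW2 hW1b y M k hk hm hm5 hbig b hT hreg (2 / 5) (43 / 100) (39 / 100) (184 / 625) (2037 / 5000) (12557 / 50000)
      (8107 / 100000) (1247 / 12500) (by linarith) (by linarith) (by norm_num) (by norm_num) (by linarith) (by norm_num) (by norm_num)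
      (by norm_num) (by norm_num) (by norm_num) (by norm_num) (by norm_num) (by norm_num) (by norm_num) (by norm_num)
      (by norm_num) (by norm_num) (by norm_num) (Or.inr ⟨by norm_num, by norm_num⟩) (by norm_num)
  rcases le_or_gt b (23 / 50) with h7 | h7
  · rw [QA_eq3 b (by linarith) (by linarith)] at hQ
    exact DC_II hW2 hW1b y M k hk hm hm5 hbig b hT hreg (43 / 100) (23 / 50) (39 / 100) (184 / 625) (219 / 500) (12823 / 50000)
      (63 / 800) (10359 / 100000) (by linarith) (by linarith) (by norm_num) (by norm_num) (by linarith) (by norm_num) (by norm_num)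
      (by norm_num) (by norm_num) (by norm_num) (by norm_num) (by norm_num) (by norm_num) (by norm_num) (by norm_num)
      (by norm_num) (by norm_num) (by norm_num) (Or.inr ⟨by norm_num, by norm_num⟩) (by norm_num)
  rcases le_or_gt b (12 / 25) with h8 | h8
  · rw [QA_eq3 b (by linarith) (by linarith)] at hQ
    exact DC_II hW2 hW1b y M k hk hm hm5 hbig b hT hreg (23 / 50) (12 / 25) (39 / 100) (184 / 625) (937 / 2000) (26143 / 100000)
      (1913 / 25000) (529 / 5000) (by linarith) (by linarith) (by norm_num) (by norm_num) (by linarith) (by norm_num) (by norm_num)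
      (by norm_num) (by norm_num) (by norm_num) (by norm_num) (by norm_num) (by norm_num) (by norm_num) (by norm_num)
      (by norm_num) (by norm_num) (by norm_num) (Or.inr ⟨by norm_num, by norm_num⟩) (by norm_num)
  rcases le_or_gt b (1 / 2) with h9 | h9
  · rw [QA_eq3 b (by linarith) (by linarith)] at hQ
    exact DC_II hW2 hW1b y M k hk hm hm5 hbig b hT hreg (12 / 25) (1 / 2) (39 / 100) (184 / 625) (4889 / 10000) (26457 / 100000)
      (7509 / 100000) (10767 / 100000) (by linarith) (by linarith) (by norm_num) (by norm_num) (by linarith) (by norm_num) (by norm_num)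
      (by norm_num) (by norm_num) (by norm_num) (by norm_num) (by norm_num) (by norm_num) (by norm_num) (by norm_num)
      (by norm_num) (by norm_num) (by norm_num) (Or.inr ⟨by norm_num, by norm_num⟩) (by norm_num)
  rcases le_or_gt b (27 / 50) with h10 | h10
  · rw [QA_eq4 b (by linarith) (by linarith)] at hQ
    exact DC_II hW2 hW1b y M k hk hm hm5 hbig b hT hreg (1 / 2) (27 / 50) (3 / 8) (7217 / 25000) (2597 / 5000) (1681 / 6250)
      (1759 / 25000) (10981 / 100000) (by linarith) (by linarith) (by norm_num) (by norm_num) (by linarith) (by norm_num) (by norm_num)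
      (by norm_num) (by norm_num) (by norm_num) (by norm_num) (by norm_num) (by norm_num) (by norm_num) (by norm_num)
      (by norm_num) (by norm_num) (by norm_num) (Or.inr ⟨by norm_num, by norm_num⟩) (by norm_num)
  rcases le_or_gt b (11 / 20) with h11 | h11
  · rw [QA_eq4 b (by linarith) (by linarith)] at hQ
    exact DC_II hW2 hW1b y M k hk hm hm5 hbig b hT hreg (27 / 50) (11 / 20) (3 / 8) (7217 / 25000) (5609 / 10000) (13717 / 50000)
      (6777 / 100000) (1103 / 10000) (by linarith) (by linarith) (by norm_num) (by norm_num) (by linarith) (by norm_num) (by norm_num)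
      (by norm_num) (by norm_num) (by norm_num) (by norm_num) (by norm_num) (by norm_num) (by norm_num) (by norm_num)
      (by norm_num) (by norm_num) (by norm_num) (Or.inr ⟨by norm_num, by norm_num⟩) (by norm_num)
  rcases le_or_gt b (3 / 5) with h12 | h12
  · rw [QA_eq5 b (by linarith) (by linarith)] at hQ
    exact DC_II hW2 hW1b y M k hk hm hm5 hbig b hT hreg (11 / 20) (3 / 5) (7 / 20) (27889 / 100000) (2957 / 5000) (11 / 40)
      (1547 / 25000) (1389 / 12500) (by linarith) (by linarith) (by norm_num) (by norm_num) (by linarith) (by norm_num) (by norm_num)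
      (by norm_num) (by norm_num) (by norm_num) (by norm_num) (by norm_num) (by norm_num) (by norm_num) (by norm_num)
      (by norm_num) (by norm_num) (by norm_num) (Or.inl (by norm_num)) (by norm_num)
  rcases le_or_gt b (7 / 10) with h13 | h13
  · rw [QA_eq6 b (by linarith) (by linarith)] at hQ
    exact DC_II hW2 hW1b y M k hk hm hm5 hbig b hT hreg (3 / 5) (7 / 10) (8 / 25) (26667 / 100000) (6747 / 10000) (11 / 40)
      (5313 / 100000) (1389 / 12500) (by linarith) (by linarith) (by norm_num) (by norm_num) (by linarith) (by norm_num) (by norm_num)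
      (by norm_num) (by norm_num) (by norm_num) (by norm_num) (by norm_num) (by norm_num) (by norm_num) (by norm_num)
      (by norm_num) (by norm_num) (by norm_num) (Or.inl (by norm_num)) (by norm_num)
  rcases le_or_gt b (17 / 20) with h14 | h14
  · rw [QA_eq7 b (by linarith)] at hQ
    exact DC_II hW2 hW1b y M k hk hm hm5 hbig b hT hreg (7 / 10) (17 / 20) (7 / 25) (4989 / 20000) (1683 / 2000) (6207 / 25000)
      (4143 / 100000) (1389 / 12500) (by linarith) (by linarith) (by norm_num) (by norm_num) (by linarith) (by norm_num) (by norm_num)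
      (by norm_num) (by norm_num) (by norm_num) (by norm_num) (by norm_num) (by norm_num) (by norm_num) (by norm_num)
      (by norm_num) (by norm_num) (by norm_num) (Or.inl (by norm_num)) (by norm_num)
  rw [QA_eq7 b (by linarith)] at hQ
  exact DC_II hW2 hW1b y M k hk hm hm5 hbig b hT hreg (17 / 20) (1 / 1) (7 / 25) (4989 / 20000) (1 / 1) (3979 / 20000)
    (3643 / 100000) (1389 / 12500) (by linarith) (by linarith) (by norm_num) (by norm_num) (by linarith) (by norm_num) (by norm_num)
    (by norm_num) (by norm_num) (by norm_num) (by norm_num) (by norm_num) (by norm_num) (by norm_num) (by norm_num)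
    (by norm_num) (by norm_num) (by norm_num) (Or.inl (by norm_num)) (by norm_num)

theorem DC_num_I (hW2 : Win2) (hW1a : Win1a) (y : α → ℝ) (M : Finset α) (k : ℕ) (hk : 3 ≤ k)
    (hm : 4 * (k - 1) + 3 ≤ M.card) (hm5 : M.card + 3 ≤ 5 * k)
    (hbig : (10 : ℝ) ^ 31 ≤ M.card) (b : ℝ) (hb0 : 0 ≤ b) (hb1 : b ≤ 1)
    (hT : PP y M 1 = b - 1) (hQ : PP y M 2 ≤ QA b)
    (hreg : (k : ℝ) ≤ 3001 / 10000 * ((M.card : ℝ) - k + 1)) :
    SS y M (k - 1) (fun s => if s < -1 then 1 else 0) +
      SS y M (k - 2) (fun s => if s < b - 1 then 1 else 0) ≤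
      SS y M k i0 + SS y M (k - 1) (fun s => if b ≤ s then 1 else 0) := by
  rcases le_or_gt b (3 / 10) with h0 | h0
  · rw [QA_eq1 b (by linarith)] at hQ
    exact DC_I hW2 hW1a y M k hk hm hm5 hbig b hT hreg (0 / 1) (3 / 10) (9 / 25) (27499 / 100000)
      (4391 / 50000) (2431 / 50000) (by linarith) (by linarith) (by norm_num) (by norm_num) (by linarith) (by norm_num) (by norm_num)
      (by norm_num) (by norm_num) (by norm_num) (by norm_num) (Or.inr ⟨by norm_num, by norm_num⟩) (by norm_num)
  rcases le_or_gt b (2 / 5) with h1 | h1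
  · rw [QA_eq2 b (by linarith) (by linarith)] at hQ
    exact DC_I hW2 hW1a y M k hk hm hm5 hbig b hT hreg (3 / 10) (2 / 5) (19 / 50) (7063 / 25000)
      (1761 / 25000) (6459 / 100000) (by linarith) (by linarith) (by norm_num) (by norm_num) (by linarith) (by norm_num) (by norm_num)
      (by norm_num) (by norm_num) (by norm_num) (by norm_num) (Or.inr ⟨by norm_num, by norm_num⟩) (by norm_num)
  rcases le_or_gt b (1 / 2) with h2 | h2
  · rw [QA_eq3 b (by linarith) (by linarith)] at hQ
    exact DC_I hW2 hW1a y M k hk hm hm5 hbig b hT hreg (2 / 5) (1 / 2) (39 / 100) (28621 / 100000)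
      (6649 / 100000) (7951 / 100000) (by linarith) (by linarith) (by norm_num) (by norm_num) (by linarith) (by norm_num) (by norm_num)
      (by norm_num) (by norm_num) (by norm_num) (by norm_num) (Or.inr ⟨by norm_num, by norm_num⟩) (by norm_num)
  rcases le_or_gt b (11 / 20) with h3 | h3
  · rw [QA_eq4 b (by linarith) (by linarith)] at hQ
    exact DC_I hW2 hW1a y M k hk hm hm5 hbig b hT hreg (1 / 2) (11 / 20) (3 / 8) (14033 / 50000)
      (5823 / 100000) (421 / 5000) (by linarith) (by linarith) (by norm_num) (by norm_num) (by linarith) (by norm_num) (by norm_num)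
      (by norm_num) (by norm_num) (by norm_num) (by norm_num) (Or.inr ⟨by norm_num, by norm_num⟩) (by norm_num)
  rcases le_or_gt b (3 / 5) with h4 | h4
  · rw [QA_eq5 b (by linarith) (by linarith)] at hQ
    exact DC_I hW2 hW1a y M k hk hm hm5 hbig b hT hreg (11 / 20) (3 / 5) (7 / 20) (13557 / 50000)
      (257 / 5000) (8741 / 100000) (by linarith) (by linarith) (by norm_num) (by norm_num) (by linarith) (by norm_num) (by norm_num)
      (by norm_num) (by norm_num) (by norm_num) (by norm_num) (Or.inr ⟨by norm_num, by norm_num⟩) (by norm_num)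
  rcases le_or_gt b (7 / 10) with h5 | h5
  · rw [QA_eq6 b (by linarith) (by linarith)] at hQ
    exact DC_I hW2 hW1a y M k hk hm hm5 hbig b hT hreg (3 / 5) (7 / 10) (8 / 25) (12963 / 50000)
      (1107 / 25000) (9007 / 100000) (by linarith) (by linarith) (by norm_num) (by norm_num) (by linarith) (by norm_num) (by norm_num)
      (by norm_num) (by norm_num) (by norm_num) (by norm_num) (Or.inl (by norm_num)) (by norm_num)
  rw [QA_eq7 b (by linarith)] at hQ
  exact DC_I hW2 hW1a y M k hk hm hm5 hbig b hT hreg (7 / 10) (1 / 1) (7 / 25) (6063 / 25000)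
    (3479 / 100000) (9007 / 100000) (by linarith) (by linarith) (by norm_num) (by norm_num) (by linarith) (by norm_num) (by norm_num)
    (by norm_num) (by norm_num) (by norm_num) (by norm_num) (Or.inl (by norm_num)) (by norm_num)

/-- the double counting statement -/
theorem dcst (hW2 : Win2) (hW1a : Win1a) (hW1b : Win1b) : DCst (10 ^ 31) := by
  intro α _ y M k hk0 hm hm5 b hb0 hb1 hy1 hyb hT hQ
  have hk3 : 3 ≤ k := le_trans (by norm_num) hk0
  have hbig : (10 : ℝ) ^ 31 ≤ M.card := by
    have h1 : 10 ^ 31 ≤ M.card := by omega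
    exact_mod_cast h1
  rcases le_or_gt (k : ℝ) (3001 / 10000 * ((M.card : ℝ) - k + 1)) with h | h
  · exact DC_num_I hW2 hW1a y M k hk3 hm hm5 hbig b hb0 hb1 hT hQ h
  · refine DC_num_II hW2 hW1b y M k hk3 hm hm5 hbig b hb0 hb1 hT hQ ?_
    have h2 : (k : ℝ) ≤ M.card := by
      have : k ≤ M.card := by omega
      exact_mod_cast this
    nlinarith

end Pool.Agent.H49.MK
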