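import Mathlib
import Pool.Agent.H49.MK.DCb

/-!
Window lemmas: common part.
-/

open Finset
open scoped BigOperators

namespace Pool.Agent.H49.MK

open Pool.Agent.H49.L

variable {α : Type} [DecidableEq α]

theorem poly_le (t : ℝ) : 2062 / 10000 * (2 * t + 3 * t ^ 2 - t ^ 4) ≤
    if 0 ≤ t ∧ t < 2 then 1 else 0 := by
  have e : 2 * t + 3 * t ^ 2 - t ^ 4 = t * ((2 - t) * (1 + t) ^ 2) := by ring
  split_ifs with h
  · -- 1 - c p = (t^2 - 1866/1000)^2 ... positive definite remainder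
    nlinarith [sq_nonneg (t ^ 2 - 186603 / 100000), sq_nonneg (t - 136603 / 100000)]
  · rw [e]
    rcases lt_or_ge t 0 with h1 | h1
    · have : 0 ≤ (2 - t) * (1 + t) ^ 2 := mul_nonneg (by linarith) (sq_nonneg _)
      nlinarith
    · have h2 : 2 ≤ t := by
        by_contra h3
        exact h ⟨h1, not_le.1 h3⟩
      have : (2 - t) * (1 + t) ^ 2 ≤ 0 := mul_nonpos_of_nonpos_of_nonneg (by linarith) (sq_nonneg _)
      nlinarith

omit [DecidableEq α] in
/-- the quartic lower bound for the window `[0, W)`; `z` centred, sum `= z + μ` -/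
theorem win_poly (M : Finset α) (m : ℕ) (hm : m ≤ M.card) (z : Finset α → ℝ) (f : Finset α → ℝ)
    (μ lam W : ℝ) (hf : ∀ K ∈ M.powersetCard m, f K = z K + μ) (hlam : 0 < lam) (hW : 2 ≤ lam * W)
    (h1 : AV M m z = 0) :
    2062 / 10000 * (2 * lam * μ + 3 * lam ^ 2 * (AV M m (fun K => z K ^ 2) + μ ^ 2) -
      lam ^ 4 * (AV M m (fun K => z K ^ 4) + 4 * μ * AV M m (fun K => z K ^ 3) +
        6 * μ ^ 2 * AV M m (fun K => z K ^ 2) + μ ^ 4)) ≤
      AV M m (fun K => if 0 ≤ f K ∧ f K < W then 1 else 0) := by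
  have h2 : AV M m (fun K => 2062 / 10000 * (2 * (lam * f K) + 3 * (lam * f K) ^ 2 -
      (lam * f K) ^ 4)) ≤ AV M m (fun K => if 0 ≤ f K ∧ f K < W then 1 else 0) := by
    refine AV_mono _ _ _ _ fun K _ => ?_
    refine (poly_le (lam * f K)).trans ?_
    split_ifs with h3 h4 h4
    · exact le_rfl
    · exfalso
      apply h4
      obtain ⟨h5, h6⟩ := h3
      refine ⟨nonneg_of_mul_nonneg_right h5 hlam |> fun h => h, ?_⟩
      exact lt_of_mul_lt_mul_left (lt_of_lt_of_le h6 hW) hlam.le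
    · norm_num
    · exact le_rfl
  refine le_trans (le_of_eq ?_) h2
  have h3 : AV M m (fun K => 2062 / 10000 * (2 * (lam * f K) + 3 * (lam * f K) ^ 2 -
      (lam * f K) ^ 4)) = AV M m (fun K =>
        2062 / 10000 * (2 * lam * μ + 3 * lam ^ 2 * μ ^ 2 - lam ^ 4 * μ ^ 4) +
        (2062 / 10000 * (2 * lam + 6 * lam ^ 2 * μ - 4 * lam ^ 4 * μ ^ 3)) * z K +
        (2062 / 10000 * (3 * lam ^ 2 - 6 * lam ^ 4 * μ ^ 2)) * z K ^ 2 +
        (2062 / 10000 * (-(4 * lam ^ 4 * μ))) * z K ^ 3 +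
        (2062 / 10000 * (-(lam ^ 4))) * z K ^ 4) := by
    unfold AV
    congr 1
    refine Finset.sum_congr rfl fun K hK => ?_
    beta_reduce
    rw [hf K hK]; ring
  rw [h3, AV_add, AV_add, AV_add, AV_add, AV_const M m hm, AV_smul, AV_smul, AV_smul, AV_smul, h1]
  ring

omit [DecidableEq α] in
/-- two-sided Cantelli bound -/
theorem win_cant (M : Finset α) (m : ℕ) (hm : m ≤ M.card) (z : Finset α → ℝ) (f : Finset α → ℝ)
    (μ V W : ℝ) (hf : ∀ K ∈ M.powersetCard m, f K = z K + μ) (hμ : 0 < μ) (hW : μ < W)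
    (hV : 0 ≤ V) (h1 : AV M m z = 0) (h2 : AV M m (fun K => z K ^ 2) ≤ V) :
    1 - V / (V + μ ^ 2) - V / (V + (W - μ) ^ 2) ≤
      AV M m (fun K => if 0 ≤ f K ∧ f K < W then 1 else 0) := by
  have a1 := cant_av M m hm z h1 V μ hV h2 hμ
  have a2 := cant_av M m hm (fun K => - z K) (by
    have : AV M m (fun K => - z K) = AV M m (fun K => (-1) * z K) := by
      congr 1; funext K; ring
    rw [this, AV_smul, h1, mul_zero]) V (W - μ) hV (by
    have : AV M m (fun K => (- z K) ^ 2) = AV M m (fun K => z K ^ 2) := by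
      congr 1; funext K; ring
    rw [this]; exact h2) (by linarith)
  have h3 : AV M m (fun _ => (1 : ℝ)) ≤ AV M m (fun K => (if 0 ≤ f K ∧ f K < W then 1 else 0) +
      ((if z K ≤ -μ then 1 else 0) + (if -z K ≤ -(W - μ) then 1 else 0))) := by
    refine AV_mono _ _ _ _ fun K hK => ?_
    rw [hf K hK]
    by_cases c1 : z K ≤ -μ
    · rw [if_pos c1]
      have : (0 : ℝ) ≤ (if 0 ≤ z K + μ ∧ z K + μ < W then 1 else 0) := by split_ifs <;> norm_num
      have : (0 : ℝ) ≤ (if -z K ≤ -(W - μ) then 1 else 0) := by split_ifs <;> norm_num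
      linarith
    · by_cases c2 : -z K ≤ -(W - μ)
      · rw [if_neg c1, if_pos c2]
        have : (0 : ℝ) ≤ (if 0 ≤ z K + μ ∧ z K + μ < W then 1 else 0) := by split_ifs <;> norm_num
        linarith
      · rw [if_neg c1, if_neg c2, if_pos ⟨by linarith, by linarith⟩]
        norm_num
  rw [AV_const M m hm, AV_add, AV_add] at h3
  linarith

end Pool.Agent.H49.MK
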