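import Mathlib
import Pool.Agent.H49.MK.WinP

/-!
The window lemmas `Win2` and `Win1a`.
-/

open Finset
open scoped BigOperators

namespace Pool.Agent.H49.MK

open Pool.Agent.H49.L

variable {α : Type} [DecidableEq α]

/-- relative bounds for the factors, density in `[1/4, 1/3]` -/
theorem fac_rel (n κ : ℝ) (hn : (10 : ℝ) ^ 30 ≤ n) (h0 : 1 / 4 ≤ κ) (h1 : κ ≤ 1 / 3) :
    0 < fa n (κ * n) ∧ fa n (κ * n) - 6 * fb n (κ * n) ≤ 0 ∧
    3 * fb n (κ * n) ≤ (3 + 1 / 10 ^ 6) * fa n (κ * n) ^ 2 ∧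
    fc n (κ * n) ^ 2 ≤ 1334 / 1000 * fa n (κ * n) ^ 3 ∧ 0 ≤ fc n (κ * n) := by
  have hn0 : (0 : ℝ) < n := lt_of_lt_of_le (by norm_num) hn
  have hn8 : (8 : ℝ) ≤ n := le_trans (by norm_num) hn
  have a := fa_close n κ hn8 (by linarith) (by linarith)
  have b := fb_close n κ hn8 (by linarith) (by linarith)
  have c := fc_close n κ hn8 (by linarith) (by linarith)
  have s1 : (1 : ℝ) / n ≤ 1 / 10 ^ 30 := div_le_div_of_nonneg_left (by norm_num) (by norm_num) hn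
  have s2 : (2 : ℝ) / n ≤ 2 / 10 ^ 30 := div_le_div_of_nonneg_left (by norm_num) (by norm_num) hn
  have s5 : (5 : ℝ) / n ≤ 5 / 10 ^ 30 := div_le_div_of_nonneg_left (by norm_num) (by norm_num) hn
  have a' := abs_le.1 (a.trans s1)
  have b' := abs_le.1 (b.trans s2)
  have c' := abs_le.1 (c.trans s5)
  clear a b c s1 s2 s5
  have hq1 : 3 / 16 ≤ κ * (1 - κ) := by nlinarith
  have hq2 : κ * (1 - κ) ≤ 2 / 9 := by nlinarith
  have hs1 : 0 ≤ 1 - 2 * κ := by linarith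
  have hs2 : (1 - 2 * κ) ^ 2 ≤ 4 / 3 * (κ * (1 - κ)) := by nlinarith
  have hs3 : 1 / 3 ≤ 1 - 2 * κ := by linarith
  have hs4 : 1 - 2 * κ ≤ 1 / 2 := by linarith
  generalize fa n (κ * n) = A at *
  generalize fb n (κ * n) = B at *
  generalize fc n (κ * n) = C at *
  generalize 1 - 2 * κ = d at *
  generalize κ * (1 - κ) = q at *
  obtain ⟨e, he⟩ : ∃ e : ℝ, e = 1 / 10 ^ 30 := ⟨_, rfl⟩
  have e2 : (2 : ℝ) / 10 ^ 30 = 2 * e := by rw [he]; norm_num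
  have e5 : (5 : ℝ) / 10 ^ 30 = 5 * e := by rw [he]; norm_num
  rw [← he] at a'
  rw [e2] at b'
  rw [e5] at c'
  have he0 : 0 < e := by rw [he]; norm_num
  have he1 : e ≤ 1 / 10 ^ 10 := by rw [he]; norm_num
  clear he e2 e5
  have hA1 : 18 / 100 ≤ A := by linarith
  have hA2 : A ≤ 23 / 100 := by linarith
  have hqA : q ≤ A + e := by linarith
  have hqA2 : q ^ 2 ≤ A ^ 2 + e := by
    have : q ^ 2 ≤ (A + e) ^ 2 := pow_le_pow_left₀ (by linarith) hqA 2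
    nlinarith
  have hqA3 : q ^ 3 ≤ A ^ 3 + e := by
    have h1 : q ^ 3 ≤ (A + e) ^ 3 := pow_le_pow_left₀ (by linarith) hqA 3
    have h2 : (A + e) ^ 3 = A ^ 3 + e * (3 * A ^ 2 + 3 * A * e + e ^ 2) := by ring
    have h3 : 3 * A ^ 2 + 3 * A * e + e ^ 2 ≤ 1 := by nlinarith
    have h4 := mul_le_mul_of_nonneg_left h3 he0.le
    linarith
  have hA22 : 324 / 10000 ≤ A ^ 2 := by nlinarith
  have hA33 : 5832 / 1000000 ≤ A ^ 3 := by
    calc (5832 / 1000000 : ℝ) = (18 / 100) ^ 3 := by norm_num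
      _ ≤ A ^ 3 := pow_le_pow_left₀ (by norm_num) hA1 3
  refine ⟨by linarith, ?_, ?_, ?_, ?_⟩
  · nlinarith
  · nlinarith
  · have hC1 : C ≤ q * d + 5 * e := by linarith
    have hC0 : 0 ≤ C := by
      have : 1 / 16 ≤ q * d := by nlinarith
      linarith
    have h1 : C ^ 2 ≤ (q * d + 5 * e) ^ 2 := pow_le_pow_left₀ hC0 hC1 2
    have h2 : (q * d + 5 * e) ^ 2 = q ^ 2 * d ^ 2 + e * (10 * (q * d) + 25 * e) := by ring
    have h3 : q ^ 2 * d ^ 2 ≤ q ^ 2 * (4 / 3 * q) := mul_le_mul_of_nonneg_left hs2 (sq_nonneg q)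
    have h4 : q ^ 2 * (4 / 3 * q) = 4 / 3 * q ^ 3 := by ring
    have h5 : q * d ≤ 1 := by nlinarith
    have h6 : e * (10 * (q * d) + 25 * e) ≤ e * 11 := mul_le_mul_of_nonneg_left (by linarith) he0.le
    nlinarith
  · have : 1 / 16 ≤ q * d := by nlinarith
    linarith

/-- centred moments of the subset sums, density in `[1/4, 1/3]` -/
theorem mom_rel (x : α → ℝ) (Z : Finset α) (k : ℕ) (hbig : (10 : ℝ) ^ 30 ≤ Z.card)
    (h3 : 3 * k ≤ Z.card) (h4 : Z.card ≤ 4 * k) (c : ℝ) (hc : (Z.card : ℝ) * c = PP x Z 1) :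
    ∃ V : ℝ, 0 ≤ V ∧ V ≤ fa Z.card k * PP x Z 2 ∧
      AV Z k (fun K => ∑ a ∈ K, x a - k * c) = 0 ∧
      AV Z k (fun K => (∑ a ∈ K, x a - k * c) ^ 2) = V ∧
      AV Z k (fun K => (∑ a ∈ K, x a - k * c) ^ 4) ≤ (3 + 1 / 10 ^ 6) * V ^ 2 ∧
      (AV Z k (fun K => (∑ a ∈ K, x a - k * c) ^ 3)) ^ 2 ≤ 1334 / 1000 * V ^ 3 := by
  have hN0 : (0 : ℝ) < Z.card := lt_of_lt_of_le (by norm_num) hbig
  have hZ8 : 8 ≤ Z.card := by
    have : (8 : ℝ) ≤ Z.card := le_trans (by norm_num) hbig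
    exact_mod_cast this
  have h3R : (3 : ℝ) * k ≤ Z.card := by exact_mod_cast h3
  have h4R : (Z.card : ℝ) ≤ 4 * k := by exact_mod_cast h4
  obtain ⟨κ, hκ⟩ : ∃ κ : ℝ, κ = (k : ℝ) / Z.card := ⟨_, rfl⟩
  have hkκ : (k : ℝ) = κ * Z.card := by rw [hκ, div_mul_cancel₀ _ hN0.ne']
  have hκ0 : 1 / 4 ≤ κ := by rw [hκ, le_div_iff₀ hN0]; linarith
  have hκ1 : κ ≤ 1 / 3 := by rw [hκ, div_le_iff₀ hN0]; linarith
  obtain ⟨f1, f2, f3, f4, f5⟩ := fac_rel Z.card κ hbig hκ0 hκ1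
  rw [← hkκ] at f1 f2 f3 f4 f5
  obtain ⟨c1, c2, c4, c3, c44, c0, c40⟩ := cent_facts x Z k hZ8 (by omega) c hc
  obtain ⟨p1, -, -, -⟩ := PP_cent x Z Z.card c rfl hc
  have m3 := M3 (fun a => x a - c) Z k (by omega) p1
  have hC : (0 : ℝ) < (Z.card.choose k : ℝ) := by exact_mod_cast Nat.choose_pos (by omega)
  have a3 : AV Z k (fun K => (∑ a ∈ K, x a - k * c) ^ 3) =
      fc Z.card k * PP (fun a => x a - c) Z 3 := by
    rw [AV_pow x Z k 3 c, m3, mul_comm ((Z.card.choose k : ℝ)), mul_div_assoc, div_self hC.ne',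
      mul_one]
  have hcs : PP (fun a => x a - c) Z 3 ^ 2 ≤ PP (fun a => x a - c) Z 2 ^ 3 := by
    have h := Finset.sum_mul_sq_le_sq_mul_sq Z (fun a => (x a - c)) (fun a => (x a - c) ^ 2)
    have e1 : ∑ a ∈ Z, (x a - c) * (x a - c) ^ 2 = PP (fun a => x a - c) Z 3 := by
      unfold PP; exact Finset.sum_congr rfl fun a _ => by ring
    have e2 : ∑ a ∈ Z, ((x a - c) ^ 2) ^ 2 = PP (fun a => x a - c) Z 4 := by
      unfold PP; exact Finset.sum_congr rfl fun a _ => by ring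
    rw [e1, e2] at h
    have e3 : ∑ a ∈ Z, (x a - c) ^ 2 = PP (fun a => x a - c) Z 2 := rfl
    rw [e3] at h
    calc PP (fun a => x a - c) Z 3 ^ 2 ≤ PP (fun a => x a - c) Z 2 * PP (fun a => x a - c) Z 4 := h
      _ ≤ PP (fun a => x a - c) Z 2 * PP (fun a => x a - c) Z 2 ^ 2 :=
          mul_le_mul_of_nonneg_left c44 c0
      _ = _ := by ring
  refine ⟨fa Z.card k * PP (fun a => x a - c) Z 2, mul_nonneg f1.le c0,
    mul_le_mul_of_nonneg_left c3 f1.le, c1, c2, ?_, ?_⟩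
  · rw [c4]
    have h1 : (fa Z.card k - 6 * fb Z.card k) * PP (fun a => x a - c) Z 4 ≤ 0 :=
      mul_nonpos_of_nonpos_of_nonneg f2 c40
    have h2 := mul_le_mul_of_nonneg_right f3 (sq_nonneg (PP (fun a => x a - c) Z 2))
    have e : (3 + 1 / 10 ^ 6) * (fa Z.card k * PP (fun a => x a - c) Z 2) ^ 2 =
        (3 + 1 / 10 ^ 6) * fa Z.card k ^ 2 * PP (fun a => x a - c) Z 2 ^ 2 := by ring
    rw [e]
    linarith
  · rw [a3, mul_pow]
    calc fc Z.card k ^ 2 * PP (fun a => x a - c) Z 3 ^ 2 ≤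
        (1334 / 1000 * fa Z.card k ^ 3) * PP (fun a => x a - c) Z 2 ^ 3 :=
          mul_le_mul f4 hcs (sq_nonneg _) (by positivity)
      _ = _ := by ring

omit [DecidableEq α] in
/-- lower bound in the range `μ ≤ σ` -/
theorem win_low (Z : Finset α) (k : ℕ) (hk : k ≤ Z.card) (z f : Finset α → ℝ) (μ V W σ : ℝ)
    (hf : ∀ K ∈ Z.powersetCard k, f K = z K + μ) (hσ : 0 < σ) (hσ2 : σ ^ 2 = V) (hμ0 : 0 ≤ μ)
    (hμ1 : μ ≤ σ) (hW : 2858 / 1000 * σ ≤ W) (h1 : AV Z k z = 0)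
    (h2 : AV Z k (fun K => z K ^ 2) = V)
    (h4 : AV Z k (fun K => z K ^ 4) ≤ (3 + 1 / 10 ^ 6) * V ^ 2)
    (h3 : (AV Z k (fun K => z K ^ 3)) ^ 2 ≤ 1334 / 1000 * V ^ 3) :
    1544 / 10000 ≤ AV Z k (fun K => if 0 ≤ f K ∧ f K < W then 1 else 0) := by
  obtain ⟨lam, hlam⟩ : ∃ lam : ℝ, lam = 7 / 10 / σ := ⟨_, rfl⟩
  have hl0 : 0 < lam := by rw [hlam]; positivity
  have hlσ : lam * σ = 7 / 10 := by rw [hlam, div_mul_cancel₀ _ hσ.ne']
  obtain ⟨m, hm⟩ : ∃ m : ℝ, m = μ / σ := ⟨_, rfl⟩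
  have hμm : μ = m * σ := by rw [hm, div_mul_cancel₀ _ hσ.ne']
  have hm0 : 0 ≤ m := by rw [hm]; positivity
  have hm1 : m ≤ 1 := by rw [hm, div_le_one hσ]; exact hμ1
  have h := win_poly Z k hk z f μ lam W hf hl0 (by nlinarith) h1
  refine le_trans ?_ h
  rw [h2]
  have hE3 : AV Z k (fun K => z K ^ 3) ≤ 1156 / 1000 * σ ^ 3 := by
    refine abs_le_of_sq_le_sq' ?_ (by positivity) |>.2
    refine h3.trans ?_
    rw [← hσ2]
    have : (0 : ℝ) ≤ σ ^ 6 := by positivity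
    nlinarith
  generalize AV Z k (fun K => z K ^ 3) = T3 at *
  generalize AV Z k (fun K => z K ^ 4) = T4 at *
  have hl4 : lam ^ 4 * (T4 + 4 * μ * T3 + 6 * μ ^ 2 * V + μ ^ 4) ≤
      2401 / 10000 * ((3 + 1 / 10 ^ 6) + 4624 / 1000 * m + 6 * m ^ 2 + m ^ 4) := by
    have b1 : T4 + 4 * μ * T3 + 6 * μ ^ 2 * V + μ ^ 4 ≤
        σ ^ 4 * ((3 + 1 / 10 ^ 6) + 4624 / 1000 * m + 6 * m ^ 2 + m ^ 4) := by
      have b2 : 4 * μ * T3 ≤ 4 * μ * (1156 / 1000 * σ ^ 3) :=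
        mul_le_mul_of_nonneg_left hE3 (by linarith)
      rw [hμm] at b2 ⊢
      rw [← hσ2] at h4 ⊢
      nlinarith
    have b3 := mul_le_mul_of_nonneg_left b1 (show 0 ≤ lam ^ 4 by positivity)
    refine b3.trans (le_of_eq ?_)
    have e : lam ^ 4 * σ ^ 4 = 2401 / 10000 := by
      rw [← mul_pow, hlσ]; norm_num
    rw [← mul_assoc, e]
  have hl1 : 2 * lam * μ = 14 / 10 * m := by
    rw [hμm]
    calc 2 * lam * (m * σ) = 2 * (lam * σ) * m := by ring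
      _ = 14 / 10 * m := by rw [hlσ]; ring
  have hl2 : 3 * lam ^ 2 * (V + μ ^ 2) = 147 / 100 * (1 + m ^ 2) := by
    rw [hμm, ← hσ2]
    calc 3 * lam ^ 2 * (σ ^ 2 + (m * σ) ^ 2) = 3 * (lam * σ) ^ 2 * (1 + m ^ 2) := by ring
      _ = _ := by rw [hlσ]; norm_num
  rw [hl1, hl2]
  have hm4 : m ^ 4 ≤ m := by
    have : m ^ 4 = m * m ^ 3 := by ring
    rw [this]
    have h5 : m ^ 3 ≤ 1 := pow_le_one₀ hm0 hm1
    nlinarith
  nlinarith

omit [DecidableEq α] in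
/-- all centred sums vanish -/
theorem win_zero (Z : Finset α) (k : ℕ) (hk : k ≤ Z.card) (z f : Finset α → ℝ) (μ W : ℝ)
    (hf : ∀ K ∈ Z.powersetCard k, f K = z K + μ) (hμ0 : 0 ≤ μ) (hμW : μ < W)
    (h2 : AV Z k (fun K => z K ^ 2) = 0) :
    AV Z k (fun K => if 0 ≤ f K ∧ f K < W then 1 else 0) = 1 := by
  have hC : (0 : ℝ) < (Z.card.choose k : ℝ) := by exact_mod_cast Nat.choose_pos hk
  unfold AV at h2
  rw [div_eq_zero_iff, or_iff_left hC.ne',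
    Finset.sum_eq_zero_iff_of_nonneg (fun K _ => sq_nonneg _)] at h2
  have h5 : AV Z k (fun K => if 0 ≤ f K ∧ f K < W then (1 : ℝ) else 0) =
      AV Z k (fun _ => (1 : ℝ)) := by
    unfold AV
    congr 1
    refine Finset.sum_congr rfl fun K hK => ?_
    have h3 : z K = 0 := by simpa using h2 K hK
    beta_reduce
    rw [hf K hK, h3, if_pos ⟨by linarith, by linarith⟩]
  rw [h5, AV_const Z k hk]

/-- common form of the two lemmas -/
theorem win_gen (x : α → ℝ) (Z : Finset α) (k : ℕ) (hbig : (10 : ℝ) ^ 30 ≤ Z.card)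
    (h3 : 3 * k ≤ Z.card) (h4 : Z.card ≤ 4 * k) (T s W : ℝ) (hT : PP x Z 1 = T) (hT0 : 0 ≤ T)
    (hs : 0 < s) (hV : fa Z.card k * PP x Z 2 ≤ s ^ 2) (hW1 : 286 / 100 * s ≤ W)
    (hW2 : (k / Z.card : ℝ) * T + 14 / 10 * s ≤ W) :
    1544 / 10000 ≤ AV Z k (fun K => if 0 ≤ ∑ a ∈ K, x a ∧ ∑ a ∈ K, x a < W then 1 else 0) := by
  have hN0 : (0 : ℝ) < Z.card := lt_of_lt_of_le (by norm_num) hbig
  have hkZ : k ≤ Z.card := by omega
  obtain ⟨c, hc⟩ : ∃ c : ℝ, (Z.card : ℝ) * c = PP x Z 1 :=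
    ⟨PP x Z 1 / Z.card, by rw [mul_comm, div_mul_cancel₀ _ hN0.ne']⟩
  obtain ⟨V, hV0, hV1, m1, m2, m4, m3⟩ := mom_rel x Z k hbig h3 h4 c hc
  obtain ⟨μ, hμ⟩ : ∃ μ : ℝ, μ = (k / Z.card : ℝ) * T := ⟨_, rfl⟩
  have hμc : μ = k * c := by
    rw [hμ, ← hT, ← hc]; field_simp
  rw [← hμ] at hW2
  have hμ0 : 0 ≤ μ := by rw [hμ]; positivity
  have hf : ∀ K ∈ Z.powersetCard k, (fun K => ∑ a ∈ K, x a) K =
      (fun K => ∑ a ∈ K, x a - k * c) K + μ := by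
    intro K _
    beta_reduce
    rw [hμc]; ring
  have hVs : V ≤ s ^ 2 := hV1.trans hV
  rcases eq_or_lt_of_le hV0 with h0 | h0
  · have := win_zero Z k hkZ (fun K => ∑ a ∈ K, x a - k * c) (fun K => ∑ a ∈ K, x a) μ W hf hμ0
      (by linarith) (by rw [m2, ← h0])
    beta_reduce at this
    rw [this]; norm_num
  · obtain ⟨σ, hσ⟩ : ∃ σ : ℝ, σ = Real.sqrt V := ⟨_, rfl⟩
    have hσ0 : 0 < σ := by rw [hσ]; exact Real.sqrt_pos.2 h0
    have hσ2 : σ ^ 2 = V := by rw [hσ]; exact Real.sq_sqrt hV0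
    have hσs : σ ≤ s := by
      refine abs_le_of_sq_le_sq' ?_ hs.le |>.2
      rw [hσ2]; exact hVs
    rcases le_or_gt μ σ with h5 | h5
    · exact win_low Z k hkZ (fun K => ∑ a ∈ K, x a - k * c) (fun K => ∑ a ∈ K, x a) μ V W σ hf hσ0
        hσ2 hμ0 h5 (by linarith) m1 m2 m4 m3
    · have h6 := win_cant Z k hkZ (fun K => ∑ a ∈ K, x a - k * c) (fun K => ∑ a ∈ K, x a) μ V W hf
        (by linarith) (by linarith) hV0 m1 m2.le
      refine le_trans ?_ h6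
      have h7 : V / (V + μ ^ 2) ≤ 1 / 2 := by
        rw [div_le_div_iff₀ (by positivity) (by norm_num)]
        have : σ ^ 2 ≤ μ ^ 2 := pow_le_pow_left₀ hσ0.le h5.le 2
        linarith
      have h8 : V / (V + (W - μ) ^ 2) ≤ 34 / 100 := by
        have h9 : (14 / 10 * σ) ^ 2 ≤ (W - μ) ^ 2 :=
          pow_le_pow_left₀ (by positivity) (by linarith) 2
        have h10 : 0 < V + (W - μ) ^ 2 := by positivity
        rw [div_le_div_iff₀ h10 (by norm_num)]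
        nlinarith
      linarith

theorem win2 : Win2 := by
  intro α _ x Z k hbig h3 h4 τ s X hτ hτ0 hs hV hX
  have hN0 : (0 : ℝ) < Z.card := lt_of_lt_of_le (by norm_num) hbig
  have h3R : (3 : ℝ) * k ≤ Z.card := by exact_mod_cast h3
  have hκ : (k / Z.card : ℝ) ≤ 1 / 3 := by rw [div_le_iff₀ hN0]; linarith
  have h5 : (k / Z.card : ℝ) * τ ≤ 1 / 3 * τ := mul_le_mul_of_nonneg_right hκ hτ0
  exact win_gen x Z k hbig h3 h4 τ s (X + 3 * τ) hτ hτ0 hs hV (by linarith) (by linarith)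

theorem win1a : Win1a := by
  intro α _ x Z k hbig h3 h4 b ρ s X hb hρ hτ hs hV hX hbX
  have hN0 : (0 : ℝ) < Z.card := lt_of_lt_of_le (by norm_num) hbig
  have h3' : 3 * k ≤ Z.card := by
    have : (3 : ℝ) * k ≤ Z.card := by linarith
    exact_mod_cast this
  have hκ : (k / Z.card : ℝ) ≤ 3001 / 10000 := by rw [div_le_iff₀ hN0]; exact h3
  have h5 : (k / Z.card : ℝ) * (b + ρ) ≤ 3001 / 10000 * (b + ρ) :=
    mul_le_mul_of_nonneg_right hκ (by linarith)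
  exact win_gen x Z k hbig h3' h4 (b + ρ) s (X + 3 * ρ) hτ (by linarith) hs hV (by linarith)
    (by linarith)

end Pool.Agent.H49.MK
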