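import Mathlib
import Pool.Agent.H49.MK.Win
import Pool.Agent.H49.MK.DCc

/-!
The window lemma `Win1b` and the double counting statement.
-/

open Finset
open scoped BigOperators

namespace Pool.Agent.H49.MK

open Pool.Agent.H49.L

variable {α : Type} [DecidableEq α]

theorem fac_rel2 (n κ : ℝ) (hn : (10 : ℝ) ^ 30 ≤ n) (h0 : 2999 / 10000 ≤ κ) (h1 : κ ≤ 1 / 3) :
    0 < 6 * fb n (κ * n) - fa n (κ * n) ∧
    4 * fc n (κ * n) ^ 2 ≤ 25 / 10 * fa n (κ * n) * (6 * fb n (κ * n) - fa n (κ * n)) := by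
  have hn0 : (0 : ℝ) < n := lt_of_lt_of_le (by norm_num) hn
  have hn8 : (8 : ℝ) ≤ n := le_trans (by norm_num) hn
  have a := fa_close n κ hn8 (by linarith) (by linarith)
  have b := fb_close n κ hn8 (by linarith) (by linarith)
  have c := fc_close n κ hn8 (by linarith) (by linarith)
  have s1 : (1 : ℝ) / n ≤ 1 / 10 ^ 30 := div_le_div_of_nonneg_left (by norm_num) (by norm_num) hn
  have s2 : (2 : ℝ) / n ≤ 2 / 10 ^ 30 := div_le_div_of_nonneg_left (by norm_num) (by norm_num) hn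
  have s5 : (5 : ℝ) / n ≤ 5 / 10 ^ 30 := div_le_div_of_nonneg_left (by norm_num) (by norm_num) hn
  have t1 : (1 : ℝ) / 10 ^ 30 ≤ 1 / 10 ^ 9 := by norm_num
  have t2 : (2 : ℝ) / 10 ^ 30 ≤ 1 / 10 ^ 9 := by norm_num
  have t5 : (5 : ℝ) / 10 ^ 30 ≤ 1 / 10 ^ 9 := by norm_num
  have a' := abs_le.1 ((a.trans s1).trans t1)
  have b' := abs_le.1 ((b.trans s2).trans t2)
  have c' := abs_le.1 ((c.trans s5).trans t5)
  clear a b c s1 s2 s5 t1 t2 t5
  have hq1 : 2099 / 10000 ≤ κ * (1 - κ) := by nlinarith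
  have hq2 : κ * (1 - κ) ≤ 2 / 9 := by nlinarith
  have hs1 : 1 / 3 ≤ 1 - 2 * κ := by linarith
  have hs4 : 1 - 2 * κ ≤ 4002 / 10000 := by linarith
  have hs2 : (1 - 2 * κ) ^ 2 = 1 - 4 * (κ * (1 - κ)) := by ring
  generalize fa n (κ * n) = A at *
  generalize fb n (κ * n) = B at *
  generalize fc n (κ * n) = C at *
  generalize 1 - 2 * κ = d at *
  generalize κ * (1 - κ) = q at *
  have hP : q * (6 * q - 1) - 1 / 10 ^ 7 ≤ 6 * B - A := by nlinarith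
  have hP2 : 53 / 1000 ≤ 6 * B - A := by nlinarith
  refine ⟨by linarith, ?_⟩
  have hC0 : 0 ≤ C := by nlinarith
  have hC1 : C ≤ q * d + 1 / 10 ^ 9 := by linarith
  have hC2 : C ^ 2 ≤ q ^ 2 * d ^ 2 + 1 / 10 ^ 8 := by
    have h1 : C ^ 2 ≤ (q * d + 1 / 10 ^ 9) ^ 2 := pow_le_pow_left₀ hC0 hC1 2
    have h2 : q * d ≤ 1 := by nlinarith
    nlinarith
  have hA0 : q - 1 / 10 ^ 9 ≤ A := by linarith
  have h3 : (q - 1 / 10 ^ 9) * (q * (6 * q - 1) - 1 / 10 ^ 7) ≤ A * (6 * B - A) :=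
    mul_le_mul hA0 hP (by nlinarith) (by linarith)
  rw [hs2] at hC2
  have h4 : 4 * (q ^ 2 * (1 - 4 * q)) + 1 / 10 ^ 6 ≤ 25 / 10 * (q ^ 2 * (6 * q - 1)) := by
    have h5 : 1 / 1000 ≤ 25 / 10 * (6 * q - 1) - 4 * (1 - 4 * q) := by linarith
    have h6 : (4 : ℝ) / 100 ≤ q ^ 2 := by nlinarith
    nlinarith
  nlinarith

theorem g_min (m m0 p : ℝ) (h0 : 0 ≤ m0) (h1 : m0 ≤ m) (h2 : m ≤ 1)
    (hp1 : p ≤ 2062 / 10000 * (7496 / 10000 + 1399 / 1000 * m0 - 572 / 1000 * m0 ^ 2 -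
      241 / 1000 * m0 ^ 4)) (hp2 : p ≤ 275 / 1000) :
    p ≤ 2062 / 10000 * (7496 / 10000 + 1399 / 1000 * m - 572 / 1000 * m ^ 2 -
      241 / 1000 * m ^ 4) := by
  have hm0 : 0 ≤ m := h0.trans h1
  rcases le_or_gt m (75 / 100) with h | h
  · refine hp1.trans ?_
    have e : (7496 / 10000 + 1399 / 1000 * m - 572 / 1000 * m ^ 2 - 241 / 1000 * m ^ 4) -
        (7496 / 10000 + 1399 / 1000 * m0 - 572 / 1000 * m0 ^ 2 - 241 / 1000 * m0 ^ 4) =
        (m - m0) * (1399 / 1000 - 572 / 1000 * (m + m0) -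
          241 / 1000 * (m ^ 3 + m ^ 2 * m0 + m * m0 ^ 2 + m0 ^ 3)) := by ring
    have hm3 : m ^ 3 ≤ (75 / 100) ^ 3 := pow_le_pow_left₀ hm0 h 3
    have a1 : m ^ 2 * m0 ≤ m ^ 3 := by
      have : m ^ 3 = m ^ 2 * m := by ring
      rw [this]; exact mul_le_mul_of_nonneg_left h1 (sq_nonneg m)
    have a2 : m * m0 ^ 2 ≤ m ^ 3 := by
      have : m ^ 3 = m * m ^ 2 := by ring
      rw [this]; exact mul_le_mul_of_nonneg_left (pow_le_pow_left₀ h0 h1 2) hm0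
    have a3 : m0 ^ 3 ≤ m ^ 3 := pow_le_pow_left₀ h0 h1 3
    have hbr : 0 ≤ 1399 / 1000 - 572 / 1000 * (m + m0) -
          241 / 1000 * (m ^ 3 + m ^ 2 * m0 + m * m0 ^ 2 + m0 ^ 3) := by
      norm_num at hm3
      linarith
    have := mul_nonneg (sub_nonneg.2 h1) hbr
    rw [← e] at this
    linarith
  · refine hp2.trans ?_
    have e : (7496 / 10000 + 1399 / 1000 * m - 572 / 1000 * m ^ 2 - 241 / 1000 * m ^ 4) -
        (7496 / 10000 + 1399 / 1000 - 572 / 1000 - 241 / 1000) =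
        (1 - m) * (-(1399 / 1000) + 572 / 1000 * (1 + m) +
          241 / 1000 * (1 + m + m ^ 2 + m ^ 3)) := by ring
    have b2 : (75 / 100) ^ 2 ≤ m ^ 2 := pow_le_pow_left₀ (by norm_num) h.le 2
    have b3 : (75 / 100) ^ 3 ≤ m ^ 3 := pow_le_pow_left₀ (by norm_num) h.le 3
    norm_num at b2 b3
    have hbr : 0 ≤ -(1399 / 1000) + 572 / 1000 * (1 + m) +
          241 / 1000 * (1 + m + m ^ 2 + m ^ 3) := by linarith
    have := mul_nonneg (sub_nonneg.2 h2) hbr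
    rw [← e] at this
    linarith

/-- centred moments, density in `[0.2999, 1/3]`: joint bound for the third and fourth moments -/
theorem mom_rel2 (x : α → ℝ) (Z : Finset α) (k : ℕ) (hbig : (10 : ℝ) ^ 30 ≤ Z.card)
    (h3 : 3 * k ≤ Z.card) (h4 : 2999 / 10000 * (Z.card : ℝ) ≤ k) (c : ℝ)
    (hc : (Z.card : ℝ) * c = PP x Z 1) (μ : ℝ) :
    ∃ V : ℝ, 0 ≤ V ∧ V ≤ fa Z.card k * PP x Z 2 ∧
      AV Z k (fun K => ∑ a ∈ K, x a - k * c) = 0 ∧
      AV Z k (fun K => (∑ a ∈ K, x a - k * c) ^ 2) = V ∧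
      AV Z k (fun K => (∑ a ∈ K, x a - k * c) ^ 4) +
        4 * μ * AV Z k (fun K => (∑ a ∈ K, x a - k * c) ^ 3) ≤
          (3 + 1 / 10 ^ 6) * V ^ 2 + 25 / 10 * μ ^ 2 * V := by
  have hN0 : (0 : ℝ) < Z.card := lt_of_lt_of_le (by norm_num) hbig
  have hZ8 : 8 ≤ Z.card := by
    have : (8 : ℝ) ≤ Z.card := le_trans (by norm_num) hbig
    exact_mod_cast this
  have h3R : (3 : ℝ) * k ≤ Z.card := by exact_mod_cast h3
  obtain ⟨κ, hκ⟩ : ∃ κ : ℝ, κ = (k : ℝ) / Z.card := ⟨_, rfl⟩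
  have hkκ : (k : ℝ) = κ * Z.card := by rw [hκ, div_mul_cancel₀ _ hN0.ne']
  have hκ0 : 2999 / 10000 ≤ κ := by rw [hκ, le_div_iff₀ hN0]; exact h4
  have hκ1 : κ ≤ 1 / 3 := by rw [hκ, div_le_iff₀ hN0]; linarith
  obtain ⟨f1, -, f3, -, -⟩ := fac_rel Z.card κ hbig (by linarith) hκ1
  obtain ⟨g1, g2⟩ := fac_rel2 Z.card κ hbig hκ0 hκ1
  rw [← hkκ] at f1 f3 g1 g2
  obtain ⟨c1, c2, c4, c3, c44, c0, c40⟩ := cent_facts x Z k hZ8 (by omega) c hc
  obtain ⟨p1, -, -, -⟩ := PP_cent x Z Z.card c rfl hc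
  have m3 := M3 (fun a => x a - c) Z k (by omega) p1
  have hC : (0 : ℝ) < (Z.card.choose k : ℝ) := by exact_mod_cast Nat.choose_pos (by omega)
  have a3 : AV Z k (fun K => (∑ a ∈ K, x a - k * c) ^ 3) =
      fc Z.card k * PP (fun a => x a - c) Z 3 := by
    rw [AV_pow x Z k 3 c, m3, mul_comm ((Z.card.choose k : ℝ)), mul_div_assoc, div_self hC.ne',
      mul_one]
  have hcs : PP (fun a => x a - c) Z 3 ^ 2 ≤
      PP (fun a => x a - c) Z 2 * PP (fun a => x a - c) Z 4 := by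
    have h := Finset.sum_mul_sq_le_sq_mul_sq Z (fun a => (x a - c)) (fun a => (x a - c) ^ 2)
    have e1 : ∑ a ∈ Z, (x a - c) * (x a - c) ^ 2 = PP (fun a => x a - c) Z 3 := by
      unfold PP; exact Finset.sum_congr rfl fun a _ => by ring
    have e2 : ∑ a ∈ Z, ((x a - c) ^ 2) ^ 2 = PP (fun a => x a - c) Z 4 := by
      unfold PP; exact Finset.sum_congr rfl fun a _ => by ring
    rw [e1, e2] at h
    exact h
  refine ⟨fa Z.card k * PP (fun a => x a - c) Z 2, mul_nonneg f1.le c0,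
    mul_le_mul_of_nonneg_left c3 f1.le, c1, c2, ?_⟩
  rw [c4, a3]
  generalize PP (fun a => x a - c) Z 2 = Q at *
  generalize PP (fun a => x a - c) Z 3 = C3 at *
  generalize PP (fun a => x a - c) Z 4 = F at *
  generalize fa (Z.card : ℝ) k = A at *
  generalize fb (Z.card : ℝ) k = B at *
  generalize fc (Z.card : ℝ) k = Cc at *
  have h2 := mul_le_mul_of_nonneg_right f3 (sq_nonneg Q)
  obtain ⟨P, hP⟩ : ∃ P : ℝ, P = 6 * B - A := ⟨_, rfl⟩
  rw [← hP] at g1 g2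
  -- - P F + 4 μ Cc C3 ≤ 2.5 μ² A Q
  have hkey : -(P * F) + 4 * μ * (Cc * C3) ≤ 25 / 10 * μ ^ 2 * (A * Q) := by
    rcases eq_or_lt_of_le c0 with hz | hz
    · rw [← hz, zero_mul] at hcs
      have : C3 = 0 := by
        have := sq_nonneg C3
        have h5 : C3 ^ 2 = 0 := le_antisymm hcs this
        simpa using h5
      rw [this, ← hz]
      have := mul_nonneg g1.le c40
      simp only [mul_zero, add_zero]
      linarith
    · -- multiply by P Q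
      have hPQ : 0 < P * Q := mul_pos g1 hz
      refine le_of_mul_le_mul_left ?_ hPQ
      have e1 : P * Q * (-(P * F) + 4 * μ * (Cc * C3)) ≤
          -(P ^ 2 * C3 ^ 2) + 4 * μ * Cc * C3 * (P * Q) := by
        have := mul_le_mul_of_nonneg_left hcs (sq_nonneg P)
        nlinarith
      have e2 : -(P ^ 2 * C3 ^ 2) + 4 * μ * Cc * C3 * (P * Q) ≤ 4 * μ ^ 2 * Cc ^ 2 * Q ^ 2 := by
        nlinarith [sq_nonneg (P * C3 - 2 * μ * Cc * Q)]
      have e3 : 4 * μ ^ 2 * Cc ^ 2 * Q ^ 2 ≤ P * Q * (25 / 10 * μ ^ 2 * (A * Q)) := by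
        have := mul_le_mul_of_nonneg_right g2 (show 0 ≤ μ ^ 2 * Q ^ 2 by positivity)
        nlinarith
      linarith
  have e : (3 + 1 / 10 ^ 6) * (A * Q) ^ 2 = (3 + 1 / 10 ^ 6) * A ^ 2 * Q ^ 2 := by ring
  rw [e]
  have e2 : (A - 6 * B) * F = -(P * F) := by rw [hP]; ring
  rw [e2]
  linarith

theorem win1b : Win1b := by
  intro α _ x Z k hbig h3 h4 b ρ s X m0 p1 hb hρ hτ hs hV hX hm0 hm1 hm hp1 hp2 hbX hp3
  have hN0 : (0 : ℝ) < Z.card := lt_of_lt_of_le (by norm_num) hbig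
  have hkZ : k ≤ Z.card := by omega
  have h3R : (3 : ℝ) * k ≤ Z.card := by exact_mod_cast h3
  obtain ⟨c, hc⟩ : ∃ c : ℝ, (Z.card : ℝ) * c = PP x Z 1 :=
    ⟨PP x Z 1 / Z.card, by rw [mul_comm, div_mul_cancel₀ _ hN0.ne']⟩
  obtain ⟨κ, hκ⟩ : ∃ κ : ℝ, κ = (k : ℝ) / Z.card := ⟨_, rfl⟩
  have hkκ : (k : ℝ) = κ * Z.card := by rw [hκ, div_mul_cancel₀ _ hN0.ne']
  have hκ0 : 2999 / 10000 ≤ κ := by rw [hκ, le_div_iff₀ hN0]; exact h4
  have hκ1 : κ ≤ 1 / 3 := by rw [hκ, div_le_iff₀ hN0]; linarith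
  obtain ⟨μ, hμ⟩ : ∃ μ : ℝ, μ = κ * (b + ρ) := ⟨_, rfl⟩
  have hμc : μ = k * c := by
    rw [hμ, ← hτ, ← hc, hkκ]; ring
  have hμ0 : 0 ≤ μ := by rw [hμ]; exact mul_nonneg (by linarith) (by linarith)
  have hμ1 : μ ≤ 1 / 3 * (b + ρ) := by
    rw [hμ]; exact mul_le_mul_of_nonneg_right hκ1 (by linarith)
  have hμ2 : 2999 / 10000 * b ≤ μ := by
    rw [hμ]
    calc 2999 / 10000 * b ≤ 2999 / 10000 * (b + ρ) := by linarith
      _ ≤ _ := mul_le_mul_of_nonneg_right hκ0 (by linarith)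
  obtain ⟨V, hV0, hV1, m1, m2, m34⟩ := mom_rel2 x Z k hbig h3 h4 c hc μ
  obtain ⟨W, hW⟩ : ∃ W : ℝ, W = X + 3 * ρ := ⟨_, rfl⟩
  rw [← hW]
  have hWμ : X - b / 3 ≤ W - μ := by rw [hW]; linarith
  have hf : ∀ K ∈ Z.powersetCard k, (fun K => ∑ a ∈ K, x a) K =
      (fun K => ∑ a ∈ K, x a - k * c) K + μ := by
    intro K _
    beta_reduce
    rw [hμc]; ring
  have hVs : V ≤ s ^ 2 := hV1.trans hV
  rcases eq_or_lt_of_le hV0 with h0 | h0
  · have := win_zero Z k hkZ (fun K => ∑ a ∈ K, x a - k * c) (fun K => ∑ a ∈ K, x a) μ W hf hμ0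
      (by linarith) (by rw [m2, ← h0])
    beta_reduce at this
    rw [this]; linarith
  · obtain ⟨σ, hσ⟩ : ∃ σ : ℝ, σ = Real.sqrt V := ⟨_, rfl⟩
    have hσ0 : 0 < σ := by rw [hσ]; exact Real.sqrt_pos.2 h0
    have hσ2 : σ ^ 2 = V := by rw [hσ]; exact Real.sq_sqrt hV0
    have hσs : σ ≤ s := by
      refine abs_le_of_sq_le_sq' ?_ hs.le |>.2
      rw [hσ2]; exact hVs
    rcases le_or_gt μ σ with h5 | h5
    · obtain ⟨lam, hlam⟩ : ∃ lam : ℝ, lam = 7 / 10 / σ := ⟨_, rfl⟩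
      have hl0 : 0 < lam := by rw [hlam]; positivity
      have hlσ : lam * σ = 7 / 10 := by rw [hlam, div_mul_cancel₀ _ hσ0.ne']
      obtain ⟨m, hmd⟩ : ∃ m : ℝ, m = μ / σ := ⟨_, rfl⟩
      have hμm : μ = m * σ := by rw [hmd, div_mul_cancel₀ _ hσ0.ne']
      have hm00 : 0 ≤ m := by rw [hmd]; positivity
      have hm11 : m ≤ 1 := by rw [hmd, div_le_one hσ0]; exact h5
      have hm0m : m0 ≤ m := by
        rw [hmd, le_div_iff₀ hσ0]
        calc m0 * σ ≤ m0 * s := mul_le_mul_of_nonneg_left hσs hm0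
          _ ≤ μ := hm.trans hμ2
      have hWσ : 2 ≤ lam * W := by
        have : 286 / 100 * σ ≤ W := by rw [hW]; linarith
        nlinarith
      have h := win_poly Z k hkZ (fun K => ∑ a ∈ K, x a - k * c) (fun K => ∑ a ∈ K, x a) μ lam W hf
        hl0 hWσ m1
      refine le_trans ?_ h
      rw [m2]
      generalize AV Z k (fun K => (∑ a ∈ K, x a - k * c) ^ 3) = T3 at *
      generalize AV Z k (fun K => (∑ a ∈ K, x a - k * c) ^ 4) = T4 at *
      have hl4 : lam ^ 4 * (T4 + 4 * μ * T3 + 6 * μ ^ 2 * V + μ ^ 4) ≤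
          2401 / 10000 * ((3 + 1 / 10 ^ 6) + 85 / 10 * m ^ 2 + m ^ 4) := by
        have b1 : T4 + 4 * μ * T3 + 6 * μ ^ 2 * V + μ ^ 4 ≤
            σ ^ 4 * ((3 + 1 / 10 ^ 6) + 85 / 10 * m ^ 2 + m ^ 4) := by
          have e : σ ^ 4 * ((3 + 1 / 10 ^ 6) + 85 / 10 * m ^ 2 + m ^ 4) =
              (3 + 1 / 10 ^ 6) * V ^ 2 + 25 / 10 * μ ^ 2 * V + 6 * μ ^ 2 * V + μ ^ 4 := by
            rw [hμm, ← hσ2]; ring
          rw [e]; linarith
        have b3 := mul_le_mul_of_nonneg_left b1 (show 0 ≤ lam ^ 4 by positivity)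
        refine b3.trans (le_of_eq ?_)
        have e : lam ^ 4 * σ ^ 4 = 2401 / 10000 := by
          rw [← mul_pow, hlσ]; norm_num
        rw [← mul_assoc, e]
      have hl1 : 2 * lam * μ = 14 / 10 * m := by
        rw [hμm]
        calc 2 * lam * (m * σ) = 2 * (lam * σ) * m := by ring
          _ = 14 / 10 * m := by rw [hlσ]; ring
      have hl2 : 3 * lam ^ 2 * (V + μ ^ 2) = 147 / 100 * (1 + m ^ 2) := by
        rw [hμm, ← hσ2]
        calc 3 * lam ^ 2 * (σ ^ 2 + (m * σ) ^ 2) = 3 * (lam * σ) ^ 2 * (1 + m ^ 2) := by ring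
          _ = _ := by rw [hlσ]; norm_num
      rw [hl1, hl2]
      have hg := g_min m m0 p1 hm0 hm0m hm11 hp1 hp2
      refine hg.trans ?_
      have hm2 : 0 ≤ m ^ 2 := sq_nonneg m
      have hm4 : 0 ≤ m ^ 4 := by positivity
      nlinarith
    · have h6 := win_cant Z k hkZ (fun K => ∑ a ∈ K, x a - k * c) (fun K => ∑ a ∈ K, x a) μ V W hf
        (by linarith) (by linarith) hV0 m1 m2.le
      refine le_trans ?_ h6
      have h7 : V / (V + μ ^ 2) ≤ 1 / 2 := by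
        rw [div_le_div_iff₀ (by positivity) (by norm_num)]
        have : σ ^ 2 ≤ μ ^ 2 := pow_le_pow_left₀ hσ0.le h5.le 2
        linarith
      have hD : 0 < X - b / 3 := by linarith
      have h8 : V / (V + (W - μ) ^ 2) ≤ s ^ 2 / (s ^ 2 + (X - b / 3) ^ 2) := by
        have h9 : (X - b / 3) ^ 2 ≤ (W - μ) ^ 2 := pow_le_pow_left₀ hD.le hWμ 2
        have h10 : 0 < V + (W - μ) ^ 2 := by positivity
        rw [div_le_div_iff₀ h10 (by positivity)]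
        have h11 : V * (X - b / 3) ^ 2 ≤ s ^ 2 * (W - μ) ^ 2 :=
          mul_le_mul hVs h9 (sq_nonneg _) (sq_nonneg _)
        nlinarith
      linarith

/-- the double counting statement, unconditionally -/
theorem dc_final : DCst (10 ^ 31) := dcst win2 win1a win1b

end Pool.Agent.H49.MK
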